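import Pool.Agent.H72.CC.Defs

/-! Circulation carried by a divergence free field whose stream function is square integrable along vertical lines. -/

set_option autoImplicit false

open Set Filter Topology MeasureTheory
open scoped ContDiff

namespace Pool.Agent.H90.AX

open Pool.Agent.H16 Pool.Agent.H87.NS Pool.Agent.H72.CC

/-- The weight `rsq * P²` is form bounded by `B` in the unit ball. -/
def FB (P : E3 → ℝ) (B : ℝ) : Prop :=
  ∀ f : E3 → ℝ, ContDiff ℝ 1 f → HasCompactSupport f → (∀ x, 1 ≤ ‖x‖ → f x = 0) → (∀ x, 0 ≤ f x) →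
    ∫ x, rsq x * P x ^ 2 * f x ≤ B * ∫ x, √(gsq f x)

/-- The same at all times of `[-1, 0]`, with a bound depending continuously on the time. -/
structure FT (P : ℝ → E3 → ℝ) (B : ℝ → ℝ) : Prop where
  con : ContinuousOn B (Icc (-1) 0)
  nn : ∀ t, 0 ≤ B t
  fb : ∀ t ∈ Icc (-1 : ℝ) 0, FB (P t) (B t)

/-- Square integrals along vertical lines of the unit cylinder. -/
def AV (P : E3 → ℝ) (B : ℝ) : Prop :=
  ∀ y : E3, rsq y < 1 → rsq y * ∫ r in (-1 : ℝ)..1, P (y + (r - y 2) • e 2) ^ 2 ≤ B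

end Pool.Agent.H90.AX
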