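/-
Square integrals along vertical lines bound the quadratic form.
-/
import Pool.Agent.H90.AX.Defs
import Pool.Agent.H72.CC.Hol

set_option autoImplicit false

open Set Filter Topology MeasureTheory
open scoped ContDiff

namespace Pool.Agent.H90.AX

open Pool.Agent.H16 Pool.Agent.H87.NS Pool.Agent.H72.CC

theorem Cor_coord (x : E3) (r : ℝ) : (x + r • e 2) 2 = x 2 + r := by
  simp [e]

theorem Cor_rsq (x : E3) (r : ℝ) : rsq (x + r • e 2) = rsq x := by
  unfold rsq
  simp [e]

theorem Cor_nsq (x : E3) : ‖x‖ ^ 2 = rsq x + x 2 ^ 2 := by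
  rw [EuclideanSpace.norm_sq_eq, Fin.sum_univ_three]
  simp [sq_abs, rsq]

theorem Cor_pt {f : E3 → ℝ} (hf : ContDiff ℝ 1 f) (h1 : ∀ x, 1 ≤ ‖x‖ → f x = 0) {x : E3} (hx : ‖x‖ < 1) :
    f x ≤ ∫ r in (0:ℝ)..3, |pd 2 f (x - r • e 2)| := by
  have hline : ∀ r : ℝ, HasDerivAt (fun r : ℝ => x - r • e 2) (-(e 2)) r := by
    intro r
    have := ((hasDerivAt_id r).smul_const (e 2)).const_sub x
    simpa using this
  have hd : ∀ r : ℝ, HasDerivAt (fun r : ℝ => - f (x - r • e 2)) (pd 2 f (x - r • e 2)) r := by
    intro r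
    have h1 := ((hf.differentiable (by norm_num) _).hasFDerivAt).comp_hasDerivAt r (hline r)
    have h2 := h1.neg
    have h3 : -(fderiv ℝ f (x - r • e 2)) (-(e 2)) = pd 2 f (x - r • e 2) := by
      rw [map_neg, neg_neg]; rfl
    rw [h3] at h2
    exact h2
  have hl : Continuous fun r : ℝ => x - r • e 2 := by fun_prop
  have hc : Continuous fun r : ℝ => pd 2 f (x - r • e 2) :=
    ((hf.continuous_fderiv (by norm_num)).comp hl).clm_apply continuous_const
  have h2 : ∫ r in (0:ℝ)..3, pd 2 f (x - r • e 2) = f x := by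
    rw [intervalIntegral.integral_eq_sub_of_hasDerivAt (fun r _ => hd r) (hc.intervalIntegrable _ _)]
    have h3 : f (x - (3:ℝ) • e 2) = 0 := by
      apply h1
      have h4 := norm_sub_norm_le ((3:ℝ) • e 2) x
      have h5 : ‖(3:ℝ) • e 2‖ = 3 := by
        rw [norm_smul]
        simp [e]
      rw [h5] at h4
      rw [norm_sub_rev]
      linarith
    rw [h3, zero_smul, sub_zero]
    ring
  rw [← h2]
  exact intervalIntegral.integral_mono_on (by norm_num) (hc.intervalIntegrable _ _) (hc.abs.intervalIntegrable _ _)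
    fun r _ => le_abs_self _

theorem cor0 {P : E3 → ℝ} {B : ℝ} (hP : Continuous P) (hB : 0 ≤ B) (h : AV P B) {f : E3 → ℝ} (hf : ContDiff ℝ 1 f)
    (hfc : HasCompactSupport f) (hf1 : ∀ x, 1 ≤ ‖x‖ → f x = 0) (hf0 : ∀ x, 0 ≤ f x) :
    ∫ x, rsq x * P x ^ 2 * f x ≤ B * ∫ x, |pd 2 f x| := by
  set g : E3 → ℝ := fun x => |pd 2 f x| with hg
  have hgc : Continuous g := (pd_cont hf 2).abs
  have hrc : Continuous fun x : E3 => rsq x * P x ^ 2 := Hol_rsq_cont.mul (hP.pow 2)
  have hb1 : MeasurableSet (Metric.ball (0 : E3) 1) := measurableSet_ball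
  set W : E3 → ENNReal := (Metric.ball (0 : E3) 1).indicator fun x => ENNReal.ofReal (rsq x * P x ^ 2) with hW
  have hWm : Measurable W := (ENNReal.measurable_ofReal.comp hrc.measurable).indicator hb1
  have hgm : Measurable fun x => ENNReal.ofReal (g x) := ENNReal.measurable_ofReal.comp hgc.measurable
  have hr0 : ∀ x : E3, 0 ≤ rsq x := Hol_rsq_nonneg
  have hV0 : ∀ x : E3, 0 ≤ rsq x * P x ^ 2 := fun x => mul_nonneg (hr0 x) (sq_nonneg _)
  -- pointwise
  have key : ∀ x, ENNReal.ofReal (rsq x * P x ^ 2 * f x) ≤ W x * ∫⁻ r : ℝ, ENNReal.ofReal (g (x - r • e 2)) := by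
    intro x
    by_cases hx : ‖x‖ < 1
    · have hxb : x ∈ Metric.ball (0 : E3) 1 := by rwa [mem_ball_zero_iff]
      rw [ENNReal.ofReal_mul (hV0 x), hW, indicator_of_mem hxb]
      refine mul_le_mul_right ?_ _
      refine (ENNReal.ofReal_le_ofReal (Cor_pt hf hf1 hx)).trans ?_
      have hl : Continuous fun r : ℝ => x - r • e 2 := by fun_prop
      have hc : Continuous fun r : ℝ => g (x - r • e 2) := hgc.comp hl
      rw [intervalIntegral.integral_of_le (by norm_num), ofReal_integral_eq_lintegral_ofReal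
        ((hc.integrableOn_Icc (a := 0) (b := 3)).mono_set Ioc_subset_Icc_self)
        (Eventually.of_forall fun r => abs_nonneg _)]
      exact setLIntegral_le_lintegral _ _
    · rw [hf1 x (not_lt.1 hx), mul_zero, ENNReal.ofReal_zero]
      exact zero_le
  have hinner : ∀ y : E3, ENNReal.ofReal (g y) * ∫⁻ r : ℝ, W (y + r • e 2) ≤ ENNReal.ofReal (g y) * ENNReal.ofReal B := by
    intro y
    by_cases hy : rsq y < 1
    · refine mul_le_mul_right ?_ _
      have e1 : ∫⁻ r : ℝ, W (y + r • e 2) = ∫⁻ r : ℝ, W (y + (r - y 2) • e 2) :=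
        (lintegral_sub_right_eq_self (fun r : ℝ => W (y + r • e 2)) (y 2)).symm
      rw [e1]
      have hl : Continuous fun r : ℝ => y + (r - y 2) • e 2 := by fun_prop
      have hc : Continuous fun r : ℝ => rsq y * P (y + (r - y 2) • e 2) ^ 2 :=
        continuous_const.mul ((hP.comp hl).pow 2)
      have e2 : ∀ r : ℝ, W (y + (r - y 2) • e 2) ≤
          (Ioc (-1:ℝ) 1).indicator (fun r => ENNReal.ofReal (rsq y * P (y + (r - y 2) • e 2) ^ 2)) r := by
        intro r
        by_cases hb : y + (r - y 2) • e 2 ∈ Metric.ball (0 : E3) 1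
        · have h2 : r ∈ Ioc (-1:ℝ) 1 := by
            rw [mem_ball_zero_iff] at hb
            have h3 := Cor_nsq (y + (r - y 2) • e 2)
            have h4 : ‖y + (r - y 2) • e 2‖ ^ 2 < 1 := by
              have := norm_nonneg (y + (r - y 2) • e 2)
              nlinarith only [hb, this]
            rw [Cor_coord] at h3
            have h5 := hr0 (y + (r - y 2) • e 2)
            have h6 : y 2 + (r - y 2) = r := by ring
            rw [h6] at h3
            constructor <;> nlinarith only [h3, h4, h5]
          rw [hW, indicator_of_mem hb, indicator_of_mem h2, Cor_rsq]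
        · rw [hW, indicator_of_notMem hb]
          exact zero_le
      refine (lintegral_mono e2).trans ?_
      rw [lintegral_indicator measurableSet_Ioc, ← ofReal_integral_eq_lintegral_ofReal
        ((hc.integrableOn_Icc (a := -1) (b := 1)).mono_set Ioc_subset_Icc_self)
        (Eventually.of_forall fun r => mul_nonneg (hr0 y) (sq_nonneg _))]
      refine ENNReal.ofReal_le_ofReal ?_
      rw [integral_const_mul, ← intervalIntegral.integral_of_le (by norm_num)]
      exact h y hy
    · have e1 : ∀ r : ℝ, W (y + r • e 2) = 0 := by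
        intro r
        rw [hW]
        refine indicator_of_notMem ?_ _
        rw [mem_ball_zero_iff, not_lt]
        have h3 := Cor_nsq (y + r • e 2)
        rw [Cor_rsq] at h3
        have h4 : 1 ≤ ‖y + r • e 2‖ ^ 2 := by
          rw [h3]
          nlinarith [sq_nonneg ((y + r • e 2) 2)]
        have := norm_nonneg (y + r • e 2)
        nlinarith
      simp only [e1, lintegral_zero, mul_zero]
      exact zero_le
  have hsubm : Measurable fun q : E3 × ℝ => W q.1 * ENNReal.ofReal (g (q.1 - q.2 • e 2)) := by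
    have hc : Continuous fun q : E3 × ℝ => q.1 - q.2 • e 2 := by fun_prop
    exact (hWm.comp measurable_fst).mul (hgm.comp hc.measurable)
  have haddm : Measurable fun q : ℝ × E3 => W (q.2 + q.1 • e 2) * ENNReal.ofReal (g q.2) := by
    have hc : Continuous fun q : ℝ × E3 => q.2 + q.1 • e 2 := by fun_prop
    exact (hWm.comp hc.measurable).mul (hgm.comp measurable_snd)
  have main : ∫⁻ x, ENNReal.ofReal (rsq x * P x ^ 2 * f x) ≤ ENNReal.ofReal B * ∫⁻ x, ENNReal.ofReal (g x) := by
    calc ∫⁻ x, ENNReal.ofReal (rsq x * P x ^ 2 * f x)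
        ≤ ∫⁻ x, W x * ∫⁻ r : ℝ, ENNReal.ofReal (g (x - r • e 2)) := lintegral_mono key
      _ = ∫⁻ x, ∫⁻ r : ℝ, W x * ENNReal.ofReal (g (x - r • e 2)) := by
          refine lintegral_congr fun x => (lintegral_const_mul _ ?_).symm
          have hl : Continuous fun r : ℝ => x - r • e 2 := by fun_prop
          exact hgm.comp hl.measurable
      _ = ∫⁻ r : ℝ, ∫⁻ x, W x * ENNReal.ofReal (g (x - r • e 2)) := lintegral_lintegral_swap hsubm.aemeasurable
      _ = ∫⁻ r : ℝ, ∫⁻ y, W (y + r • e 2) * ENNReal.ofReal (g y) := by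
          congr 1
          funext r
          have h3 : ∫⁻ y : E3, W (y + r • e 2) * ENNReal.ofReal (g (y + r • e 2 - r • e 2)) =
              ∫⁻ x : E3, W x * ENNReal.ofReal (g (x - r • e 2)) :=
            lintegral_add_right_eq_self (fun x : E3 => W x * ENNReal.ofReal (g (x - r • e 2))) (r • e 2)
          rw [← h3]
          congr 1
          funext y
          rw [add_sub_cancel_right]
      _ = ∫⁻ y, ∫⁻ r : ℝ, W (y + r • e 2) * ENNReal.ofReal (g y) := lintegral_lintegral_swap haddm.aemeasurable
      _ = ∫⁻ y, ENNReal.ofReal (g y) * ∫⁻ r : ℝ, W (y + r • e 2) := by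
          refine lintegral_congr fun y => ?_
          rw [lintegral_mul_const, mul_comm]
          have hl : Continuous fun r : ℝ => y + r • e 2 := by fun_prop
          exact hWm.comp hl.measurable
      _ ≤ ∫⁻ y, ENNReal.ofReal (g y) * ENNReal.ofReal B := lintegral_mono hinner
      _ = ENNReal.ofReal B * ∫⁻ x, ENNReal.ofReal (g x) := by
          rw [lintegral_mul_const _ hgm, mul_comm]
  -- back to integrals
  have hgs : HasCompactSupport (pd 2 f) := by
    have h2 : HasCompactSupport (fun x => fderiv ℝ f x (e 2)) := hfc.fderiv_apply ℝ (e 2)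
    exact h2
  have hgi : Integrable g := by
    have h3 : Integrable (pd 2 f) := (pd_cont hf 2).integrable_of_hasCompactSupport hgs
    exact h3.abs
  have hVi : Integrable fun x => rsq x * P x ^ 2 * f x :=
    (hrc.mul hf.continuous).integrable_of_hasCompactSupport hfc.mul_left
  rw [← ofReal_integral_eq_lintegral_ofReal hVi (Eventually.of_forall fun x => mul_nonneg (hV0 x) (hf0 x)),
    ← ofReal_integral_eq_lintegral_ofReal hgi (Eventually.of_forall fun x => abs_nonneg _), ← ENNReal.ofReal_mul hB,
    ENNReal.ofReal_le_ofReal_iff (mul_nonneg hB (integral_nonneg fun x => abs_nonneg _))] at main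
  exact main

theorem cor {P : E3 → ℝ} {B : ℝ} (hP : Continuous P) (hB : 0 ≤ B) (h : AV P B) : FB P B := by
  intro f hf hfc hf1 hf0
  refine (cor0 hP hB h hf hfc hf1 hf0).trans (mul_le_mul_of_nonneg_left ?_ hB)
  have hgs : HasCompactSupport (pd 2 f) := by
    have h2 : HasCompactSupport (fun x => fderiv ℝ f x (e 2)) := hfc.fderiv_apply ℝ (e 2)
    exact h2
  have hgi : Integrable (fun x => |pd 2 f x|) := by
    have h3 : Integrable (pd 2 f) := (pd_cont hf 2).integrable_of_hasCompactSupport hgs
    exact h3.abs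
  have hpds : ∀ i, HasCompactSupport (pd i f) := by
    intro i
    have h2 : HasCompactSupport (fun x => fderiv ℝ f x (e i)) := hfc.fderiv_apply ℝ (e i)
    exact h2
  have hsi : Integrable fun x => √(gsq f x) := by
    refine Continuous.integrable_of_hasCompactSupport ?_ ?_
    · refine Continuous.sqrt ?_
      unfold gsq
      exact continuous_finsetSum _ fun i _ => (pd_cont hf i).pow 2
    · refine HasCompactSupport.intro (isCompact_closedBall (0 : E3) 1) fun x hx => ?_
      have h0 : ∀ i, pd i f x = 0 := by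
        intro i
        have hx1 : (1 : ℝ) < ‖x‖ := by
          rw [mem_closedBall_zero_iff, not_le] at hx
          exact hx
        have hev : ∀ᶠ y in 𝓝 x, f y = 0 := by
          have : ∀ᶠ y : E3 in 𝓝 x, (1 : ℝ) < ‖y‖ := continuous_norm.continuousAt.eventually (lt_mem_nhds hx1)
          filter_upwards [this] with y hy
          exact hf1 y hy.le
        have : f =ᶠ[𝓝 x] fun _ => 0 := hev
        unfold pd
        rw [this.fderiv_eq]
        simp
      simp [gsq, h0]
  refine integral_mono hgi hsi fun x => ?_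
  refine Real.abs_le_sqrt ?_
  unfold gsq
  exact Finset.single_le_sum (f := fun i => pd i f x ^ 2) (fun i _ => sq_nonneg _) (Finset.mem_univ 2)

end Pool.Agent.H90.AX
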