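import Pool.Agent.H90.AX.Defs

/-! The flux of the axial velocity through horizontal discs, and the condition on one scale. -/

set_option autoImplicit false

open Set Filter Topology MeasureTheory
open scoped ContDiff

namespace Pool.Agent.H90.AX

open Pool.Agent.H16 Pool.Agent.H87.NS Pool.Agent.H72.CC

/-- The point `(s, 0, z)`. -/
noncomputable def hpt (s z : ℝ) : E3 := !₂[s, 0, z]

/-- The flux of `v` through the horizontal disc of radius `r` about the axis at height `z`, divided by `2π`. -/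
noncomputable def flx (v : E3 → E3) (r z : ℝ) : ℝ := ∫ s in (0:ℝ)..r, s * v (hpt s z) 2

/-- The scale `a` at the point `z` of the axis, before the time `t`, satisfies the condition with the constant `K`. -/
def Good (t₀ : ℝ) (u : ℝ → E3 → E3) (t z a K : ℝ) : Prop :=
  ∃ m : ℝ → ℝ, ContinuousOn m (Icc (t - a ^ 2) t) ∧ (∀ s, 0 ≤ m s) ∧
    (∀ s ∈ Icc (t - a ^ 2) t, t₀ < s → ∀ r ∈ Ioc 0 a, ∫ y in (z - a)..(z + a), flx (u s) r y ^ 2 ≤ m s * a * r ^ 2) ∧
    ∫ s in (t - a ^ 2)..t, m s ^ 5 ≤ K ^ 5 * a ^ 2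

end Pool.Agent.H90.AX
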