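/-
The drift term in the mass supply argument, with the form bound FB.
-/
import Pool.Agent.H72.CC.LoA
import Pool.Agent.H90.AX.Defs

set_option autoImplicit false

open Set Filter Topology MeasureTheory
open scoped ContDiff

namespace Pool.Agent.H90.AX

open Pool.Agent.H16 Pool.Agent.H87.NS Pool.Agent.H72.CC

/-- the test function -/
noncomputable def InA_f (G : E3 → ℝ) (x : E3) : ℝ := (1 - G x) ^ (3/2 : ℝ) * (et x ^ 2) ^ 2

theorem InA_et0 {x : E3} (hx : 3/4 ≤ ‖x‖) : et x = 0 := zc_zero (by norm_num) (by norm_num) hx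

theorem InA_ev {x : E3} (hx : 3/4 < ‖x‖) : ∀ᶠ y in 𝓝 x, et y = 0 := by
  have : ∀ᶠ y : E3 in 𝓝 x, (3/4 : ℝ) < ‖y‖ := continuous_norm.continuousAt.eventually (lt_mem_nhds hx)
  filter_upwards [this] with y hy
  exact InA_et0 hy.le

theorem InA_f_cd {G : E3 → ℝ} (hG : ContDiff ℝ ∞ G) (hG1 : ∀ x ∈ Metric.closedBall (0 : E3) (3/4), |G x| < 1) :
    ContDiff ℝ 1 (InA_f G) := by
  rw [contDiff_iff_contDiffAt]
  intro x
  rcases le_or_gt ‖x‖ (3/4) with h | h
  · have h1 := abs_lt.1 (hG1 x (by simpa using h))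
    have h2 : (1 - G x) ≠ 0 := by linarith [h1.2]
    have h3 : ContDiffAt ℝ 1 (fun y => 1 - G y) x :=
      (contDiff_const.sub hG).contDiffAt.of_le (by exact_mod_cast le_top)
    have h4 : ContDiffAt ℝ 1 (fun y => (et y ^ 2) ^ 2) x :=
      (((zc_smooth (1/2) (3/4)).pow 2).pow 2).contDiffAt.of_le (by exact_mod_cast le_top)
    exact (h3.rpow_const_of_ne h2).mul h4
  · have h1 : InA_f G =ᶠ[𝓝 x] fun _ => 0 := by
      filter_upwards [InA_ev h] with y hy
      unfold InA_f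
      rw [hy]
      simp
    exact contDiffAt_const.congr_of_eventuallyEq h1

theorem InA_f_zero {G : E3 → ℝ} {x : E3} (hx : 3/4 ≤ ‖x‖) : InA_f G x = 0 := by
  unfold InA_f
  rw [InA_et0 hx]
  simp

theorem InA_f_nn {G : E3 → ℝ} (hG1 : ∀ x ∈ Metric.closedBall (0 : E3) (3/4), |G x| < 1) (x : E3) : 0 ≤ InA_f G x := by
  rcases le_or_gt ‖x‖ (3/4) with h | h
  · have h1 := abs_lt.1 (hG1 x (by simpa using h))
    exact mul_nonneg (Real.rpow_nonneg (by linarith [h1.2]) _) (by positivity)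
  · rw [InA_f_zero h.le]

theorem InA_pd {G : E3 → ℝ} (hG : ContDiff ℝ ∞ G) {x : E3} (hx : 0 < 1 - G x) (i : Fin 3) :
    pd i (InA_f G) x = -(3/2 * (1 - G x) ^ (1/2 : ℝ) * (et x ^ 2) ^ 2) * pd i G x +
      2 * (1 - G x) ^ (3/2 : ℝ) * et x ^ 2 * pd i (fun y => et y ^ 2) x := by
  have d1 : HasFDerivAt (fun y => 1 - G y) (-(fderiv ℝ G x)) x := by
    have := ((hG.differentiable (by simp)) x).hasFDerivAt.const_sub 1
    exact this
  have d2 := d1.rpow_const (p := (3/2 : ℝ)) (Or.inl hx.ne')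
  have d3 : HasFDerivAt (fun y => et y ^ 2) (fderiv ℝ (fun y => et y ^ 2) x) x :=
    ((((zc_smooth (1/2) (3/4)).pow 2).differentiable (by simp)) x).hasFDerivAt
  have d4 : HasFDerivAt (fun y => (1 - G y) ^ (3/2 : ℝ) * (et y ^ 2) ^ 2) _ x := d2.mul (d3.pow 2)
  have e : InA_f G = fun y => (1 - G y) ^ (3/2 : ℝ) * (et y ^ 2) ^ 2 := rfl
  unfold pd
  rw [e, d4.fderiv]
  simp only [_root_.add_apply, _root_.smul_apply, smul_eq_mul, _root_.neg_apply]
  rw [show (3/2 - 1 : ℝ) = 1/2 by norm_num]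
  simp only [nsmul_eq_mul, Nat.cast_ofNat, pow_one, Nat.add_one_sub_one]
  ring

theorem InA_gsq {C : ℝ} (H : LoA_H C) {G : E3 → ℝ} (hG : ContDiff ℝ ∞ G)
    (hG1 : ∀ x ∈ Metric.closedBall (0 : E3) (3/4), |G x| < 1) {l : ℝ} (hl : 0 < l) (x : E3) :
    √(gsq (InA_f G) x) ≤ l / 2 * ((1 - G x) ^ (-(3/2) : ℝ) * gsq G x * et x ^ 2) +
      (14 + 16 * C) * (1 + 1 / l) * ((1 - G x) * et x ^ 2) := by
  have hC := H.pos
  rcases le_or_gt ‖x‖ (3/4) with h | h
  · have h1 := abs_lt.1 (hG1 x (by simpa using h))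
    obtain ⟨h, hh⟩ : ∃ h : ℝ, h = 1 - G x := ⟨_, rfl⟩
    have h0 : 0 < h := by linarith [h1.2]
    have h2 : h ≤ 2 := by linarith [h1.1]
    obtain ⟨w, hw⟩ : ∃ w : ℝ, w = et x ^ 2 := ⟨_, rfl⟩
    have hw0 : 0 ≤ w := by rw [hw]; positivity
    have hw1 : w ≤ 1 := by
      rw [hw]
      exact pow_le_one₀ (zc_nonneg _ _ x) (zc_le _ _ x)
    obtain ⟨g, hg⟩ : ∃ g : ℝ, g = gsq G x := ⟨_, rfl⟩
    have hg0 : 0 ≤ g := by rw [hg]; exact gsq_nonneg G x
    obtain ⟨V, hV⟩ : ∃ V : ℝ, V = gsq (fun y => et y ^ 2) x := ⟨_, rfl⟩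
    have hV0 : 0 ≤ V := by rw [hV]; exact gsq_nonneg _ x
    have hV1 : V ≤ C * w := by rw [hV, hw]; exact H.g x
    obtain ⟨r, hr⟩ : ∃ r : ℝ, r = h ^ (3/2 : ℝ) := ⟨_, rfl⟩
    have hr0 : 0 < r := by rw [hr]; exact Real.rpow_pos_of_pos h0 _
    have hr2 : r ^ 2 = h ^ 3 := by
      rw [hr, ← Real.rpow_natCast, ← Real.rpow_mul h0.le, ← Real.rpow_natCast]
      norm_num
    have hr3 : r ≤ 3 := by
      have h3 : h ^ 3 ≤ 8 := by
        have := pow_le_pow_left₀ h0.le h2 3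
        norm_num at this
        exact this
      nlinarith only [hr0, hr2, h3]
    obtain ⟨s, hs⟩ : ∃ s : ℝ, s = h ^ (1/2 : ℝ) := ⟨_, rfl⟩
    have hs2 : s ^ 2 = h := by
      rw [hs, ← Real.rpow_natCast, ← Real.rpow_mul h0.le]
      norm_num
    obtain ⟨X, hX⟩ : ∃ X : ℝ, X = h ^ (-(3/2) : ℝ) * g * w := ⟨_, rfl⟩
    have hX0 : 0 ≤ X := by
      rw [hX]
      exact mul_nonneg (mul_nonneg (Real.rpow_nonneg h0.le _) hg0) hw0
    have hXr : r * X = g * w := by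
      rw [hX, hr]
      have : h ^ (3/2 : ℝ) * h ^ (-(3/2) : ℝ) = 1 := by
        rw [← Real.rpow_add h0]
        norm_num
      calc h ^ (3/2 : ℝ) * (h ^ (-(3/2) : ℝ) * g * w) = (h ^ (3/2 : ℝ) * h ^ (-(3/2) : ℝ)) * (g * w) := by ring
        _ = g * w := by rw [this, one_mul]
    obtain ⟨Y, hY⟩ : ∃ Y : ℝ, Y = h * w := ⟨_, rfl⟩
    have hY0 : 0 ≤ Y := by rw [hY]; positivity
    have key : gsq (InA_f G) x ≤ 14 * (X * Y) + 16 * C * Y ^ 2 := by
      have e1 : gsq (InA_f G) x = ∑ i, (-(3/2 * s * w ^ 2) * pd i G x + 2 * r * w * pd i (fun y => et y ^ 2) x) ^ 2 := by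
        have : gsq (InA_f G) x = ∑ i, pd i (InA_f G) x ^ 2 := rfl
        rw [this]
        refine Finset.sum_congr rfl fun i _ => ?_
        rw [InA_pd hG (by rw [← hh]; exact h0), ← hh, ← hs, ← hr, ← hw]
      have e2 : gsq (InA_f G) x ≤ 2 * (3/2 * s * w ^ 2) ^ 2 * g + 2 * (2 * r * w) ^ 2 * V := by
        rw [e1, hg, hV]
        unfold gsq
        rw [Finset.mul_sum, Finset.mul_sum, ← Finset.sum_add_distrib]
        refine Finset.sum_le_sum fun i _ => ?_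
        linarith only [sq_nonneg (-(3/2 * s * w ^ 2) * pd i G x - 2 * r * w * pd i (fun y => et y ^ 2) x)]
      have e3 : 2 * (3/2 * s * w ^ 2) ^ 2 * g = 9 / 2 * (w ^ 2 * r) * (X * Y) := by
        have : 2 * (3/2 * s * w ^ 2) ^ 2 * g = 9/2 * s ^ 2 * w ^ 3 * (g * w) := by ring
        rw [this, hs2, ← hXr, hY]
        ring
      have e4 : w ^ 2 * r ≤ 3 := by
        have : w ^ 2 ≤ 1 := pow_le_one₀ hw0 hw1
        nlinarith only [hr3, this]
      have e5 : 9 / 2 * (w ^ 2 * r) * (X * Y) ≤ 14 * (X * Y) := by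
        refine mul_le_mul_of_nonneg_right ?_ (mul_nonneg hX0 hY0)
        linarith only [e4]
      have e6 : 2 * (2 * r * w) ^ 2 * V ≤ 16 * C * Y ^ 2 := by
        have a1 : 2 * (2 * r * w) ^ 2 * V ≤ 2 * (2 * r * w) ^ 2 * (C * w) :=
          mul_le_mul_of_nonneg_left hV1 (by positivity)
        have a2 : 2 * (2 * r * w) ^ 2 * (C * w) = 8 * C * (h * w) * Y ^ 2 := by
          have : 2 * (2 * r * w) ^ 2 * (C * w) = 8 * r ^ 2 * w ^ 3 * C := by ring
          rw [this, hr2, hY]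
          ring
        have a3 : h * w ≤ 2 := by nlinarith
        have a4 : 8 * C * (h * w) * Y ^ 2 ≤ 8 * C * 2 * Y ^ 2 := by gcongr
        linarith
      linarith
    rw [← hh, ← hg, ← hw, ← hX, ← hY]
    have hK : 0 ≤ (14 + 16 * C) * (1 + 1 / l) := by positivity
    refine Real.sqrt_le_iff.2 ⟨by positivity, key.trans ?_⟩
    have b1 : (l / 2 * X + (14 + 16 * C) * (1 + 1 / l) * Y) ^ 2 =
        l ^ 2 / 4 * X ^ 2 + (14 + 16 * C) * (l + 1) * (X * Y) + ((14 + 16 * C) * (1 + 1 / l)) ^ 2 * Y ^ 2 := by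
      field_simp
      ring
    rw [b1]
    have b2 : 14 * (X * Y) ≤ (14 + 16 * C) * (l + 1) * (X * Y) := by
      refine mul_le_mul_of_nonneg_right ?_ (mul_nonneg hX0 hY0)
      have : 0 ≤ 14 * l + 16 * C * (l + 1) := by positivity
      linarith
    have b3 : 16 * C * Y ^ 2 ≤ ((14 + 16 * C) * (1 + 1 / l)) ^ 2 * Y ^ 2 := by
      refine mul_le_mul_of_nonneg_right ?_ (sq_nonneg _)
      have c1 : 14 + 16 * C ≤ (14 + 16 * C) * (1 + 1 / l) := by
        have : 0 ≤ (14 + 16 * C) * (1 / l) := by positivity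
        linarith only [this]
      have c2 : (14 + 16 * C) * 1 ≤ (14 + 16 * C) ^ 2 := by
        rw [pow_two]
        exact mul_le_mul_of_nonneg_left (by linarith) (by positivity)
      have c3 : (14 + 16 * C) ^ 2 ≤ ((14 + 16 * C) * (1 + 1 / l)) ^ 2 := pow_le_pow_left₀ (by positivity) c1 2
      linarith
    have b4 : 0 ≤ l ^ 2 / 4 * X ^ 2 := by positivity
    linarith only [b2, b3, b4]
  · have h1 : ∀ i, pd i (InA_f G) x = 0 := by
      intro i
      refine LevX_pd_zero ?_ i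
      filter_upwards [InA_ev h] with y hy
      unfold InA_f
      rw [hy]
      simp
    have h2 : gsq (InA_f G) x = 0 := by
      have : gsq (InA_f G) x = ∑ i, pd i (InA_f G) x ^ 2 := rfl
      rw [this]
      simp [h1]
    rw [h2, InA_et0 h.le]
    simp

theorem InA_int {B : Set E3} (hB : IsCompact B) {f : E3 → ℝ} (hf : ContinuousOn f B)
    (h0 : ∀ x, x ∉ B → f x = 0) : Integrable f := by
  refine (integrableOn_iff_integrable_of_support_subset ?_).1 (hf.integrableOn_compact hB)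
  intro x hx
  by_contra h
  exact hx (h0 x h)

theorem InA_gsq_cont {f : E3 → ℝ} (hf : ContDiff ℝ 1 f) : Continuous (gsq f) := by
  have h : gsq f = fun x => ∑ i, pd i f x ^ 2 := by funext x; rfl
  rw [h]
  exact continuous_finsetSum _ fun i _ => ((pd_cont hf i).pow 2)

/-- the pointwise bound of the drift term -/
theorem InA_pt {C : ℝ} (hC : 0 < C)
    (hz : ∀ x : E3, gsq (fun y => zc (1/4) (1/2) y ^ 2) x ≤ C * zc (1/4) (1/2) x ^ 2)
    {G P : E3 → ℝ} (hG1 : ∀ x ∈ Metric.closedBall (0 : E3) (3/4), |G x| < 1) {l : ℝ} (hl : 0 < l) (x : E3) :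
    |P x * crs G (fun y => zc (1/4) (1/2) y ^ 2) x| ≤
      (1 + C) * (l / 2 * ((1 - G x) ^ (-(3/2) : ℝ) * gsq G x * et x ^ 2) +
        1 / (2 * l) * (rsq x * P x ^ 2 * InA_f G x)) := by
  have hf0 := InA_f_nn hG1 x
  have hr0 := LoA_rsq_nonneg x
  have hg0 := gsq_nonneg G x
  have hc := LoA_crs G (fun y => zc (1/4) (1/2) y ^ 2) x
  have hX0 : 0 ≤ (1 - G x) ^ (-(3/2) : ℝ) * gsq G x * et x ^ 2 := by
    rcases le_or_gt ‖x‖ (3/4) with h | h
    · have h1 := abs_lt.1 (hG1 x (by simpa using h))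
      exact mul_nonneg (mul_nonneg (Real.rpow_nonneg (by linarith [h1.2]) _) hg0) (sq_nonneg _)
    · rw [InA_et0 h.le]
      simp
  rcases le_or_gt ‖x‖ (1/2) with h | h
  · have het : et x = 1 := zc_one (by norm_num) (by norm_num) h
    have h1 := abs_lt.1 (hG1 x (by simpa using (by linarith : ‖x‖ ≤ 3/4)))
    have h0 : 0 < 1 - G x := by linarith [h1.2]
    have hz1 : gsq (fun y => zc (1/4) (1/2) y ^ 2) x ≤ C := by
      refine (hz x).trans ?_
      have h4 : zc (1/4) (1/2) x ^ 2 ≤ 1 := pow_le_one₀ (zc_nonneg _ _ x) (zc_le _ _ x)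
      nlinarith only [hC, h4]
    obtain ⟨X, hX⟩ : ∃ X : ℝ, X = (1 - G x) ^ (-(3/2) : ℝ) * gsq G x * et x ^ 2 := ⟨_, rfl⟩
    obtain ⟨Y, hY⟩ : ∃ Y : ℝ, Y = rsq x * P x ^ 2 * InA_f G x := ⟨_, rfl⟩
    have hY0 : 0 ≤ Y := by rw [hY]; positivity
    have hXY : X * Y = P x ^ 2 * (rsq x * gsq G x) := by
      rw [hX, hY]
      unfold InA_f
      rw [het]
      have : (1 - G x) ^ (-(3/2) : ℝ) * (1 - G x) ^ (3/2 : ℝ) = 1 := by
        rw [← Real.rpow_add h0]
        norm_num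
      calc (1 - G x) ^ (-(3/2) : ℝ) * gsq G x * 1 ^ 2 * (rsq x * P x ^ 2 * ((1 - G x) ^ (3/2 : ℝ) * (1 ^ 2) ^ 2))
          = ((1 - G x) ^ (-(3/2) : ℝ) * (1 - G x) ^ (3/2 : ℝ)) * (P x ^ 2 * (rsq x * gsq G x)) := by ring
        _ = _ := by rw [this, one_mul]
    rw [← hX] at hX0 ⊢
    rw [← hY]
    refine abs_le_of_sq_le_sq ?_ (by positivity)
    have e1 : (P x * crs G (fun y => zc (1/4) (1/2) y ^ 2) x) ^ 2 ≤ C * (X * Y) := by
      have a1 : (P x * crs G (fun y => zc (1/4) (1/2) y ^ 2) x) ^ 2 =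
          P x ^ 2 * crs G (fun y => zc (1/4) (1/2) y ^ 2) x ^ 2 := by ring
      have a2 : rsq x * gsq G x * gsq (fun y => zc (1/4) (1/2) y ^ 2) x ≤ rsq x * gsq G x * C :=
        mul_le_mul_of_nonneg_left hz1 (mul_nonneg hr0 hg0)
      have a3 := mul_le_mul_of_nonneg_left (hc.trans a2) (sq_nonneg (P x))
      rw [a1, hXY]
      linarith only [a3]
    have e2 : ((1 + C) * (l / 2 * X + 1 / (2 * l) * Y)) ^ 2 =
        (1 + C) ^ 2 * (X * Y + (l / 2 * X - 1 / (2 * l) * Y) ^ 2) := by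
      field_simp
      ring
    rw [e2]
    have e3 : C * (X * Y) ≤ (1 + C) ^ 2 * (X * Y) := by
      refine mul_le_mul_of_nonneg_right ?_ (mul_nonneg hX0 hY0)
      nlinarith only [hC]
    have e4 : 0 ≤ (1 + C) ^ 2 * (l / 2 * X - 1 / (2 * l) * Y) ^ 2 := by positivity
    linarith
  · have h1 : gsq (fun y => zc (1/4) (1/2) y ^ 2) x ≤ 0 := by
      refine (hz x).trans ?_
      rw [zc_zero (by norm_num) (by norm_num) h.le]
      simp
    have h2 : crs G (fun y => zc (1/4) (1/2) y ^ 2) x ^ 2 ≤ 0 :=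
      hc.trans (mul_nonpos_of_nonneg_of_nonpos (mul_nonneg hr0 hg0) h1)
    have h3 : crs G (fun y => zc (1/4) (1/2) y ^ 2) x = 0 := by
      have := le_antisymm h2 (sq_nonneg _)
      exact pow_eq_zero_iff two_ne_zero |>.1 this
    rw [h3, mul_zero, abs_zero]
    have h4 : 0 ≤ rsq x * P x ^ 2 * InA_f G x := by positivity
    positivity

theorem inA : ∃ C : ℝ, 0 < C ∧ ∀ (G P : E3 → ℝ) (B : ℝ), ContDiff ℝ ∞ G → Continuous P → 0 ≤ B → FB P B →
    (∀ x ∈ Metric.closedBall (0 : E3) (3/4), |G x| < 1) → ∀ l : ℝ, 0 < l → l ≤ 1 →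
    |∫ x, P x * crs G (fun y => zc (1/4) (1/2) y ^ 2) x| ≤
      C * (l * (∫ x, (1 - G x) ^ (-(3/2) : ℝ) * gsq G x * et x ^ 2) +
        (1 + B) ^ 2 / l ^ 3 * ∫ x, (1 - G x) * et x ^ 2) := by
  obtain ⟨C0, H⟩ := LoA_et
  have hC0 := H.pos
  obtain ⟨C1, hC1, hz⟩ := zc_pow 2 le_rfl
  have hK1 : 0 < C1 / (1/2 - 1/4) ^ 2 := by positivity
  obtain ⟨K1, hK1d⟩ : ∃ K1 : ℝ, K1 = C1 / (1/2 - 1/4) ^ 2 := ⟨_, rfl⟩
  have hK10 : 0 < K1 := by rw [hK1d]; exact hK1
  have hz' : ∀ x : E3, gsq (fun y => zc (1/4) (1/2) y ^ 2) x ≤ K1 * zc (1/4) (1/2) x ^ 2 := by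
    intro x
    have h := (hz (1/4) (1/2) (by norm_num) (by norm_num) (by norm_num) x).2.1
    rw [hK1d]
    exact h
  obtain ⟨K, hK⟩ : ∃ K : ℝ, K = 14 + 16 * C0 := ⟨_, rfl⟩
  have hK0 : 0 < K := by rw [hK]; positivity
  refine ⟨(1 + K1) * (1 + K), by positivity, ?_⟩
  intro G P B hG hP hB hFB hG1 l hl hl1
  have hGc : ContDiff ℝ 1 G := hG.of_le (by exact_mod_cast le_top)
  have hD : IsCompact (Metric.closedBall (0 : E3) (3/4)) := isCompact_closedBall _ _
  have hh : ∀ x ∈ Metric.closedBall (0 : E3) (3/4), 0 < 1 - G x := by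
    intro x hx
    have := abs_lt.1 (hG1 x hx)
    linarith [this.2]
  have het0 : ∀ x, x ∉ Metric.closedBall (0 : E3) (3/4) → et x = 0 := by
    intro x hx
    refine InA_et0 ?_
    simp only [Metric.mem_closedBall, dist_zero_right, not_le] at hx
    exact hx.le
  have hetc : Continuous et := (zc_smooth (1/2) (3/4)).continuous
  have hGcont : Continuous fun x => 1 - G x := continuous_const.sub hG.continuous
  -- integrability
  have i1 : Integrable (fun x => (1 - G x) ^ (-(3/2) : ℝ) * gsq G x * et x ^ 2) := by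
    refine InA_int hD ?_ ?_
    · exact ((hGcont.continuousOn.rpow_const fun x hx => Or.inl (hh x hx).ne').mul
        (InA_gsq_cont hGc).continuousOn).mul (hetc.pow 2).continuousOn
    · intro x hx
      rw [het0 x hx]; simp
  have i2 : Integrable (fun x => (1 - G x) * et x ^ 2) := by
    refine InA_int hD (hGcont.mul (hetc.pow 2)).continuousOn ?_
    intro x hx
    rw [het0 x hx]; simp
  have hfcd := InA_f_cd hG hG1
  have hfcs : HasCompactSupport (InA_f G) := by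
    refine HasCompactSupport.intro hD fun x hx => ?_
    unfold InA_f
    rw [het0 x hx]
    simp
  have i3 : Integrable (fun x => rsq x * P x ^ 2 * InA_f G x) :=
    ((LevX_rsq_cd.continuous.mul (hP.pow 2)).mul hfcd.continuous).integrable_of_hasCompactSupport hfcs.mul_left
  have i4 : Integrable (fun x => √(gsq (InA_f G) x)) := by
    refine (InA_gsq_cont hfcd).sqrt.integrable_of_hasCompactSupport ?_
    refine HasCompactSupport.intro hD fun x hx => ?_
    have hx' : 3/4 < ‖x‖ := by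
      simpa [Metric.mem_closedBall, dist_zero_right, not_le] using hx
    have h1 : ∀ i, pd i (InA_f G) x = 0 := by
      intro i
      refine LevX_pd_zero ?_ i
      filter_upwards [InA_ev hx'] with y hy
      unfold InA_f
      rw [hy]
      simp
    have h2 : gsq (InA_f G) x = 0 := by
      have : gsq (InA_f G) x = ∑ i, pd i (InA_f G) x ^ 2 := rfl
      rw [this]
      simp [h1]
    rw [h2, Real.sqrt_zero]
  obtain ⟨D, hDd⟩ : ∃ D : ℝ, D = ∫ x, (1 - G x) ^ (-(3/2) : ℝ) * gsq G x * et x ^ 2 := ⟨_, rfl⟩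
  obtain ⟨J, hJd⟩ : ∃ J : ℝ, J = ∫ x, (1 - G x) * et x ^ 2 := ⟨_, rfl⟩
  obtain ⟨I3, hI3⟩ : ∃ I3 : ℝ, I3 = ∫ x, rsq x * P x ^ 2 * InA_f G x := ⟨_, rfl⟩
  have hD0 : 0 ≤ D := by
    rw [hDd]
    refine integral_nonneg fun x => ?_
    by_cases hx : x ∈ Metric.closedBall (0 : E3) (3/4)
    · exact mul_nonneg (mul_nonneg (Real.rpow_nonneg (hh x hx).le _) (gsq_nonneg G x)) (sq_nonneg _)
    · simp [het0 x hx]
  have hJ0 : 0 ≤ J := by
    rw [hJd]
    refine integral_nonneg fun x => ?_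
    by_cases hx : x ∈ Metric.closedBall (0 : E3) (3/4)
    · exact mul_nonneg (hh x hx).le (sq_nonneg _)
    · simp [het0 x hx]
  have s1 : |∫ x, P x * crs G (fun y => zc (1/4) (1/2) y ^ 2) x| ≤ (1 + K1) * (l / 2 * D + 1 / (2 * l) * I3) := by
    have e1 : (1 + K1) * (l / 2 * D + 1 / (2 * l) * I3) =
        ∫ x, (1 + K1) * (l / 2 * ((1 - G x) ^ (-(3/2) : ℝ) * gsq G x * et x ^ 2) +
          1 / (2 * l) * (rsq x * P x ^ 2 * InA_f G x)) := by
      rw [integral_const_mul, integral_add (i1.const_mul _) (i3.const_mul _), integral_const_mul, integral_const_mul,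
        ← hDd, ← hI3]
    rw [e1, ← Real.norm_eq_abs]
    refine norm_integral_le_of_norm_le (((i1.const_mul _).add (i3.const_mul _)).const_mul _) ?_
    refine Eventually.of_forall fun x => ?_
    rw [Real.norm_eq_abs]
    exact InA_pt hK10 hz' hG1 hl x
  have hB1 : 0 < 1 + B := by linarith
  have hl' : 0 < l ^ 2 / (1 + B) := by positivity
  have s2 : I3 ≤ B * (l ^ 2 / (1 + B) / 2 * D + K * (1 + 1 / (l ^ 2 / (1 + B))) * J) := by
    rw [hI3]
    refine (hFB (InA_f G) hfcd hfcs (fun x hx => InA_f_zero (by linarith)) (InA_f_nn hG1)).trans ?_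
    refine mul_le_mul_of_nonneg_left ?_ hB
    rw [hDd, hJd, ← integral_const_mul, ← integral_const_mul, ← integral_add (i1.const_mul _) (i2.const_mul _)]
    refine integral_mono i4 ((i1.const_mul _).add (i2.const_mul _)) fun x => ?_
    simp only []
    rw [hK]
    exact InA_gsq H hG hG1 hl' x
  rw [← hDd, ← hJd]
  have s3 : 1 / (2 * l) * I3 ≤ l / 2 * D + K * ((1 + B) ^ 2 / l ^ 3) * J := by
    have a1 : 1 / (2 * l) * I3 ≤ 1 / (2 * l) * (B * (l ^ 2 / (1 + B) / 2 * D + K * (1 + 1 / (l ^ 2 / (1 + B))) * J)) :=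
      mul_le_mul_of_nonneg_left s2 (by positivity)
    refine a1.trans ?_
    have a2 : 1 / (2 * l) * (B * (l ^ 2 / (1 + B) / 2 * D + K * (1 + 1 / (l ^ 2 / (1 + B))) * J)) =
        (B / (1 + B)) * (l / 4 * D) + K * (B * (l ^ 2 + (1 + B)) / (2 * l ^ 3)) * J := by
      field_simp
      ring
    rw [a2]
    have a3 : B / (1 + B) ≤ 1 := by
      rw [div_le_one hB1]
      linarith
    have a4 : (B / (1 + B)) * (l / 4 * D) ≤ 1 * (l / 4 * D) := mul_le_mul_of_nonneg_right a3 (by positivity)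
    have a5 : B * (l ^ 2 + (1 + B)) / (2 * l ^ 3) ≤ (1 + B) ^ 2 / l ^ 3 := by
      rw [div_le_div_iff₀ (by positivity) (by positivity)]
      have : l ^ 2 ≤ 1 := pow_le_one₀ hl.le hl1
      have b1 : B * (l ^ 2 + (1 + B)) ≤ 2 * (1 + B) ^ 2 := by nlinarith only [hB, this]
      have b2 : 0 < l ^ 3 := by positivity
      nlinarith only [b1, b2]
    have a6 : K * (B * (l ^ 2 + (1 + B)) / (2 * l ^ 3)) * J ≤ K * ((1 + B) ^ 2 / l ^ 3) * J :=
      mul_le_mul_of_nonneg_right (mul_le_mul_of_nonneg_left a5 hK0.le) hJ0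
    have a7 : 0 ≤ l * D := by positivity
    linarith only [a4, a6, a7]
  have s4 : 0 ≤ (1 + B) ^ 2 / l ^ 3 * J := by positivity
  have s5 : l / 2 * D + 1 / (2 * l) * I3 ≤ (1 + K) * (l * D + (1 + B) ^ 2 / l ^ 3 * J) := by
    have : 0 ≤ K * (l * D) := by positivity
    linarith only [s3, s4, this]
  calc _ ≤ (1 + K1) * (l / 2 * D + 1 / (2 * l) * I3) := s1
    _ ≤ (1 + K1) * ((1 + K) * (l * D + (1 + B) ^ 2 / l ^ 3 * J)) := mul_le_mul_of_nonneg_left s5 (by positivity)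
    _ = _ := by ring

end Pool.Agent.H90.AX
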