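/-
The energy inequalities of H72/CC/LoA.lean with the form bound FB in place of the fourth power integral.
-/
import Pool.Agent.H72.CC.LoA
import Pool.Agent.H90.AX.Defs

set_option autoImplicit false

open Set Filter Topology MeasureTheory
open scoped ContDiff

namespace Pool.Agent.H90.AX

open Pool.Agent.H16 Pool.Agent.H87.NS Pool.Agent.H72.CC

/-- the dominating function -/
noncomputable def LoA_D (P : E3 → ℝ) (x : E3) : ℝ := (1 + rsq x * P x ^ 2) * zc (3/4) (7/8) x

theorem LoA_D_nonneg (P : E3 → ℝ) (x : E3) : 0 ≤ LoA_D P x := by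
  unfold LoA_D
  have h1 := LoA_rsq_nonneg x
  have h2 := zc_nonneg (3/4) (7/8) x
  positivity

theorem LoA_D_le {P : E3 → ℝ} {x : E3} (hx : x ∈ Metric.closedBall (0 : E3) (3/4)) :
    1 + rsq x * P x ^ 2 ≤ LoA_D P x := by
  unfold LoA_D
  rw [zc_one (by norm_num) (by norm_num) (by simpa using hx), mul_one]

theorem LoA_zc_cs : HasCompactSupport (zc (3/4) (7/8)) := by
  have h := (zc_supp (a := 3/4) (b := 7/8) (by norm_num) (by norm_num) (n := 1) one_ne_zero).1
  have e : (fun x => zc (3/4) (7/8) x ^ 1) = zc (3/4) (7/8) := by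
    funext x
    exact pow_one _
  rwa [e] at h

theorem LoA_D_int : ∃ K : ℝ, 0 < K ∧ ∀ (P : E3 → ℝ) (B : ℝ), Continuous P → 0 ≤ B → FB P B →
    Integrable (LoA_D P) ∧ ∫ x, LoA_D P x ≤ K * (1 + B) := by
  have hz := zc_smooth (3/4) (7/8)
  have hcs := LoA_zc_cs
  have hi1 : Integrable (zc (3/4) (7/8)) := hz.continuous.integrable_of_hasCompactSupport hcs
  have n1 : 0 ≤ ∫ x, zc (3/4) (7/8) x := integral_nonneg fun x => zc_nonneg _ _ x
  have n2 : 0 ≤ ∫ x, √(gsq (zc (3/4) (7/8)) x) := integral_nonneg fun x => Real.sqrt_nonneg _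
  refine ⟨1 + (∫ x, zc (3/4) (7/8) x) + ∫ x, √(gsq (zc (3/4) (7/8)) x), by positivity, ?_⟩
  intro P B hP hB hFB
  have hi2 : Integrable (fun x => rsq x * P x ^ 2 * zc (3/4) (7/8) x) :=
    ((LevX_rsq_cd.continuous.mul (hP.pow 2)).mul hz.continuous).integrable_of_hasCompactSupport hcs.mul_left
  have e : LoA_D P = fun x => zc (3/4) (7/8) x + rsq x * P x ^ 2 * zc (3/4) (7/8) x := by
    funext x
    unfold LoA_D
    ring
  have hz0 : ∀ x : E3, 1 ≤ ‖x‖ → zc (3/4) (7/8) x = 0 := fun x hx =>
    zc_zero (by norm_num) (by norm_num) (by linarith)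
  have h := hFB (zc (3/4) (7/8)) (hz.of_le (by exact_mod_cast le_top)) hcs hz0 (fun x => zc_nonneg _ _ x)
  rw [e]
  refine ⟨hi1.add hi2, ?_⟩
  rw [integral_add hi1 hi2]
  linarith only [mul_nonneg n1 hB, mul_nonneg n2 hB, n1, n2, hB, h]

theorem loA : ∃ C : ℝ, 0 < C ∧ ∀ (F : ℝ → ℝ) (G P : E3 → ℝ) (B : ℝ), ContDiff ℝ ∞ F → ContDiff ℝ ∞ G → Continuous P →
    0 ≤ B → FB P B →
    (∀ x ∈ Metric.closedBall (0 : E3) (3/4), 0 ≤ F (G x) ∧ deriv F (G x) ^ 2 ≤ deriv (deriv F) (G x)) →
    En F G P (fun x => et x ^ 2) ≤ - (1/2) * (∫ x, gsq (fun y => F (G y)) x * et x ^ 2) + C * (1 + B) := by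
  obtain ⟨C, H⟩ := LoA_et
  obtain ⟨K, hK, hKI⟩ := LoA_D_int
  have hCp := H.pos
  refine ⟨C * K, by positivity, ?_⟩
  intro F G P B hF hG hP hB0 hFB hyp
  have hf : ContDiff ℝ ∞ (fun y => F (G y)) := hF.comp hG
  have hF1 : ContDiff ℝ ∞ (deriv F) := (contDiff_infty_iff_deriv.1 hF).2
  have hF2 : ContDiff ℝ ∞ (deriv (deriv F)) := (contDiff_infty_iff_deriv.1 hF1).2
  have hgsqf : ∀ x, gsq (fun y => F (G y)) x = deriv F (G x) ^ 2 * gsq G x := fun x =>
    comp_gsq (hG.of_le (by simp)) (hF.of_le (by simp)) x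
  have j1 : Integrable (fun x => (- deriv (deriv F) (G x) * gsq G x) * et x ^ 2) :=
    LoA_i1 H ((hF2.continuous.comp hG.continuous).neg.mul (LoA_gsq_cont hG))
  have j2 : Integrable (fun x => F (G x) * lap (fun x => et x ^ 2) x) := LoA_i2 H hf.continuous
  have j3 : Integrable (fun x => F (G x) * (2 / rsq x * rdr (fun x => et x ^ 2) x)) := LoA_i3 H hf.continuous
  have j4 : Integrable (fun x => (P x * deriv F (G x)) * crs G (fun x => et x ^ 2) x) :=
    LoA_i4 H (hP.mul (hF1.continuous.comp hG.continuous)) hG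
  have j5 : Integrable (fun x => ∑ i, pd i (fun y => F (G y)) x * pd i (fun x => et x ^ 2) x) :=
    integrable_finsetSum _ fun i _ => Ib_int (pd_smooth hf i) (pd_smooth H.sm i) (Ib_cs_pd H.cs i)
  have j6 : Integrable (fun x => gsq (fun y => F (G y)) x * et x ^ 2) := LoA_i1 H (LoA_gsq_cont hf)
  obtain ⟨j7, hB⟩ := hKI P B hP hB0 hFB
  have e2 : ∫ x, F (G x) * lap (fun x => et x ^ 2) x =
      - ∫ x, ∑ i, pd i (fun y => F (G y)) x * pd i (fun x => et x ^ 2) x := by
    have h := ib_lap hf H.sm H.cs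
    rw [← h.1, h.2]
  have j134 : Integrable (fun x => (- deriv (deriv F) (G x) * gsq G x) * et x ^ 2 +
      F (G x) * (2 / rsq x * rdr (fun x => et x ^ 2) x) + (P x * deriv F (G x)) * crs G (fun x => et x ^ 2) x) :=
    (j1.add j3).add j4
  have e1 : En F G P (fun x => et x ^ 2) =
      ∫ x, ((- deriv (deriv F) (G x) * gsq G x) * et x ^ 2 +
      F (G x) * (2 / rsq x * rdr (fun x => et x ^ 2) x) + (P x * deriv F (G x)) * crs G (fun x => et x ^ 2) x -
        ∑ i, pd i (fun y => F (G y)) x * pd i (fun x => et x ^ 2) x) := by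
    rw [integral_sub j134 j5, sub_eq_add_neg, ← e2, ← integral_add j134 j2]
    unfold En
    congr 1
    funext x
    ring
  have hmono : ∫ x, ((- deriv (deriv F) (G x) * gsq G x) * et x ^ 2 +
      F (G x) * (2 / rsq x * rdr (fun x => et x ^ 2) x) + (P x * deriv F (G x)) * crs G (fun x => et x ^ 2) x -
        ∑ i, pd i (fun y => F (G y)) x * pd i (fun x => et x ^ 2) x) ≤
      ∫ x, (-(1/2) * (gsq (fun y => F (G y)) x * et x ^ 2) + C * LoA_D P x) := by
    refine integral_mono (j134.sub j5) ((j6.const_mul _).add (j7.const_mul _)) fun x => ?_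
    simp only []
    by_cases hx : x ∈ Metric.closedBall (0 : E3) (3/4)
    · obtain ⟨hFx, hFx2⟩ := hyp x hx
      set u := gsq (fun y => F (G y)) x * et x ^ 2 with hu
      have hg0 := gsq_nonneg (fun y => F (G y)) x
      have hgG := gsq_nonneg G x
      have hu0 : 0 ≤ u := by positivity
      have hr0 := LoA_rsq_nonneg x
      have t1 : (- deriv (deriv F) (G x) * gsq G x) * et x ^ 2 ≤ - u := by
        rw [hu, hgsqf]
        have := mul_le_mul_of_nonneg_right hFx2 (mul_nonneg hgG (sq_nonneg (et x)))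
        linarith only [this]
      have t3 : F (G x) * (2 / rsq x * rdr (fun x => et x ^ 2) x) ≤ 0 := by
        refine mul_nonpos_of_nonneg_of_nonpos hFx ?_
        exact mul_nonpos_of_nonneg_of_nonpos (by positivity) (H.r x)
      have t5 : |∑ i, pd i (fun y => F (G y)) x * pd i (fun x => et x ^ 2) x| ≤ u / 4 + C := by
        refine abs_le_of_sq_le_sq ?_ (by positivity)
        have h1 : (∑ i, pd i (fun y => F (G y)) x * pd i (fun x => et x ^ 2) x) ^ 2 ≤
            gsq (fun y => F (G y)) x * gsq (fun x => et x ^ 2) x := Finset.sum_mul_sq_le_sq_mul_sq _ _ _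
        have h2 : gsq (fun y => F (G y)) x * gsq (fun x => et x ^ 2) x ≤ u * C := by
          calc gsq (fun y => F (G y)) x * gsq (fun x => et x ^ 2) x ≤
              gsq (fun y => F (G y)) x * (C * et x ^ 2) := mul_le_mul_of_nonneg_left (H.g x) hg0
            _ = u * C := by rw [hu]; ring
        linarith only [sq_nonneg (u / 4 - C), h1, h2]
      have t4 : |(P x * deriv F (G x)) * crs G (fun x => et x ^ 2) x| ≤ u / 4 + C * (rsq x * P x ^ 2) := by
        refine abs_le_of_sq_le_sq ?_ (by positivity)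
        have h1 := LoA_crs G (fun x => et x ^ 2) x
        have h2 : ((P x * deriv F (G x)) * crs G (fun x => et x ^ 2) x) ^ 2 ≤ u * (C * (rsq x * P x ^ 2)) := by
          calc ((P x * deriv F (G x)) * crs G (fun x => et x ^ 2) x) ^ 2
              = (P x * deriv F (G x)) ^ 2 * crs G (fun x => et x ^ 2) x ^ 2 := by ring
            _ ≤ (P x * deriv F (G x)) ^ 2 * (rsq x * gsq G x * gsq (fun x => et x ^ 2) x) :=
                mul_le_mul_of_nonneg_left h1 (sq_nonneg _)
            _ ≤ (P x * deriv F (G x)) ^ 2 * (rsq x * gsq G x * (C * et x ^ 2)) := by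
                refine mul_le_mul_of_nonneg_left ?_ (sq_nonneg _)
                exact mul_le_mul_of_nonneg_left (H.g x) (mul_nonneg hr0 hgG)
            _ = u * (C * (rsq x * P x ^ 2)) := by rw [hu, hgsqf]; ring
        linarith only [sq_nonneg (u / 4 - C * (rsq x * P x ^ 2)), h2]
      have t6 := mul_le_mul_of_nonneg_left (LoA_D_le (P := P) hx) hCp.le
      have t7 := neg_abs_le (∑ i, pd i (fun y => F (G y)) x * pd i (fun x => et x ^ 2) x)
      have t8 := le_abs_self ((P x * deriv F (G x)) * crs G (fun x => et x ^ 2) x)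
      linarith only [t1, t3, t5, t4, t6, t7, t8]
    · obtain ⟨z1, z2, z3, z4⟩ := H.z x hx
      have z5 : crs G (fun x => et x ^ 2) x = 0 := by unfold crs; rw [z2, z4]; ring
      have z6 := LoA_D_nonneg P x
      rw [z5, z4]
      simp only [z2, z1]
      simp
      positivity
  rw [e1]
  refine hmono.trans ?_
  rw [integral_add (j6.const_mul _) (j7.const_mul _), integral_const_mul, integral_const_mul]
  have := mul_le_mul_of_nonneg_left hB hCp.le
  linarith

theorem enB : ∃ C : ℝ, 0 < C ∧ ∀ (M : ℝ), 1 ≤ M → ∀ (F : ℝ → ℝ) (G P : E3 → ℝ) (B : ℝ), ContDiff ℝ ∞ F → ContDiff ℝ ∞ G → Continuous P →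
    0 ≤ B → FB P B →
    (∀ x ∈ Metric.closedBall (0 : E3) (3/4), |F (G x)| ≤ M ∧ deriv F (G x) ^ 2 ≤ M * deriv (deriv F) (G x)) →
    En F G P (fun x => et x ^ 2) ≤
      - (1/2) * (∫ x, deriv (deriv F) (G x) * gsq G x * et x ^ 2) + C * M * (1 + B) := by
  obtain ⟨C, H⟩ := LoA_et
  obtain ⟨K, hK, hKI⟩ := LoA_D_int
  have hCp := H.pos
  refine ⟨3 * C * K, by positivity, ?_⟩
  intro M hM F G P B hF hG hP hB0 hFB hyp
  have hf : ContDiff ℝ ∞ (fun y => F (G y)) := hF.comp hG
  have hF1 : ContDiff ℝ ∞ (deriv F) := (contDiff_infty_iff_deriv.1 hF).2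
  have hF2 : ContDiff ℝ ∞ (deriv (deriv F)) := (contDiff_infty_iff_deriv.1 hF1).2
  have j1 : Integrable (fun x => (- deriv (deriv F) (G x) * gsq G x) * et x ^ 2) :=
    LoA_i1 H ((hF2.continuous.comp hG.continuous).neg.mul (LoA_gsq_cont hG))
  have j2 : Integrable (fun x => F (G x) * lap (fun x => et x ^ 2) x) := LoA_i2 H hf.continuous
  have j3 : Integrable (fun x => F (G x) * (2 / rsq x * rdr (fun x => et x ^ 2) x)) := LoA_i3 H hf.continuous
  have j4 : Integrable (fun x => (P x * deriv F (G x)) * crs G (fun x => et x ^ 2) x) :=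
    LoA_i4 H (hP.mul (hF1.continuous.comp hG.continuous)) hG
  have j6 : Integrable (fun x => deriv (deriv F) (G x) * gsq G x * et x ^ 2) :=
    LoA_i1 H ((hF2.continuous.comp hG.continuous).mul (LoA_gsq_cont hG))
  obtain ⟨j7, hB⟩ := hKI P B hP hB0 hFB
  have jall : Integrable (fun x => - deriv (deriv F) (G x) * gsq G x * et x ^ 2 +
      F (G x) * (lap (fun x => et x ^ 2) x + 2 / rsq x * rdr (fun x => et x ^ 2) x) +
      P x * deriv F (G x) * crs G (fun x => et x ^ 2) x) := by
    refine (((j1.add j2).add j3).add j4).congr ?_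
    filter_upwards with x
    simp only [Pi.add_apply]
    ring
  have hmono : En F G P (fun x => et x ^ 2) ≤
      ∫ x, (-(1/2) * (deriv (deriv F) (G x) * gsq G x * et x ^ 2) + 3 * C * M * LoA_D P x) := by
    unfold En
    refine integral_mono jall ((j6.const_mul _).add (j7.const_mul _)) fun x => ?_
    simp only []
    by_cases hx : x ∈ Metric.closedBall (0 : E3) (3/4)
    · obtain ⟨hFx, hFx2⟩ := hyp x hx
      have hgG := gsq_nonneg G x
      have hr0 := LoA_rsq_nonneg x
      have hM0 : 0 < M := by linarith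
      have hF20 : 0 ≤ deriv (deriv F) (G x) := by
        have := (sq_nonneg (deriv F (G x))).trans hFx2
        exact nonneg_of_mul_nonneg_right this hM0
      set u := deriv (deriv F) (G x) * gsq G x * et x ^ 2 with hu
      have hu0 : 0 ≤ u := by positivity
      have t1 : - deriv (deriv F) (G x) * gsq G x * et x ^ 2 = - u := by rw [hu]; ring
      have h4 : |2 / rsq x| * |rdr (fun x => et x ^ 2) x| ≤ 2 * C := by
        have h1 := H.ra x
        rcases hr0.eq_or_lt with h | h
        · rw [← h]; simp; exact hCp.le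
        · rw [abs_of_pos (by positivity), div_mul_eq_mul_div, div_le_iff₀ h]
          linarith only [h1]
      have t2 : F (G x) * (lap (fun x => et x ^ 2) x + 2 / rsq x * rdr (fun x => et x ^ 2) x) ≤ M * (3 * C) := by
        refine (le_abs_self _).trans ?_
        rw [abs_mul]
        refine mul_le_mul hFx ?_ (abs_nonneg _) hM0.le
        refine (abs_add_le _ _).trans ?_
        rw [abs_mul]
        have := H.l x
        linarith
      have t4 : |P x * deriv F (G x) * crs G (fun x => et x ^ 2) x| ≤ u / 2 + C * M * (rsq x * P x ^ 2) / 2 := by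
        refine abs_le_of_sq_le_sq ?_ (by positivity)
        have h1 := LoA_crs G (fun x => et x ^ 2) x
        have h2 : (P x * deriv F (G x) * crs G (fun x => et x ^ 2) x) ^ 2 ≤ u * (C * M * (rsq x * P x ^ 2)) := by
          calc (P x * deriv F (G x) * crs G (fun x => et x ^ 2) x) ^ 2
              = (P x ^ 2 * deriv F (G x) ^ 2) * crs G (fun x => et x ^ 2) x ^ 2 := by ring
            _ ≤ (P x ^ 2 * deriv F (G x) ^ 2) * (rsq x * gsq G x * gsq (fun x => et x ^ 2) x) :=
                mul_le_mul_of_nonneg_left h1 (by positivity)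
            _ ≤ (P x ^ 2 * deriv F (G x) ^ 2) * (rsq x * gsq G x * (C * et x ^ 2)) := by
                refine mul_le_mul_of_nonneg_left ?_ (by positivity)
                exact mul_le_mul_of_nonneg_left (H.g x) (mul_nonneg hr0 hgG)
            _ ≤ (P x ^ 2 * (M * deriv (deriv F) (G x))) * (rsq x * gsq G x * (C * et x ^ 2)) := by
                refine mul_le_mul_of_nonneg_right ?_ (by positivity)
                exact mul_le_mul_of_nonneg_left hFx2 (by positivity)
            _ = u * (C * M * (rsq x * P x ^ 2)) := by rw [hu]; ring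
        linarith only [sq_nonneg (u / 2 - C * M * (rsq x * P x ^ 2) / 2), h2]
      have t6 := mul_le_mul_of_nonneg_left (LoA_D_le (P := P) hx) (mul_nonneg (mul_nonneg (by norm_num : (0 : ℝ) ≤ 3) hCp.le) hM0.le)
      have t8 := le_abs_self (P x * deriv F (G x) * crs G (fun x => et x ^ 2) x)
      have t9 : 0 ≤ C * M * (rsq x * P x ^ 2) := by positivity
      rw [t1]
      linarith only [t2, t4, t6, t8, t9]
    · obtain ⟨z1, z2, z3, z4⟩ := H.z x hx
      have z5 : crs G (fun x => et x ^ 2) x = 0 := by unfold crs; rw [z2, z4]; ring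
      have z6 := LoA_D_nonneg P x
      rw [z5, z4, z3, z1]
      simp
      positivity
  refine hmono.trans ?_
  rw [integral_add (j6.const_mul _) (j7.const_mul _), integral_const_mul, integral_const_mul]
  have := mul_le_mul_of_nonneg_left hB (mul_nonneg (mul_nonneg (by norm_num : (0 : ℝ) ≤ 3) hCp.le) (by linarith : (0 : ℝ) ≤ M))
  linarith

end Pool.Agent.H90.AX
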