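/-
The axis supplies mass to `1 - Γ`, with the form bound FT.
-/
import Pool.Agent.H72.CC.InB
import Pool.Agent.H90.AX.LoA
import Pool.Agent.H90.AX.InA

set_option autoImplicit false

open Set Filter Topology MeasureTheory
open scoped ContDiff

namespace Pool.Agent.H90.AX

open Pool.Agent.H16 Pool.Agent.H87.NS Pool.Agent.H72.CC

/-- the gradient is square integrable in time -/
theorem InB_one {CB : ℝ} (hB : ∀ (M : ℝ), 1 ≤ M → ∀ (F : ℝ → ℝ) (G P : E3 → ℝ) (B : ℝ), ContDiff ℝ ∞ F → ContDiff ℝ ∞ G → Continuous P →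
    0 ≤ B → FB P B → (∀ x ∈ Metric.closedBall (0 : E3) (3/4), |F (G x)| ≤ M ∧ deriv F (G x) ^ 2 ≤ M * deriv (deriv F) (G x)) →
    En F G P (fun x => et x ^ 2) ≤
      - (1/2) * (∫ x, deriv (deriv F) (G x) * gsq G x * et x ^ 2) + CB * M * (1 + B)) (hCB : 0 < CB)
    {Γ K P : ℝ → E3 → ℝ} {B : ℝ → ℝ} (h : Crc Γ K P) (hT : FT P B) {L : ℝ} (hL : 1 ≤ L) (hA5 : ∫ t in (-1 : ℝ)..(-(1/2)), B t ^ 5 ≤ L ^ 5)
    {F : ℝ → ℝ} (hF : ContDiff ℝ ∞ F) (hF0 : F 0 = 0)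
    (hFb : ∀ t ∈ Icc (-1 : ℝ) 0, ∀ x ∈ Metric.closedBall (0 : E3) (3/4), |F (Γ t x)| ≤ 1 ∧
      deriv F (Γ t x) ^ 2 ≤ 2 * deriv (deriv F) (Γ t x))
    (hQc : ContinuousOn (fun t => ∫ x, deriv (deriv F) (Γ t x) * gsq (Γ t) x * et x ^ 2) (Icc (-1) 0)) :
    ∫ t in (-1 : ℝ)..(-(1/2)), (∫ x, deriv (deriv F) (Γ t x) * gsq (Γ t) x * et x ^ 2) ≤
      (4 * (∫ x, et x ^ 2) + 8 * CB) * L := by
  have hsub : Icc (-1 : ℝ) (-(1/2)) ⊆ Icc (-1) 0 := Icc_subset_Icc le_rfl (by norm_num)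
  have hab : (-1 : ℝ) ≤ -(1/2) := by norm_num
  have hη : ContDiff ℝ ∞ (fun x : E3 => et x ^ 2) := (zc_smooth _ _).pow 2
  have hc : HasCompactSupport (fun x : E3 => et x ^ 2) := (zc_supp (by norm_num) (by norm_num) two_ne_zero).1
  obtain ⟨C, hC, hz⟩ := zc_pow 2 le_rfl
  have hr : ∀ x : E3, |rdr (fun x : E3 => et x ^ 2) x| ≤ C / (3/4 - 1/2) * rsq x := fun x =>
    (hz (1/2) (3/4) (by norm_num) (by norm_num) (by norm_num) x).2.2.2.2
  obtain ⟨Q, hQ⟩ : ∃ Q : ℝ → ℝ, Q = fun t => ∫ x, deriv (deriv F) (Γ t x) * gsq (Γ t) x * et x ^ 2 := ⟨_, rfl⟩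
  have hFT := intervalIntegral.integral_eq_sub_of_hasDerivAt_of_le (f := fun t => ∫ x, F (Γ t x) * et x ^ 2)
    (f' := fun t => En F (Γ t) (P t) (fun x => et x ^ 2)) hab ((enT_cont h hF hη hc).mono hsub)
    (fun t ht => en1 h hF hF0 hη hc hr ⟨ht.1, by linarith [ht.2]⟩)
    (((enT_En h hF hη hc hr).mono hsub).intervalIntegrable_of_Icc hab)
  have hQc' : ContinuousOn Q (Icc (-1) (-(1/2))) := by rw [hQ]; exact hQc.mono hsub
  have hAc' : ContinuousOn B (Icc (-1) (-(1/2))) := hT.con.mono hsub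
  have hQi := hQc'.intervalIntegrable_of_Icc hab (μ := volume)
  have hAi : IntervalIntegrable (fun t => B t ^ 5) volume (-1) (-(1/2)) :=
    (hAc'.pow 5).intervalIntegrable_of_Icc hab
  have hL0 : 0 < L := by linarith
  have hpt : ∀ t ∈ Icc (-1 : ℝ) (-(1/2)), En F (Γ t) (P t) (fun x => et x ^ 2) ≤
      -(1/2) * Q t + (2 * CB * (1 + L) + 2 * CB * L / L ^ 5 * B t ^ 5) := by
    intro t ht
    have ht' := hsub ht
    have h1 := hB 2 (by norm_num) F (Γ t) (P t) (B t) hF ((crc_cont h).2.2 t ht') (h.smP t ht').continuous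
      (hT.nn t) (hT.fb t ht')
      (fun x hx => ⟨(hFb t ht' x hx).1.trans (by norm_num), (hFb t ht' x hx).2⟩)
    have h2 := (InB_pow (hT.nn t) hL0).2
    have h3 : CB * 2 * (1 + B t) ≤ CB * 2 * (1 + L * (1 + B t ^ 5 / L ^ 5)) :=
      mul_le_mul_of_nonneg_left (by linarith) (by positivity)
    rw [hQ]
    refine h1.trans ?_
    have h4 : CB * 2 * (1 + L * (1 + B t ^ 5 / L ^ 5)) =
        2 * CB * (1 + L) + 2 * CB * L / L ^ 5 * B t ^ 5 := by ring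
    rw [h4] at h3
    linarith only [h3]
  have hint := intervalIntegral.integral_mono_on hab
    (((enT_En h hF hη hc hr).mono hsub).intervalIntegrable_of_Icc hab)
    ((hQi.const_mul (-(1/2))).add (intervalIntegrable_const.add (hAi.const_mul (2 * CB * L / L ^ 5)))) hpt
  rw [hFT] at hint
  rw [InB_lin1 _ hQi (intervalIntegrable_const.add (hAi.const_mul (2 * CB * L / L ^ 5))),
    InB_lin2 _ _ hAi] at hint
  have h5 : 2 * CB * L / L ^ 5 * ∫ t in (-1 : ℝ)..(-(1/2)), B t ^ 5 ≤ 2 * CB * L := by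
    have h6 := mul_le_mul_of_nonneg_left hA5 (show 0 ≤ 2 * CB * L / L ^ 5 by positivity)
    refine h6.trans (le_of_eq ?_)
    field_simp
  have hFI : ∀ t ∈ Icc (-1 : ℝ) 0, |∫ x, F (Γ t x) * et x ^ 2| ≤ ∫ x, et x ^ 2 := by
    intro t ht
    have hi : Integrable (fun x : E3 => et x ^ 2) := InB_ci (InB_et_cont.pow 2) (R := 3/4) fun x hx => by
      rw [InB_et0 hx]
      simp
    rw [← Real.norm_eq_abs]
    refine norm_integral_le_of_norm_le hi (Eventually.of_forall fun x => ?_)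
    rw [norm_mul, Real.norm_eq_abs, Real.norm_eq_abs, abs_of_nonneg (sq_nonneg (et x))]
    rcases le_or_gt ‖x‖ (3/4) with hx | hx
    · have h1 := (hFb t ht x (by rw [Metric.mem_closedBall, dist_zero_right]; exact hx)).1
      nlinarith only [sq_nonneg (et x), h1]
    · rw [InB_et0 hx]
      simp
  have h6 := abs_le.1 (hFI (-(1/2)) ⟨by norm_num, by norm_num⟩)
  have h7 := abs_le.1 (hFI (-1) ⟨by norm_num, by norm_num⟩)
  have hI0 : 0 ≤ ∫ x : E3, et x ^ 2 := integral_nonneg fun x => sq_nonneg _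
  rw [hQ] at hint
  have h9 := mul_le_mul_of_nonneg_left hL hI0
  have h10 := mul_le_mul_of_nonneg_left hL hCB.le
  linarith

theorem InB_tau {t : ℝ} (h1 : -1 ≤ t) (h2 : t ≤ -(1/2)) :
    0 ≤ -((t + 1) * (t + 1/2)) ∧ -((t + 1) * (t + 1/2)) ≤ 1 := by
  constructor <;> nlinarith

/-- the square of the form bound against the fifth power -/
theorem InB_BH {B H CH L s : ℝ} (hB : 0 ≤ B) (hH : 0 ≤ H) (hHC : H ≤ CH) (hL : 1 ≤ L) (hs : 0 < s) :
    B ^ 2 * H ≤ s ^ 2 * L ^ 6 * H + CH * B ^ 5 / (s ^ 3 * L ^ 9) := by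
  have hL0 : 0 < L := by linarith
  have hCH : 0 ≤ CH := hH.trans hHC
  have hp : 0 < s ^ 3 * L ^ 9 := by positivity
  have h2 : 0 ≤ CH * B ^ 5 / (s ^ 3 * L ^ 9) := by positivity
  rcases le_or_gt B (s * L ^ 3) with h | h
  · have h1 : B ^ 2 ≤ s ^ 2 * L ^ 6 := by
      calc B ^ 2 ≤ (s * L ^ 3) ^ 2 := pow_le_pow_left₀ hB h 2
        _ = _ := by ring
    have h3 := mul_le_mul_of_nonneg_right h1 hH
    linarith
  · have h1 : B ^ 2 ≤ B ^ 5 / (s ^ 3 * L ^ 9) := by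
      rw [le_div_iff₀ hp]
      have h3 : (s * L ^ 3) ^ 3 ≤ B ^ 3 := pow_le_pow_left₀ (by positivity) h.le 3
      calc B ^ 2 * (s ^ 3 * L ^ 9) = B ^ 2 * (s * L ^ 3) ^ 3 := by ring
        _ ≤ B ^ 2 * B ^ 3 := mul_le_mul_of_nonneg_left h3 (sq_nonneg B)
        _ = B ^ 5 := by ring
    have h4 : B ^ 2 * H ≤ B ^ 2 * CH := mul_le_mul_of_nonneg_left hHC (sq_nonneg B)
    have h5 : B ^ 2 * CH ≤ B ^ 5 / (s ^ 3 * L ^ 9) * CH := mul_le_mul_of_nonneg_right h1 hCH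
    have h6 : B ^ 5 / (s ^ 3 * L ^ 9) * CH = CH * B ^ 5 / (s ^ 3 * L ^ 9) := by ring
    have h7 : 0 ≤ s ^ 2 * L ^ 6 * H := by positivity
    linarith

theorem inB : ∃ c : ℝ, 0 < c ∧ ∀ (Γ K P : ℝ → E3 → ℝ) (B : ℝ → ℝ), Crc Γ K P → FT P B → ∀ Λ : ℝ, 1 ≤ Λ →
    ∫ t in (-1 : ℝ)..0, B t ^ 5 ≤ Λ ^ 5 →
    (∀ t ∈ Icc (-1 : ℝ) 0, ∀ x ∈ Metric.closedBall (0 : E3) (3/4), |Γ t x| < 1) →
    c / Λ ^ 9 ≤ ∫ t in (-1 : ℝ)..(-(1/2)), ∫ x, (1 - Γ t x) * et x ^ 2 := by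
  obtain ⟨CB, hCB, hB⟩ := enB
  obtain ⟨CA, hCA, hA⟩ := inA
  obtain ⟨Cg, hCg, hg⟩ := InB_g_bd
  obtain ⟨Cr, hCr, hr⟩ := InB_bd
  obtain ⟨κ, hκ⟩ : ∃ κ : ℝ, κ = -∫ x, InB_g x := ⟨_, rfl⟩
  have hκ0 : 0 < κ := by rw [hκ]; linarith [InB_neg]
  obtain ⟨C1, hC1⟩ : ∃ C1 : ℝ, C1 = 4 * (4 * (∫ x : E3, et x ^ 2) + 8 * CB) := ⟨_, rfl⟩
  have hI0 : 0 ≤ ∫ x : E3, et x ^ 2 := integral_nonneg fun x => sq_nonneg _
  have hC10 : 0 < C1 := by rw [hC1]; positivity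
  obtain ⟨ε, hε⟩ : ∃ ε : ℝ, ε = min 1 (κ / (96 * CA * (C1 + 1/2))) := ⟨_, rfl⟩
  have hε0 : 0 < ε := by rw [hε]; positivity
  have hεle : ε ≤ 1 := by rw [hε]; exact min_le_left _ _
  have hε1 : CA * (C1 + 1/2) * ε ≤ κ / 96 := by
    have h1 : ε ≤ κ / (96 * CA * (C1 + 1/2)) := by rw [hε]; exact min_le_right _ _
    have h2 := mul_le_mul_of_nonneg_left h1 (show 0 ≤ CA * (C1 + 1/2) by positivity)
    refine h2.trans (le_of_eq ?_)
    field_simp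
  obtain ⟨CH, hCH⟩ : ∃ CH : ℝ, CH = 2 * ∫ x : E3, et x ^ 2 := ⟨_, rfl⟩
  have hCH0 : 0 ≤ CH := by rw [hCH]; positivity
  obtain ⟨s, hs⟩ : ∃ s : ℝ, s = 1 + 4 * CH / ε ^ 4 := ⟨_, rfl⟩
  have hs1 : 1 ≤ s := by
    rw [hs]
    have : 0 ≤ 4 * CH / ε ^ 4 := by positivity
    linarith
  have hs0 : 0 < s := by linarith
  have hs3 : 2 * CH / (ε ^ 3 * s ^ 3) ≤ ε / 2 := by
    have h1 : 4 * CH / ε ^ 4 ≤ s ^ 3 := by
      have h2 : s ≤ s ^ 3 := le_self_pow₀ hs1 (by norm_num)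
      rw [hs] at h2 ⊢
      linarith
    rw [div_le_iff₀ (by positivity)] at h1 ⊢
    linarith only [h1]
  obtain ⟨C2, hC2⟩ : ∃ C2 : ℝ, C2 = 1/2 + Cg + CA * (2 / ε ^ 3 + 2 * s ^ 2 / ε ^ 3) := ⟨_, rfl⟩
  have hC20 : 0 < C2 := by rw [hC2]; positivity
  refine ⟨κ / (96 * C2), by positivity, ?_⟩
  intro Γ K P B h hT L hL hA5 hb
  have hL0 : 0 < L := by linarith
  have hsub : Icc (-1 : ℝ) (-(1/2)) ⊆ Icc (-1) 0 := Icc_subset_Icc le_rfl (by norm_num)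
  have hab : (-1 : ℝ) ≤ -(1/2) := by norm_num
  obtain ⟨hGc, hpc, hGs⟩ := crc_cont h
  have hAc : ContinuousOn B (Icc (-1) 0) := hT.con
  have hA0 := hT.nn
  have hA5' : ∫ t in (-1 : ℝ)..(-(1/2)), B t ^ 5 ≤ L ^ 5 := by
    have h1 : IntervalIntegrable (fun t => B t ^ 5) volume (-1) (-(1/2)) :=
      ((hAc.mono hsub).pow 5).intervalIntegrable_of_Icc hab
    have h2 : IntervalIntegrable (fun t => B t ^ 5) volume (-(1/2)) 0 :=
      ((hAc.mono (Icc_subset_Icc (by norm_num) le_rfl)).pow 5).intervalIntegrable_of_Icc (by norm_num)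
    have h3 := intervalIntegral.integral_add_adjacent_intervals h1 h2
    have h4 : 0 ≤ ∫ t in (-(1/2) : ℝ)..0, B t ^ 5 :=
      intervalIntegral.integral_nonneg (by norm_num) fun t _ => pow_nonneg (hA0 t) 5
    linarith only [hA5, h3, h4]
  -- the bound for Γ
  obtain ⟨b, hb0, hb1, hbb⟩ : ∃ b : ℝ, 0 ≤ b ∧ b < 1 ∧ ∀ t ∈ Icc (-1 : ℝ) 0, ∀ x ∈ Metric.closedBall (0 : E3) (3/4), |Γ t x| ≤ b := by
    have hcomp : IsCompact (Icc (-1 : ℝ) 0 ×ˢ Metric.closedBall (0 : E3) (3/4)) :=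
      isCompact_Icc.prod (isCompact_closedBall _ _)
    have hne : (Icc (-1 : ℝ) 0 ×ˢ Metric.closedBall (0 : E3) (3/4)).Nonempty :=
      ⟨(0, 0), ⟨⟨by norm_num, le_rfl⟩, by simp; norm_num⟩⟩
    obtain ⟨q, hq, hmax⟩ := hcomp.exists_isMaxOn hne
      (f := fun q : ℝ × E3 => |Γ q.1 q.2|) ((hGc.mono (prod_mono le_rfl (subset_univ _))).abs)
    refine ⟨|Γ q.1 q.2|, abs_nonneg _, hb q.1 hq.1 q.2 hq.2, fun t ht x hx => ?_⟩
    exact hmax (show (t, x) ∈ Icc (-1 : ℝ) 0 ×ˢ Metric.closedBall (0 : E3) (3/4) from ⟨ht, hx⟩)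
  obtain ⟨F, hF, hF0, hFb⟩ := sqr hb1 hb0
  have hF2 : Continuous (deriv (deriv F)) := by
    have h1 : ContDiff ℝ ∞ (deriv F) := ContDiff.iterate_deriv 1 hF
    exact (h1.iterate_deriv 1).continuous
  -- Q
  have hQc : ContinuousOn (fun t => ∫ x, deriv (deriv F) (Γ t x) * gsq (Γ t) x * et x ^ 2) (Icc (-1) 0) := by
    refine InB_ic (Φ := fun t x => deriv (deriv F) (Γ t x) * gsq (Γ t) x) ?_
    refine (hF2.comp_continuousOn hGc).mul ?_
    unfold gsq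
    exact continuousOn_finsetSum _ fun i _ => (hpc i).pow 2
  have hQ := InB_one hB hCB h hT hL hA5' hF hF0
    (fun t ht x hx => ⟨(hFb _ (hbb t ht x hx)).1, (hFb _ (hbb t ht x hx)).2.2⟩) hQc
  -- H
  have hHc : ContinuousOn (fun t => ∫ x, (1 - Γ t x) * et x ^ 2) (Icc (-1) 0) :=
    InB_ic (Φ := fun t x => 1 - Γ t x) (continuousOn_const.sub hGc)
  obtain ⟨H, hH⟩ : ∃ H : ℝ → ℝ, H = fun t => ∫ x, (1 - Γ t x) * et x ^ 2 := ⟨_, rfl⟩
  obtain ⟨Q, hQd⟩ : ∃ Q : ℝ → ℝ, Q = fun t => ∫ x, deriv (deriv F) (Γ t x) * gsq (Γ t) x * et x ^ 2 := ⟨_, rfl⟩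
  obtain ⟨m, hm⟩ : ∃ m : ℝ → ℝ, m = fun t => ∫ x, Γ t x * InB_e x := ⟨_, rfl⟩
  obtain ⟨I1, hI1⟩ : ∃ I1 : ℝ, I1 = ∫ x, InB_e x := ⟨_, rfl⟩
  have hHi : IntervalIntegrable H volume (-1) (-(1/2)) := by
    rw [hH]
    exact (hHc.mono hsub).intervalIntegrable_of_Icc hab
  have hQi : IntervalIntegrable Q volume (-1) (-(1/2)) := by
    rw [hQd]
    exact (hQc.mono hsub).intervalIntegrable_of_Icc hab
  have hAi : IntervalIntegrable (fun t => B t ^ 5) volume (-1) (-(1/2)) :=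
    ((hAc.mono hsub).pow 5).intervalIntegrable_of_Icc hab
  have hfix := fun (t : ℝ) (ht : t ∈ Icc (-1 : ℝ) 0) =>
    InB_fix hg (hGs t ht) (h.smP t ht).continuous (hb t ht)
  have hid : ContDiff ℝ ∞ (fun s : ℝ => s) := contDiff_id
  have hrr : ∀ x, |rdr InB_e x| ≤ Cr * rsq x := fun x => (hr x).2.2
  have hmc : ContinuousOn m (Icc (-1) 0) := by
    rw [hm]
    exact enT_cont h hid InB_e_smooth InB_e_supp.1
  have hEc : ContinuousOn (fun t => En (fun s => s) (Γ t) (P t) InB_e) (Icc (-1) 0) :=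
    enT_En h hid InB_e_smooth InB_e_supp.1 hrr
  have hmd : ∀ t ∈ Ioo (-1 : ℝ) 0, HasDerivAt m (En (fun s => s) (Γ t) (P t) InB_e) t := by
    intro t ht
    rw [hm]
    exact en1 h hid rfl InB_e_smooth InB_e_supp.1 hrr ht
  obtain ⟨l, hl⟩ : ∃ l : ℝ, l = ε / L := ⟨_, rfl⟩
  have hl0 : 0 < l := by rw [hl]; positivity
  have hl1 : l ≤ 1 := by
    rw [hl, div_le_one hL0]
    linarith
  have hFT := intervalIntegral.integral_eq_sub_of_hasDerivAt_of_le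
    (f := fun t => -((t + 1) * (t + 1/2)) * (m t - I1) + κ * -(t ^ 3 / 3 + 3 * t ^ 2 / 4 + t / 2))
    (f' := fun t => -(2 * t + 3/2) * (m t - I1) + -((t + 1) * (t + 1/2)) * (En (fun s => s) (Γ t) (P t) InB_e + κ))
    hab ?_ ?_ ?_
  rotate_left
  · refine ContinuousOn.add (ContinuousOn.mul (by fun_prop) ((hmc.mono hsub).sub continuousOn_const)) (by fun_prop)
  · intro t ht
    have h1 := hmd t ⟨ht.1, by linarith [ht.2]⟩
    have h2 : HasDerivAt (fun t : ℝ => -((t + 1) * (t + 1/2))) (-(1 * (t + 1/2) + (t + 1) * 1)) t :=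
      (((hasDerivAt_id t).add_const 1).mul ((hasDerivAt_id t).add_const (1/2))).neg
    have h3 : HasDerivAt (fun t : ℝ => κ * -(t ^ 3 / 3 + 3 * t ^ 2 / 4 + t / 2))
        (κ * -((3 : ℕ) * t ^ (3 - 1) / 3 + 3 * ((2 : ℕ) * t ^ (2 - 1)) / 4 + 1 / 2)) t :=
      ((((hasDerivAt_pow 3 t).div_const 3).add (((hasDerivAt_pow 2 t).const_mul 3).div_const 4)).add
        ((hasDerivAt_id t).div_const 2)).neg.const_mul κ
    refine ((h2.mul (h1.sub_const I1)).add h3).congr_deriv ?_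
    push_cast
    ring
  · refine ContinuousOn.intervalIntegrable_of_Icc hab ?_
    exact (ContinuousOn.mul (by fun_prop) ((hmc.mono hsub).sub continuousOn_const)).add
      (ContinuousOn.mul (by fun_prop) ((hEc.mono hsub).add continuousOn_const))
  have hpt : ∀ t ∈ Icc (-1 : ℝ) (-(1/2)),
      -(2 * t + 3/2) * (m t - I1) + -((t + 1) * (t + 1/2)) * (En (fun s => s) (Γ t) (P t) InB_e + κ) ≤
      (1/2 + Cg + CA * (2 * L ^ 3 / ε ^ 3 + 2 * s ^ 2 * L ^ 9 / ε ^ 3)) * H t + (CA * (4 * l) * Q t +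
        (0 + CA * (2 * CH / (ε ^ 3 * s ^ 3)) / L ^ 6 * B t ^ 5)) := by
    intro t ht
    have ht' := hsub ht
    obtain ⟨f1, f2, f3, f4⟩ := hfix t ht'
    have hJ := hA (Γ t) (P t) (B t) (hGs t ht') (h.smP t ht').continuous (hT.nn t) (hT.fb t ht') (hb t ht') l hl0 hl1
    have hD : ∫ x, (1 - Γ t x) ^ (-(3/2) : ℝ) * gsq (Γ t) x * et x ^ 2 = 4 * Q t := by
      rw [hQd, ← integral_const_mul]
      refine integral_congr_ae (Eventually.of_forall fun x => ?_)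
      simp only
      rcases le_or_gt ‖x‖ (3/4) with hx | hx
      · rw [(hFb _ (hbb t ht' x (by rw [Metric.mem_closedBall, dist_zero_right]; exact hx))).2.1]
        ring
      · rw [InB_et0 hx]
        simp
    have hQ0 : 0 ≤ Q t := by
      rw [hQd]
      refine integral_nonneg fun x => ?_
      simp only [Pi.zero_apply]
      rcases le_or_gt ‖x‖ (3/4) with hx | hx
      · obtain ⟨-, -, g3⟩ := hFb _ (hbb t ht' x (by rw [Metric.mem_closedBall, dist_zero_right]; exact hx))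
        have g4 : 0 ≤ deriv (deriv F) (Γ t x) := by linarith only [sq_nonneg (deriv F (Γ t x)), g3]
        exact mul_nonneg (mul_nonneg g4 (gsq_nonneg _ _)) (sq_nonneg _)
      · rw [InB_et0 hx]
        simp
    have hHt : ∫ x, (1 - Γ t x) * et x ^ 2 = H t := by rw [hH]
    have hmt : ∫ x, Γ t x * InB_e x = m t := by rw [hm]
    have hHle : H t ≤ CH := by
      rw [← hHt, hCH, ← integral_const_mul]
      have i0 : Integrable (fun x : E3 => et x ^ 2) := InB_ci (InB_et_cont.pow 2) (R := 3/4) fun x hx => by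
        rw [InB_et0 hx]
        simp
      have i1 : Integrable (fun x : E3 => 2 * et x ^ 2) := i0.const_mul 2
      have i2 : Integrable (fun x : E3 => (1 - Γ t x) * et x ^ 2) := by
        refine InB_ci ((continuous_const.sub (hGs t ht').continuous).mul (InB_et_cont.pow 2)) (R := 3/4) fun x hx => ?_
        rw [InB_et0 hx]
        simp
      refine integral_mono i2 i1 fun x => ?_
      simp only []
      rcases le_or_gt ‖x‖ (3/4) with hx | hx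
      · have g1 := abs_lt.1 (hb t ht' x (by rw [Metric.mem_closedBall, dist_zero_right]; exact hx))
        exact mul_le_mul_of_nonneg_right (by linarith only [g1.1]) (sq_nonneg _)
      · rw [InB_et0 hx]
        simp
    rw [hHt] at f1 f2 f4 hJ
    rw [hmt, ← hI1] at f2 f3
    rw [hD] at hJ
    have hκ' : ∫ x, InB_g x = -κ := by rw [hκ]; ring
    rw [hκ'] at f4
    have hJ' : |∫ x, P t x * crs (Γ t) InB_e x| ≤ CA * (l * (4 * Q t) + (1 + B t) ^ 2 / l ^ 3 * H t) := hJ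
    have hBH := InB_BH (hA0 t) f1 hHle hL hs0
    have hJ2 : |∫ x, P t x * crs (Γ t) InB_e x| ≤
        CA * (l * (4 * Q t) + ((2 * L ^ 3 / ε ^ 3 + 2 * s ^ 2 * L ^ 9 / ε ^ 3) * H t +
          (2 * CH / (ε ^ 3 * s ^ 3)) / L ^ 6 * B t ^ 5)) := by
      refine hJ'.trans ?_
      refine mul_le_mul_of_nonneg_left ?_ hCA.le
      have h1 : (1 + B t) ^ 2 / l ^ 3 * H t ≤ (2 + 2 * B t ^ 2) / l ^ 3 * H t := by
        refine mul_le_mul_of_nonneg_right ?_ f1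
        refine div_le_div_of_nonneg_right ?_ (by positivity)
        linarith only [sq_nonneg (1 - B t)]
      have h2 : (2 + 2 * B t ^ 2) / l ^ 3 * H t = 2 * L ^ 3 / ε ^ 3 * H t + 2 * L ^ 3 / ε ^ 3 * (B t ^ 2 * H t) := by
        rw [hl]
        field_simp
      have h3 := mul_le_mul_of_nonneg_left hBH (show 0 ≤ 2 * L ^ 3 / ε ^ 3 by positivity)
      have h4 : 2 * L ^ 3 / ε ^ 3 * (s ^ 2 * L ^ 6 * H t + CH * B t ^ 5 / (s ^ 3 * L ^ 9)) =
          2 * s ^ 2 * L ^ 9 / ε ^ 3 * H t + (2 * CH / (ε ^ 3 * s ^ 3)) / L ^ 6 * B t ^ 5 := by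
        field_simp
      linarith only [h1, h2, h3, h4]
    obtain ⟨hτ0, hτ1⟩ := InB_tau ht.1 ht.2
    have hp1 : -(2 * t + 3/2) * (m t - I1) ≤ 1/2 * H t := by
      have h1 : 0 ≤ I1 - m t := by linarith only [f3]
      have h2 : I1 - m t ≤ H t := by linarith only [f2]
      have h3 : (2 * t + 3/2) ≤ 1/2 := by linarith only [ht.2]
      nlinarith only [f2, f3, h3]
    have hp2 : -((t + 1) * (t + 1/2)) * (En (fun s => s) (Γ t) (P t) InB_e + κ) ≤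
        Cg * H t + |∫ x, P t x * crs (Γ t) InB_e x| := by
      have h1 : En (fun s => s) (Γ t) (P t) InB_e + κ ≤ Cg * H t + |∫ x, P t x * crs (Γ t) InB_e x| := by linarith only [f4]
      have h2 : 0 ≤ Cg * H t + |∫ x, P t x * crs (Γ t) InB_e x| := by positivity
      have h3 := mul_le_mul_of_nonneg_left h1 hτ0
      have h4 := mul_le_mul_of_nonneg_right hτ1 h2
      linarith only [h3, h4]
    have e1 : CA * (l * (4 * Q t) + ((2 * L ^ 3 / ε ^ 3 + 2 * s ^ 2 * L ^ 9 / ε ^ 3) * H t +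
          (2 * CH / (ε ^ 3 * s ^ 3)) / L ^ 6 * B t ^ 5)) =
        CA * (2 * L ^ 3 / ε ^ 3 + 2 * s ^ 2 * L ^ 9 / ε ^ 3) * H t + (CA * (4 * l) * Q t +
        (0 + CA * (2 * CH / (ε ^ 3 * s ^ 3)) / L ^ 6 * B t ^ 5)) := by ring
    rw [e1] at hJ2
    linarith only [hJ2, hp1, hp2]
  have hNi : IntervalIntegrable (fun t => -(2 * t + 3/2) * (m t - I1) +
      -((t + 1) * (t + 1/2)) * (En (fun s => s) (Γ t) (P t) InB_e + κ)) volume (-1) (-(1/2)) := by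
    refine ContinuousOn.intervalIntegrable_of_Icc hab ?_
    exact (ContinuousOn.mul (by fun_prop) ((hmc.mono hsub).sub continuousOn_const)).add
      (ContinuousOn.mul (by fun_prop) ((hEc.mono hsub).add continuousOn_const))
  have hint := intervalIntegral.integral_mono_on hab hNi
    ((hHi.const_mul _).add ((hQi.const_mul _).add (intervalIntegrable_const.add (hAi.const_mul _)))) hpt
  rw [hFT, InB_lin1 _ hHi ((hQi.const_mul _).add (intervalIntegrable_const.add (hAi.const_mul _))),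
    InB_lin1 _ hQi (intervalIntegrable_const.add (hAi.const_mul _)), InB_lin2 _ _ hAi] at hint
  have hQ' : ∫ t in (-1 : ℝ)..(-(1/2)), Q t ≤ C1 / 4 * L := by
    rw [hQd, hC1]
    refine hQ.trans (le_of_eq ?_)
    ring
  have hS : ∫ t in (-1 : ℝ)..(-(1/2)), ∫ x, (1 - Γ t x) * et x ^ 2 = ∫ t in (-1 : ℝ)..(-(1/2)), H t := by rw [hH]
  obtain ⟨S, hSd⟩ : ∃ S : ℝ, S = ∫ t in (-1 : ℝ)..(-(1/2)), H t := ⟨_, rfl⟩
  have hS0 : 0 ≤ S := by
    rw [hSd, hH]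
    exact intervalIntegral.integral_nonneg hab fun t ht => (hfix t (hsub ht)).1
  rw [hS, ← hSd]
  rw [← hSd] at hint
  have q1 : CA * (4 * l) * (∫ t in (-1 : ℝ)..(-(1/2)), Q t) ≤ CA * C1 * ε := by
    have h1 := mul_le_mul_of_nonneg_left hQ' (show 0 ≤ CA * (4 * l) by positivity)
    refine h1.trans (le_of_eq ?_)
    rw [hl]
    field_simp
  have q2 : CA * (2 * CH / (ε ^ 3 * s ^ 3)) / L ^ 6 * (∫ t in (-1 : ℝ)..(-(1/2)), B t ^ 5) ≤ CA * ε / 2 := by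
    have h1 := mul_le_mul_of_nonneg_left hA5' (show 0 ≤ CA * (2 * CH / (ε ^ 3 * s ^ 3)) / L ^ 6 by positivity)
    refine h1.trans ?_
    have h2 : CA * (2 * CH / (ε ^ 3 * s ^ 3)) / L ^ 6 * L ^ 5 = CA * (2 * CH / (ε ^ 3 * s ^ 3)) / L := by
      field_simp
    rw [h2, div_le_iff₀ hL0]
    have h3 := mul_le_mul_of_nonneg_left hs3 hCA.le
    have h4 : CA * ε / 2 ≤ CA * ε / 2 * L := le_mul_of_one_le_right (by positivity) hL
    linarith only [h3, h4]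
  have hL9 : 1 ≤ L ^ 9 := one_le_pow₀ hL
  have hL39 : L ^ 3 ≤ L ^ 9 := pow_le_pow_right₀ hL (by norm_num)
  have q5 : (1/2 + Cg + CA * (2 * L ^ 3 / ε ^ 3 + 2 * s ^ 2 * L ^ 9 / ε ^ 3)) * S ≤ C2 * L ^ 9 * S := by
    refine mul_le_mul_of_nonneg_right ?_ hS0
    rw [hC2]
    have h1 : 2 * L ^ 3 / ε ^ 3 ≤ 2 / ε ^ 3 * L ^ 9 := by
      have h2 := mul_le_mul_of_nonneg_left hL39 (show 0 ≤ 2 / ε ^ 3 by positivity)
      refine le_trans (le_of_eq ?_) h2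
      ring
    have h3 : 2 * s ^ 2 * L ^ 9 / ε ^ 3 = 2 * s ^ 2 / ε ^ 3 * L ^ 9 := by ring
    have h4 : CA * (2 * L ^ 3 / ε ^ 3 + 2 * s ^ 2 * L ^ 9 / ε ^ 3) ≤ CA * ((2 / ε ^ 3 + 2 * s ^ 2 / ε ^ 3) * L ^ 9) := by
      refine mul_le_mul_of_nonneg_left ?_ hCA.le
      rw [h3, add_mul]
      linarith only [h1]
    have h5 : 1/2 + Cg ≤ (1/2 + Cg) * L ^ 9 := le_mul_of_one_le_right (by positivity) hL9
    linarith only [h4, h5]
  have q6 : CA * (C1 + 1/2) * ε = CA * C1 * ε + CA * ε / 2 := by ring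
  have q7 : κ / 96 ≤ C2 * L ^ 9 * S := by
    norm_num at hint
    linarith only [mul_pos hCA hε0, hε1, q1, q2, q5, hint]
  rw [div_div, div_le_iff₀ (by positivity)]
  linarith

end Pool.Agent.H90.AX
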