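/-
The drift term in the iteration, under a form bound.
-/
import Pool.Agent.H90.AX.Defs
import Pool.Agent.H72.CC.MoA

set_option autoImplicit false

open Set Filter Topology MeasureTheory
open scoped ContDiff

namespace Pool.Agent.H90.AX

open Pool.Agent.H16 Pool.Agent.H87.NS Pool.Agent.H72.CC

theorem Hol_alg {X N ν I I6 I1 : ℝ} (hX : 0 ≤ X) (hN : 0 < N) (hν : 0 < ν) (h6 : I6 ≤ X ^ 3) (h1 : I1 ≤ N)
    (h : ∀ c : ℝ, 0 < c → I ≤ c ^ 4 / 5 * I6 + 4 / (5 * c) * I1) : I ≤ ν ^ 2 * X + ν⁻¹ ^ 3 * N ^ 2 := by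
  set W : ℝ := ν ^ 2 * X + ν⁻¹ ^ 3 * N ^ 2 with hW
  have hW0 : 0 < W := by positivity
  set c : ℝ := N / W with hc'
  have hc0 : 0 < c := by positivity
  have h7 := h c hc0
  have h8 : c ^ 4 / 5 * I6 ≤ W / 5 := by
    have e1 : c ^ 4 / 5 * I6 ≤ c ^ 4 / 5 * X ^ 3 := mul_le_mul_of_nonneg_left h6 (by positivity)
    refine e1.trans ?_
    have e2 : N ^ 4 * X ^ 3 ≤ W ^ 5 := by
      have g1 : X ≤ W / ν ^ 2 := by
        rw [le_div_iff₀ (by positivity), hW]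
        linarith only [show 0 ≤ ν⁻¹ ^ 3 * N ^ 2 by positivity]
      have g2 : N ^ 2 ≤ ν ^ 3 * W := by
        have : ν ^ 3 * W = ν ^ 5 * X + N ^ 2 := by
          rw [hW]
          field_simp
        rw [this]
        linarith only [show 0 ≤ ν ^ 5 * X by positivity]
      calc N ^ 4 * X ^ 3 = (N ^ 2) ^ 2 * X ^ 3 := by ring
        _ ≤ (ν ^ 3 * W) ^ 2 * (W / ν ^ 2) ^ 3 := by
            gcongr
        _ = W ^ 5 := by
            field_simp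
    have e3 : c ^ 4 / 5 * X ^ 3 = (N ^ 4 * X ^ 3) / (5 * W ^ 4) := by
      rw [hc']
      field_simp
    rw [e3, div_le_div_iff₀ (by positivity) (by positivity)]
    linarith only [e2]
  have h9 : 4 / (5 * c) * I1 ≤ 4 * W / 5 := by
    have e1 : 4 / (5 * c) * I1 ≤ 4 / (5 * c) * N := mul_le_mul_of_nonneg_left h1 (by positivity)
    refine e1.trans (le_of_eq ?_)
    rw [hc']
    field_simp
  linarith

theorem Hol_alg0 {X N ν I I6 I1 : ℝ} (hX : 0 ≤ X) (hN : 0 ≤ N) (hν : 0 < ν) (h6 : I6 ≤ X ^ 3) (h1 : I1 ≤ N)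
    (h : ∀ c : ℝ, 0 < c → I ≤ c ^ 4 / 5 * I6 + 4 / (5 * c) * I1) : I ≤ ν ^ 2 * X + ν⁻¹ ^ 3 * N ^ 2 := by
  have htend : Tendsto (fun N' : ℝ => ν ^ 2 * X + ν⁻¹ ^ 3 * N' ^ 2) (𝓝[>] N) (𝓝 (ν ^ 2 * X + ν⁻¹ ^ 3 * N ^ 2)) := by
    have hc : Continuous fun N' : ℝ => ν ^ 2 * X + ν⁻¹ ^ 3 * N' ^ 2 := by fun_prop
    exact (hc.tendsto N).mono_left nhdsWithin_le_nhds
  refine ge_of_tendsto htend ?_
  filter_upwards [self_mem_nhdsWithin] with N' hN'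
  have hN'' : N < N' := hN'
  exact Hol_alg hX (by linarith) hν h6 (by linarith) h

/-- the elementary inequality -/
theorem Hol_el {w Z c : ℝ} (hw : 0 ≤ w) (hZ : 0 ≤ Z) (hZ1 : Z ≤ 1) (hc : 0 < c) :
    w ^ 2 * Z ^ 16 ≤ c ^ 4 / 5 * (w * Z ^ 10) ^ 6 + 4 / (5 * c) * w := by
  have h1 : w ^ 2 * Z ^ 16 ≤ w ^ 2 * Z ^ 12 := by
    refine mul_le_mul_of_nonneg_left ?_ (sq_nonneg w)
    exact pow_le_pow_of_le_one hZ hZ1 (by norm_num)
  refine h1.trans ?_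
  obtain ⟨ζ, hζ⟩ : ∃ ζ : ℝ, ζ = Z ^ 12 := ⟨_, rfl⟩
  have hζ0 : 0 ≤ ζ := by rw [hζ]; positivity
  have e1 : (w * Z ^ 10) ^ 6 = w ^ 6 * ζ ^ 5 := by rw [hζ]; ring
  rw [e1, ← hζ]
  obtain ⟨y, hy⟩ : ∃ y : ℝ, y = c * w * ζ := ⟨_, rfl⟩
  have hy0 : 0 ≤ y := by rw [hy]; positivity
  have e2 : c ^ 4 / 5 * (w ^ 6 * ζ ^ 5) + 4 / (5 * c) * w - w ^ 2 * ζ =
      w / (5 * c) * ((y - 1) ^ 2 * (y ^ 3 + 2 * y ^ 2 + 3 * y + 4)) := by
    rw [hy]
    field_simp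
    ring
  have e3 : 0 ≤ w / (5 * c) * ((y - 1) ^ 2 * (y ^ 3 + 2 * y ^ 2 + 3 * y + 4)) := by positivity
  linarith

/-- the gradient of `w² Z¹⁸` -/
theorem Hol_grad {w Z : ℝ} {g z : Fin 3 → ℝ} (hw : 0 ≤ w) (hZ : 0 ≤ Z) {s : ℝ} (hs : ∑ i, z i ^ 2 ≤ s ^ 2) (hs0 : 0 ≤ s) :
    √(∑ i, (2 * w * g i * Z ^ 18 + w ^ 2 * (18 * Z ^ 17 * z i)) ^ 2) ≤
      2 * (w * Z ^ 8) * √(∑ i, (g i * Z ^ 10 + w * (10 * Z ^ 9 * z i)) ^ 2) + 2 * s * (w ^ 2 * Z ^ 17) := by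
  obtain ⟨p, hp⟩ : ∃ p : Fin 3 → ℝ, p = fun i => g i * Z ^ 10 + w * (10 * Z ^ 9 * z i) := ⟨_, rfl⟩
  have e1 : ∀ i, 2 * w * g i * Z ^ 18 + w ^ 2 * (18 * Z ^ 17 * z i) =
      2 * (w * Z ^ 8) * p i + (-2 * (w ^ 2 * Z ^ 17)) * z i := by
    intro i
    rw [hp]
    ring
  have e2 : ∑ i, (g i * Z ^ 10 + w * (10 * Z ^ 9 * z i)) ^ 2 = ∑ i, p i ^ 2 := by rw [hp]
  rw [e2]
  simp only [e1]
  have hA : 0 ≤ 2 * (w * Z ^ 8) := by positivity
  have hB : 0 ≤ 2 * (w ^ 2 * Z ^ 17) := by positivity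
  rw [Real.sqrt_le_left (by positivity)]
  have hpp : 0 ≤ ∑ i, p i ^ 2 := Finset.sum_nonneg fun i _ => sq_nonneg _
  have hzz : 0 ≤ ∑ i, z i ^ 2 := Finset.sum_nonneg fun i _ => sq_nonneg _
  have hcs : (∑ i, p i * z i) ^ 2 ≤ (∑ i, p i ^ 2) * ∑ i, z i ^ 2 := Finset.sum_mul_sq_le_sq_mul_sq _ _ _
  have hcs2 : |∑ i, p i * z i| ≤ √(∑ i, p i ^ 2) * s := by
    refine abs_le_of_sq_le_sq ?_ (by positivity)
    rw [mul_pow, Real.sq_sqrt hpp]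
    exact hcs.trans (mul_le_mul_of_nonneg_left hs hpp)
  obtain ⟨A, hAd⟩ : ∃ A : ℝ, A = 2 * (w * Z ^ 8) := ⟨_, rfl⟩
  obtain ⟨B, hBd⟩ : ∃ B : ℝ, B = 2 * (w ^ 2 * Z ^ 17) := ⟨_, rfl⟩
  have e4 : -2 * (w ^ 2 * Z ^ 17) = -B := by rw [hBd]; ring
  rw [e4, ← hAd]
  rw [← hAd] at hA
  rw [← hBd] at hB
  have e5 : ∑ i, (A * p i + -B * z i) ^ 2 = A ^ 2 * (∑ i, p i ^ 2) - 2 * A * B * (∑ i, p i * z i) + B ^ 2 * ∑ i, z i ^ 2 := by
    simp only [Fin.sum_univ_three]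
    ring
  rw [e5]
  have e6 : 2 * s * (w ^ 2 * Z ^ 17) = B * s := by rw [hBd]; ring
  rw [e6]
  have e7 : (A * √(∑ i, p i ^ 2) + B * s) ^ 2 = A ^ 2 * (∑ i, p i ^ 2) + 2 * A * B * (√(∑ i, p i ^ 2) * s) + B ^ 2 * s ^ 2 := by
    have := Real.sq_sqrt hpp
    calc (A * √(∑ i, p i ^ 2) + B * s) ^ 2 = A ^ 2 * (√(∑ i, p i ^ 2)) ^ 2 + 2 * A * B * (√(∑ i, p i ^ 2) * s) + B ^ 2 * s ^ 2 := by ring
      _ = _ := by rw [this]
  rw [e7]
  have hAB : 0 ≤ 2 * A * B := by positivity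
  have h1 : -(2 * A * B * (∑ i, p i * z i)) ≤ 2 * A * B * (√(∑ i, p i ^ 2) * s) := by
    have := mul_le_mul_of_nonneg_left ((neg_le_abs (∑ i, p i * z i)).trans hcs2) hAB
    linarith only [this]
  have h2 : B ^ 2 * ∑ i, z i ^ 2 ≤ B ^ 2 * s ^ 2 := mul_le_mul_of_nonneg_left hs (sq_nonneg _)
  linarith

theorem hol : ∃ C : ℝ, 0 < C ∧ ∀ a b : ℝ, 1/8 ≤ a → a < b → b ≤ 3/4 → ∀ (w P : E3 → ℝ) (B : ℝ), ContDiff ℝ ∞ w → Continuous P →
    0 ≤ B → FB P B → (∀ x ∈ Metric.closedBall (0 : E3) b, 0 ≤ w x) → ∀ κ : ℝ, 0 < κ → κ ≤ (b - a) ^ 2 →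
    ∫ x, (1 + rsq x * P x ^ 2) * w x ^ 2 * zc a b x ^ 18 ≤ κ * (∫ x, gsq (fun y => w y * zc a b y ^ 10) x) +
      C * κ⁻¹ ^ 9 * (1 + B ^ 5) * (∫ x in Metric.ball (0 : E3) b, w x) ^ 2 := by
  obtain ⟨C1, hC1, hz⟩ := zc_pow 2 le_rfl
  have hSB := SB_pos
  obtain ⟨C2, hC2⟩ : ∃ C2 : ℝ, C2 = 6 + C1 := ⟨_, rfl⟩
  have hC20 : 0 < C2 := by rw [hC2]; positivity
  obtain ⟨K, hK⟩ : ∃ K : ℝ, K = 1 + 2 * C2 * SB := ⟨_, rfl⟩
  have hK0 : 0 < K := by rw [hK]; positivity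
  have hK1 : 2 * C2 * SB ≤ K ^ 2 := by
    have h1 : 0 < 2 * C2 * SB := by positivity
    obtain ⟨y, hy⟩ : ∃ y : ℝ, y = 2 * C2 * SB := ⟨_, rfl⟩
    rw [hK, ← hy]
    rw [← hy] at h1
    nlinarith only [h1]
  refine ⟨C2 * K ^ 3 * 16, by positivity, ?_⟩
  intro a b ha hab hb w P B hw hP hB hFB hwn κ hκ hκd
  have ha0 : 0 < a := by linarith
  have hd : 0 < b - a := by linarith
  have hd1 : b - a ≤ 1 := by linarith
  have hκ1 : κ ≤ 1 := hκd.trans (pow_le_one₀ hd.le hd1)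
  have hZs : ContDiff ℝ ∞ (zc a b) := zc_smooth a b
  have hZc : Continuous (zc a b) := hZs.continuous
  have hwc : Continuous w := hw.continuous
  have hvs : ContDiff ℝ ∞ (fun y => w y * zc a b y ^ 10) := hw.mul ((zc_smooth a b).pow 10)
  have hvc : HasCompactSupport (fun y => w y * zc a b y ^ 10) :=
    (zc_supp ha0 hab (by norm_num : (10 : ℕ) ≠ 0)).1.mul_left
  have hout : ∀ x : E3, b ≤ ‖x‖ → zc a b x = 0 := fun x hx => zc_zero ha0 hab hx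
  have hZ0 : ∀ x, 0 ≤ zc a b x := zc_nonneg a b
  have hZ1 : ∀ x, zc a b x ≤ 1 := zc_le a b
  obtain ⟨K', hK'⟩ := Hol_DB (hvs.of_le (by simp)) hvc
  obtain ⟨hV6i, hV6⟩ := SB_spec (hvs.of_le (by simp)) hK'
  obtain ⟨D, hD⟩ : ∃ D : ℝ, D = ∫ x, gsq (fun y => w y * zc a b y ^ 10) x := ⟨_, rfl⟩
  have hD0 : 0 ≤ D := by
    rw [hD]
    exact integral_nonneg fun x => gsq_nonneg _ x
  have hV60 : 0 ≤ ∫ x, (w x * zc a b x ^ 10) ^ 6 := integral_nonneg fun x => Even.pow_nonneg (by decide) _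
  have hV63 : ∫ x, (w x * zc a b x ^ 10) ^ 6 ≤ (SB * D) ^ 3 := by
    rw [← hD] at hV6
    have h1 := pow_le_pow_left₀ (Real.rpow_nonneg hV60 _) hV6 3
    refine le_trans (le_of_eq ?_) h1
    rw [← Real.rpow_natCast, ← Real.rpow_mul hV60]
    norm_num
  have hwb : ∀ x : E3, ‖x‖ < b → 0 ≤ w x := fun x hx => hwn x (by rw [mem_closedBall_zero_iff]; exact hx.le)
  -- the functions
  have hf16c : Continuous fun x => w x ^ 2 * zc a b x ^ 16 := (hwc.pow 2).mul (hZc.pow 16)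
  have hf16i : Integrable fun x => w x ^ 2 * zc a b x ^ 16 := MoA_intc (b := b) hf16c fun x hx => by
    rw [hout x hx.le]; norm_num
  obtain ⟨J, hJ⟩ : ∃ J : ℝ, J = ∫ x, w x ^ 2 * zc a b x ^ 16 := ⟨_, rfl⟩
  have hJ0 : 0 ≤ J := by
    rw [hJ]
    exact integral_nonneg fun x => mul_nonneg (sq_nonneg _) (pow_nonneg (hZ0 x) _)
  obtain ⟨Y, hY⟩ : ∃ Y : ℝ, Y = ∫ x in Metric.ball (0 : E3) b, w x := ⟨_, rfl⟩
  have hY0 : 0 ≤ Y := by
    rw [hY]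
    exact setIntegral_nonneg measurableSet_ball fun x hx => hwb x (by rwa [mem_ball_zero_iff] at hx)
  -- interpolation
  have hint : ∀ ν : ℝ, 0 < ν → J ≤ ν ^ 2 * (SB * D) + ν⁻¹ ^ 3 * Y ^ 2 := by
    intro ν hν
    refine Hol_alg0 (by positivity) hY0 hν hV63 (le_of_eq hY.symm) fun c hc => ?_
    have hwi : IntegrableOn w (Metric.ball (0 : E3) b) := Hol_int hwc b
    have e1 : J = ∫ x in Metric.ball (0 : E3) b, w x ^ 2 * zc a b x ^ 16 := by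
      rw [hJ]
      refine (setIntegral_eq_integral_of_forall_compl_eq_zero fun x hx => ?_).symm
      rw [mem_ball_zero_iff, not_lt] at hx
      rw [hout x hx]; norm_num
    have e2 : ∫ x in Metric.ball (0 : E3) b, (w x * zc a b x ^ 10) ^ 6 ≤ ∫ x, (w x * zc a b x ^ 10) ^ 6 :=
      setIntegral_le_integral hV6i (Eventually.of_forall fun x => Even.pow_nonneg (by decide) _)
    calc J = ∫ x in Metric.ball (0 : E3) b, w x ^ 2 * zc a b x ^ 16 := e1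
      _ ≤ ∫ x in Metric.ball (0 : E3) b, (c ^ 4 / 5 * (w x * zc a b x ^ 10) ^ 6 + 4 / (5 * c) * w x) := by
          refine setIntegral_mono_on hf16i.integrableOn ((hV6i.integrableOn.const_mul _).add (hwi.const_mul _))
            measurableSet_ball fun x hx => ?_
          exact Hol_el (hwb x (by rwa [mem_ball_zero_iff] at hx)) (hZ0 x) (hZ1 x) hc
      _ = c ^ 4 / 5 * (∫ x in Metric.ball (0 : E3) b, (w x * zc a b x ^ 10) ^ 6) +
          4 / (5 * c) * ∫ x in Metric.ball (0 : E3) b, w x := by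
          rw [integral_add (hV6i.integrableOn.const_mul _) (hwi.const_mul _), integral_const_mul, integral_const_mul]
      _ ≤ _ := by gcongr
  -- the form bound
  have hfs : ContDiff ℝ ∞ (fun x => w x ^ 2 * zc a b x ^ 18) := (hw.pow 2).mul (hZs.pow 18)
  have hfc : HasCompactSupport (fun x => w x ^ 2 * zc a b x ^ 18) :=
    (zc_supp ha0 hab (by norm_num : (18 : ℕ) ≠ 0)).1.mul_left
  have hf0 : ∀ x, 0 ≤ w x ^ 2 * zc a b x ^ 18 := fun x => mul_nonneg (sq_nonneg _) (pow_nonneg (hZ0 x) _)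
  have hform := hFB (fun x => w x ^ 2 * zc a b x ^ 18) (hfs.of_le (by simp)) hfc
    (fun x hx => by rw [hout x (by linarith)]; norm_num) hf0
  obtain ⟨s, hsd⟩ : ∃ s : ℝ, s = √C1 / (b - a) := ⟨_, rfl⟩
  have hs0 : 0 ≤ s := by rw [hsd]; positivity
  have hs2 : s ^ 2 = C1 / (b - a) ^ 2 := by rw [hsd, div_pow, Real.sq_sqrt hC1.le]
  have hgZ : ∀ x, gsq (zc a b) x ≤ s ^ 2 := fun x => by
    rw [hs2]
    exact (hz a b ha hab (by linarith) x).1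
  obtain ⟨lam, hlam⟩ : ∃ lam : ℝ, lam = κ / 4 := ⟨_, rfl⟩
  have hlam0 : 0 < lam := by rw [hlam]; positivity
  have hwd : ∀ x, DifferentiableAt ℝ w x := fun x => (hw.differentiable (by simp)) x
  have hZd : ∀ x, DifferentiableAt ℝ (zc a b) x := fun x => MoA_zd x
  have hZpd : ∀ (k : ℕ) (x : E3), DifferentiableAt ℝ (fun y => zc a b y ^ k) x := fun k x =>
    (MoA_zpow k).differentiable (by simp) x
  have hpdf : ∀ i x, pd i (fun x => w x ^ 2 * zc a b x ^ 18) x =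
      2 * w x * pd i w x * zc a b x ^ 18 + w x ^ 2 * (18 * zc a b x ^ 17 * pd i (zc a b) x) := by
    intro i x
    rw [MoA_mul ((hw.pow 2).differentiable (by simp) x) (hZpd 18 x), MoA_pow (hZd x) 18 i]
    have h2 : pd i (fun y => w y ^ 2) x = 2 * w x * pd i w x := by
      have e : (fun y => w y ^ 2) = fun y => w y * w y := by funext y; ring
      rw [e, MoA_mul (hwd x) (hwd x)]
      ring
    rw [h2]
    push_cast
    ring
  have hpdv : ∀ i x, pd i (fun x => w x * zc a b x ^ 10) x =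
      pd i w x * zc a b x ^ 10 + w x * (10 * zc a b x ^ 9 * pd i (zc a b) x) := by
    intro i x
    rw [MoA_mul (hwd x) (hZpd 10 x), MoA_pow (hZd x) 10 i]
    push_cast
    ring
  have hpt : ∀ x, B * √(gsq (fun x => w x ^ 2 * zc a b x ^ 18) x) ≤
      lam * gsq (fun y => w y * zc a b y ^ 10) x + (lam⁻¹ * B ^ 2 + 2 * B * s) * (w x ^ 2 * zc a b x ^ 16) := by
    intro x
    by_cases hx : ‖x‖ < b
    · have hw0 := hwb x hx
      have h1 := Hol_grad (w := w x) (Z := zc a b x) (g := fun i => pd i w x) (z := fun i => pd i (zc a b) x) hw0 (hZ0 x)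
        (s := s) (hgZ x) hs0
      have e1 : gsq (fun x => w x ^ 2 * zc a b x ^ 18) x =
          ∑ i, (2 * w x * pd i w x * zc a b x ^ 18 + w x ^ 2 * (18 * zc a b x ^ 17 * pd i (zc a b) x)) ^ 2 := by
        unfold gsq
        exact Finset.sum_congr rfl fun i _ => by rw [hpdf i x]
      have e2 : gsq (fun x => w x * zc a b x ^ 10) x =
          ∑ i, (pd i w x * zc a b x ^ 10 + w x * (10 * zc a b x ^ 9 * pd i (zc a b) x)) ^ 2 := by
        unfold gsq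
        exact Finset.sum_congr rfl fun i _ => by rw [hpdv i x]
      rw [← e1, ← e2] at h1
      obtain ⟨q, hq⟩ : ∃ q : ℝ, q = √(gsq (fun x => w x * zc a b x ^ 10) x) := ⟨_, rfl⟩
      have hq2 : q ^ 2 = gsq (fun x => w x * zc a b x ^ 10) x := by rw [hq, Real.sq_sqrt (gsq_nonneg _ _)]
      rw [← hq] at h1
      rw [← hq2]
      have h2 := mul_le_mul_of_nonneg_left h1 hB
      refine h2.trans ?_
      obtain ⟨m, hm⟩ : ∃ m : ℝ, m = w x * zc a b x ^ 8 := ⟨_, rfl⟩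
      have hm2 : w x ^ 2 * zc a b x ^ 16 = m ^ 2 := by rw [hm]; ring
      have h17 : w x ^ 2 * zc a b x ^ 17 ≤ m ^ 2 := by
        rw [← hm2]
        exact mul_le_mul_of_nonneg_left (pow_le_pow_of_le_one (hZ0 x) (hZ1 x) (by norm_num)) (sq_nonneg _)
      rw [hm2, ← hm]
      have h3 : B * (2 * m * q) ≤ lam * q ^ 2 + lam⁻¹ * B ^ 2 * m ^ 2 := by
        have e3 : lam * q ^ 2 + lam⁻¹ * B ^ 2 * m ^ 2 - B * (2 * m * q) = lam⁻¹ * (lam * q - B * m) ^ 2 := by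
          field_simp
          ring
        have e4 : 0 ≤ lam⁻¹ * (lam * q - B * m) ^ 2 := by positivity
        linarith only [e3, e4]
      have h4 : B * (2 * s * (w x ^ 2 * zc a b x ^ 17)) ≤ 2 * B * s * m ^ 2 := by
        have e5 : 0 ≤ 2 * B * s := by positivity
        have e6 := mul_le_mul_of_nonneg_left h17 e5
        linarith only [e6]
      linarith only [h3, h4]
    · have hx' : b ≤ ‖x‖ := not_lt.1 hx
      have h0 := hout x hx'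
      have e1 : gsq (fun x => w x ^ 2 * zc a b x ^ 18) x = 0 := by
        unfold gsq
        refine Finset.sum_eq_zero fun i _ => ?_
        rw [hpdf i x, h0]
        norm_num
      rw [e1, h0, Real.sqrt_zero, mul_zero]
      have := gsq_nonneg (fun y => w y * zc a b y ^ 10) x
      positivity
  have hgvi : Integrable fun x => gsq (fun y => w y * zc a b y ^ 10) x := by
    refine MoA_intc (b := b) (MoA_gsq_cont hvs) fun x hx => ?_
    unfold gsq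
    refine Finset.sum_eq_zero fun i _ => ?_
    rw [hpdv i x, hout x hx.le]
    norm_num
  have hform2 : ∫ x, rsq x * P x ^ 2 * (w x ^ 2 * zc a b x ^ 18) ≤ lam * D + (lam⁻¹ * B ^ 2 + 2 * B * s) * J := by
    refine hform.trans ?_
    rw [hD, hJ, ← integral_const_mul, ← integral_const_mul, ← integral_const_mul,
      ← integral_add (hgvi.const_mul _) (hf16i.const_mul _)]
    refine integral_mono_of_nonneg (Eventually.of_forall fun x => mul_nonneg hB (Real.sqrt_nonneg _))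
      ((hgvi.const_mul _).add (hf16i.const_mul _)) (Eventually.of_forall hpt)
  have hf18i : Integrable fun x => w x ^ 2 * zc a b x ^ 18 := hfs.continuous.integrable_of_hasCompactSupport hfc
  have hVfi : Integrable fun x => rsq x * P x ^ 2 * (w x ^ 2 * zc a b x ^ 18) :=
    ((MoA_rsq_cont.mul (hP.pow 2)).mul hfs.continuous).integrable_of_hasCompactSupport hfc.mul_left
  have h18 : ∫ x, w x ^ 2 * zc a b x ^ 18 ≤ J := by
    rw [hJ]
    refine integral_mono hf18i hf16i fun x => ?_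
    exact mul_le_mul_of_nonneg_left (pow_le_pow_of_le_one (hZ0 x) (hZ1 x) (by norm_num)) (sq_nonneg _)
  have htot : ∫ x, (1 + rsq x * P x ^ 2) * w x ^ 2 * zc a b x ^ 18 ≤ lam * D + (1 + lam⁻¹ * B ^ 2 + 2 * B * s) * J := by
    have e1 : ∫ x, (1 + rsq x * P x ^ 2) * w x ^ 2 * zc a b x ^ 18 =
        (∫ x, w x ^ 2 * zc a b x ^ 18) + ∫ x, rsq x * P x ^ 2 * (w x ^ 2 * zc a b x ^ 18) := by
      rw [← integral_add hf18i hVfi]
      congr 1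
      funext x
      ring
    rw [e1]
    linarith
  -- constants
  have hBs : 2 * B * s ≤ κ⁻¹ * B ^ 2 + C1 := by
    have h1 : 2 * B * s = 2 * (B / (b - a)) * √C1 := by
      rw [hsd]
      ring
    have h2 : 2 * (B / (b - a)) * √C1 ≤ (B / (b - a)) ^ 2 + C1 := by
      have := two_mul_le_add_sq (B / (b - a)) (√C1)
      rw [Real.sq_sqrt hC1.le] at this
      exact this
    have h3 : (B / (b - a)) ^ 2 ≤ κ⁻¹ * B ^ 2 := by
      rw [div_pow, div_eq_inv_mul]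
      exact mul_le_mul_of_nonneg_right (inv_anti₀ hκ hκd) (sq_nonneg _)
    rw [h1]
    linarith only [h2, h3]
  have hκi : 1 ≤ κ⁻¹ := (one_le_inv₀ hκ).2 hκ1
  have hN : 1 + lam⁻¹ * B ^ 2 + 2 * B * s ≤ C2 * (1 + B ^ 2) * κ⁻¹ := by
    have h1 : lam⁻¹ = 4 * κ⁻¹ := by rw [hlam, inv_div]; ring
    rw [h1, hC2]
    have h2 : 1 + C1 ≤ (6 + C1) * κ⁻¹ := by nlinarith only [hC1, hκi]
    have h3 : 4 * κ⁻¹ * B ^ 2 + κ⁻¹ * B ^ 2 ≤ (6 + C1) * B ^ 2 * κ⁻¹ := by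
      have h5 : 0 ≤ κ⁻¹ * B ^ 2 := by positivity
      linarith only [mul_nonneg hC1.le h5, h5]
    linarith only [hBs, h2, h3]
  obtain ⟨ν, hν⟩ : ∃ ν : ℝ, ν = κ / (K * (1 + B)) := ⟨_, rfl⟩
  have hB1 : 0 < 1 + B := by linarith
  have hν0 : 0 < ν := by rw [hν]; positivity
  have hJb := hint ν hν0
  have h5 : C2 * (1 + B ^ 2) * κ⁻¹ * (ν ^ 2 * (SB * D)) ≤ κ / 2 * D := by
    have e1 : C2 * (1 + B ^ 2) * κ⁻¹ * (ν ^ 2 * (SB * D)) = (2 * C2 * SB) * ((1 + B ^ 2) / (1 + B) ^ 2) / K ^ 2 * (κ / 2 * D) := by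
      rw [hν]
      field_simp
    rw [e1]
    have e2 : (1 + B ^ 2) / (1 + B) ^ 2 ≤ 1 := by
      rw [div_le_one (by positivity)]
      linarith only [hB]
    have e3 : (2 * C2 * SB) * ((1 + B ^ 2) / (1 + B) ^ 2) / K ^ 2 ≤ 1 := by
      rw [div_le_one (by positivity)]
      have h9 : 0 < 2 * C2 * SB := by positivity
      have h10 := mul_le_mul_of_nonneg_left e2 h9.le
      linarith only [h10, hK1]
    have e4 : 0 ≤ κ / 2 * D := by positivity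
    exact mul_le_of_le_one_left e4 e3
  have h6 : C2 * (1 + B ^ 2) * κ⁻¹ * (ν⁻¹ ^ 3 * Y ^ 2) ≤ C2 * K ^ 3 * 16 * κ⁻¹ ^ 9 * (1 + B ^ 5) * Y ^ 2 := by
    have e1 : C2 * (1 + B ^ 2) * κ⁻¹ * (ν⁻¹ ^ 3 * Y ^ 2) = C2 * K ^ 3 * ((1 + B ^ 2) * (1 + B) ^ 3) * κ⁻¹ ^ 4 * Y ^ 2 := by
      rw [hν]
      field_simp
    rw [e1]
    have e2 : (1 + B ^ 2) * (1 + B) ^ 3 ≤ 16 * (1 + B ^ 5) := by
      have h7 := Hol_five hB
      have h8 : (1 + B ^ 2) * (1 + B) ^ 3 ≤ (1 + B) ^ 5 := by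
        have : 1 + B ^ 2 ≤ (1 + B) ^ 2 := by linarith only [hB]
        calc (1 + B ^ 2) * (1 + B) ^ 3 ≤ (1 + B) ^ 2 * (1 + B) ^ 3 := by gcongr
          _ = _ := by ring
      linarith only [h7, h8]
    have e3 : κ⁻¹ ^ 4 ≤ κ⁻¹ ^ 9 := pow_le_pow_right₀ hκi (by norm_num)
    calc C2 * K ^ 3 * ((1 + B ^ 2) * (1 + B) ^ 3) * κ⁻¹ ^ 4 * Y ^ 2 ≤ C2 * K ^ 3 * (16 * (1 + B ^ 5)) * κ⁻¹ ^ 9 * Y ^ 2 := by gcongr
      _ = _ := by ring
  rw [← hD, ← hY]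
  have h7 : (1 + lam⁻¹ * B ^ 2 + 2 * B * s) * J ≤ C2 * (1 + B ^ 2) * κ⁻¹ * (ν ^ 2 * (SB * D) + ν⁻¹ ^ 3 * Y ^ 2) :=
    mul_le_mul hN hJb hJ0 (by positivity)
  have h8 : lam * D ≤ κ / 2 * D := by
    have h9 := mul_nonneg hκ.le hD0
    rw [hlam]
    linarith only [h9]
  rw [mul_add] at h7
  linarith

end Pool.Agent.H90.AX
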