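/-
The energy inequality for powers, under a form bound.
-/
import Pool.Agent.H90.AX.Hol

set_option autoImplicit false

open Set Filter Topology MeasureTheory
open scoped ContDiff

namespace Pool.Agent.H90.AX

open Pool.Agent.H16 Pool.Agent.H87.NS Pool.Agent.H72.CC

theorem moA : ∃ C : ℝ, 0 < C ∧ ∀ a b : ℝ, 1/8 ≤ a → a < b → b ≤ 3/4 → ∀ (F : ℝ → ℝ) (G P : E3 → ℝ) (B : ℝ) (n : ℕ), 1 ≤ n →
    ContDiff ℝ ∞ F → ContDiff ℝ ∞ G → Continuous P → 0 ≤ B → FB P B →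
    (∀ x ∈ Metric.closedBall (0 : E3) b, 0 ≤ F (G x) ∧ 0 ≤ deriv (deriv F) (G x)) →
    En (fun s => F s ^ (2 * n)) G P (fun x => zc a b x ^ 20) ≤
      - (1/4) * (∫ x, gsq (fun y => F (G y) ^ n * zc a b y ^ 10) x) +
      C * (b - a)⁻¹ ^ 20 * (1 + B ^ 5) * (∫ x in Metric.ball (0 : E3) b, F (G x) ^ n) ^ 2 := by
  obtain ⟨C1, hC1, h1⟩ := zc_pow 10 (by norm_num)
  obtain ⟨C2', hC2', h2'⟩ := zc_pow 20 (by norm_num)
  obtain ⟨C2, hC2e⟩ : ∃ C2 : ℝ, C2 = C2' + 1 := ⟨_, rfl⟩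
  have hC2 : 0 < C2 := by linarith
  have h2 : ∀ a b : ℝ, 1/8 ≤ a → a < b → b ≤ 1 → ∀ x : E3,
      |lap (fun y => zc a b y ^ 20) x| ≤ C2 / (b - a) ^ 2 * zc a b x ^ 18 ∧
      rdr (fun y => zc a b y ^ 20) x ≤ 0 ∧ |rdr (fun y => zc a b y ^ 20) x| ≤ C2 / (b - a) * rsq x := by
    intro a b ha hab hb x
    obtain ⟨-, -, g3, g4, g5⟩ := h2' a b ha hab hb x
    have hd : 0 < b - a := by linarith
    have hle : C2' ≤ C2 := by linarith
    refine ⟨g3.trans ?_, g4, g5.trans ?_⟩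
    · refine mul_le_mul_of_nonneg_right ?_ (pow_nonneg (zc_nonneg a b x) _)
      exact div_le_div_of_nonneg_right hle (by positivity)
    · refine mul_le_mul_of_nonneg_right ?_ (Hol_rsq_nonneg x)
      exact div_le_div_of_nonneg_right hle hd.le
  obtain ⟨C3, hC3, h3⟩ := hol
  refine ⟨C3 * 4 ^ 9 * (C2 + 5 * C1) ^ 10, by positivity, ?_⟩
  intro a b ha hab hb F G P B n hn hF hG hP hB hFB hpos
  obtain ⟨m, rfl⟩ : ∃ m, n = m + 1 := ⟨n - 1, by omega⟩
  have ha0 : 0 < a := by linarith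
  have hd : 0 < b - a := by linarith
  have hb1 : b ≤ 1 := by linarith
  have q1 := fun x => (h1 a b ha hab hb1 x).2.1
  have q2 := fun x => (h2 a b ha hab hb1 x).1
  have q3 := fun x => (h2 a b ha hab hb1 x).2.1
  have q4 := fun x => (h2 a b ha hab hb1 x).2.2
  have hpt := fun x => MoA_pt (P := P) m hF hG ha0 hab hC1.le hC2.le x (hpos x) (q2 x) (q3 x) (q1 x)
  have hη : ContDiff ℝ ∞ (fun y => zc a b y ^ 20) := MoA_zpow 20
  have hζ : ContDiff ℝ ∞ (fun y => zc a b y ^ 10) := MoA_zpow 10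
  have hw : ContDiff ℝ ∞ (fun y => F (G y) ^ (m + 1)) := (hF.comp hG).pow (m + 1)
  have hv : ContDiff ℝ ∞ (fun y => F (G y) ^ (m + 1) * zc a b y ^ 10) := hw.mul hζ
  -- outside the ball
  have o1 : ∀ x : E3, b < ‖x‖ → zc a b x = 0 := fun x hx => zc_zero ha0 hab hx.le
  have o2 : ∀ x : E3, b < ‖x‖ → ∀ i, pd i (fun y => zc a b y ^ 20) x = 0 := by
    intro x hx i
    rw [MoA_pow (MoA_zd x) 20 i, o1 x hx]
    norm_num
  have o3 : ∀ x : E3, b < ‖x‖ → lap (fun y => zc a b y ^ 20) x = 0 := by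
    intro x hx
    have h := q2 x
    rw [o1 x hx] at h
    norm_num at h
    exact h
  have o4 : ∀ x : E3, b < ‖x‖ → rdr (fun y => zc a b y ^ 20) x = 0 := by
    intro x hx
    unfold rdr
    rw [o2 x hx, o2 x hx]
    ring
  have o5 : ∀ x : E3, b < ‖x‖ → crs G (fun y => zc a b y ^ 20) x = 0 := by
    intro x hx
    unfold crs
    rw [o4 x hx, o2 x hx]
    ring
  have o6 : ∀ x : E3, b < ‖x‖ → gsq (fun y => F (G y) ^ (m + 1) * zc a b y ^ 10) x = 0 := by
    intro x hx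
    have hp : ∀ i, pd i (fun y => F (G y) ^ (m + 1) * zc a b y ^ 10) x = 0 := by
      intro i
      rw [MoA_mul (hw.differentiable (by simp) x) (hζ.differentiable (by simp) x), MoA_pow (MoA_zd x) 10 i,
        o1 x hx]
      norm_num
    rw [MoA_gsq, hp, hp, hp]
    norm_num
  -- integrability
  have hF2 : ContDiff ℝ ∞ (fun s => F s ^ (2 * (m + 1))) := hF.pow _
  have hF2' : ContDiff ℝ ∞ (deriv (fun s => F s ^ (2 * (m + 1)))) := by
    have h : ContDiff ℝ ((⊤ : ℕ∞) + 1) (fun s => F s ^ (2 * (m + 1))) := by simpa using hF2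
    exact (contDiff_succ_iff_deriv.1 h).2.2
  have hF2'' : ContDiff ℝ ∞ (deriv (deriv (fun s => F s ^ (2 * (m + 1))))) := by
    have h : ContDiff ℝ ((⊤ : ℕ∞) + 1) (deriv (fun s => F s ^ (2 * (m + 1)))) := by simpa using hF2'
    exact (contDiff_succ_iff_deriv.1 h).2.2
  have i1 : Integrable (fun x => - deriv (deriv (fun s => F s ^ (2 * (m + 1)))) (G x) * gsq G x * zc a b x ^ 20 +
      F (G x) ^ (2 * (m + 1)) * lap (fun y => zc a b y ^ 20) x +
      P x * deriv (fun s => F s ^ (2 * (m + 1))) (G x) * crs G (fun y => zc a b y ^ 20) x) := by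
    refine MoA_intc (b := b) ?_ ?_
    · exact (((((hF2''.continuous.comp hG.continuous).neg).mul (MoA_gsq_cont hG)).mul hη.continuous).add
        ((hF2.continuous.comp hG.continuous).mul (MoA_lap_cont hη))).add
        ((hP.mul (hF2'.continuous.comp hG.continuous)).mul (MoA_crs_cont hG hη))
    · intro x hx
      rw [o1 x hx, o3 x hx, o5 x hx]
      norm_num
  have hrs : ∀ x : E3, 0 ≤ rsq x := by
    intro x
    unfold rsq
    positivity
  have i2 : Integrable (fun x => F (G x) ^ (2 * (m + 1)) * (2 / rsq x * rdr (fun y => zc a b y ^ 20) x)) := by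
    refine MoA_int (f := fun x => F (G x) ^ (2 * (m + 1))) (b := b) (K := 2 * (C2 / (b - a)))
      (h := fun x => 2 / rsq x * rdr (fun y => zc a b y ^ 20) x)
      (hF2.continuous.comp hG.continuous) ?_ ?_ ?_ (fun x => rfl) (by positivity)
    · exact (measurable_const.div MoA_rsq_cont.measurable).mul (MoA_rdr_cont hη).measurable
    · intro x hx
      rw [o4 x hx]
      ring
    · intro x
      rcases (hrs x).lt_or_eq with h | h
      · rw [abs_mul, abs_of_nonneg (by positivity)]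
        calc 2 / rsq x * |rdr (fun y => zc a b y ^ 20) x| ≤ 2 / rsq x * (C2 / (b - a) * rsq x) :=
              mul_le_mul_of_nonneg_left (q4 x) (by positivity)
          _ = 2 * (C2 / (b - a)) := by field_simp
      · rw [← h]
        norm_num
        positivity
  have i3 : Integrable (fun x => gsq (fun y => F (G y) ^ (m + 1) * zc a b y ^ 10) x) :=
    MoA_intc (b := b) (MoA_gsq_cont hv) o6
  have i4 : Integrable (fun x => (1 + rsq x * P x ^ 2) * (F (G x) ^ (m + 1)) ^ 2 * zc a b x ^ 18) := by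
    refine MoA_intc (b := b) ?_ ?_
    · exact ((continuous_const.add (MoA_rsq_cont.mul (hP.pow 2))).mul (hw.continuous.pow 2)).mul
        (MoA_zpow 18).continuous
    · intro x hx
      rw [o1 x hx]
      norm_num
  have hle : En (fun s => F s ^ (2 * (m + 1))) G P (fun x => zc a b x ^ 20) ≤
      ∫ x, (-(1 / 2) * gsq (fun y => F (G y) ^ (m + 1) * zc a b y ^ 10) x +
      ((C2 + 5 * C1) / (b - a) ^ 2) * ((1 + rsq x * P x ^ 2) * (F (G x) ^ (m + 1)) ^ 2 * zc a b x ^ 18)) := by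
    unfold En
    refine integral_mono ?_ ((i3.const_mul _).add (i4.const_mul _)) hpt
    refine (i1.add i2).congr (Filter.Eventually.of_forall fun x => ?_)
    simp only [Pi.add_apply]
    ring
  rw [integral_add (i3.const_mul _) (i4.const_mul _), integral_const_mul, integral_const_mul] at hle
  have hC4 : 0 < C2 + 5 * C1 := by positivity
  have hC41 : 1 ≤ 4 * (C2 + 5 * C1) := by linarith
  have h5 := h3 a b ha hab hb (fun x => F (G x) ^ (m + 1)) P B hw hP hB hFB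
    (fun x hx => pow_nonneg (hpos x hx).1 _) ((b - a) ^ 2 / (4 * (C2 + 5 * C1))) (by positivity)
    (div_le_self (by positivity) hC41)
  obtain ⟨D, hD⟩ : ∃ D, D = ∫ x, gsq (fun y => F (G y) ^ (m + 1) * zc a b y ^ 10) x := ⟨_, rfl⟩
  obtain ⟨Y, hY⟩ : ∃ Y, Y = ∫ x in Metric.ball (0 : E3) b, F (G x) ^ (m + 1) := ⟨_, rfl⟩
  obtain ⟨I, hI⟩ : ∃ I, I = ∫ x, (1 + rsq x * P x ^ 2) * (F (G x) ^ (m + 1)) ^ 2 * zc a b x ^ 18 := ⟨_, rfl⟩
  rw [← hD, ← hI] at hle
  rw [← hD, ← hY, ← hI] at h5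
  rw [← hD, ← hY]
  have h6 : (C2 + 5 * C1) / (b - a) ^ 2 * I ≤ (C2 + 5 * C1) / (b - a) ^ 2 *
      ((b - a) ^ 2 / (4 * (C2 + 5 * C1)) * D +
      C3 * ((b - a) ^ 2 / (4 * (C2 + 5 * C1)))⁻¹ ^ 9 * (1 + B ^ 5) * Y ^ 2) :=
    mul_le_mul_of_nonneg_left h5 (by positivity)
  have h7 : (C2 + 5 * C1) / (b - a) ^ 2 *
      ((b - a) ^ 2 / (4 * (C2 + 5 * C1)) * D +
      C3 * ((b - a) ^ 2 / (4 * (C2 + 5 * C1)))⁻¹ ^ 9 * (1 + B ^ 5) * Y ^ 2) =
      1 / 4 * D + C3 * 4 ^ 9 * (C2 + 5 * C1) ^ 10 * (b - a)⁻¹ ^ 20 * (1 + B ^ 5) * Y ^ 2 := by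
    have hd' := hd.ne'
    have hC4' := hC4.ne'
    rw [inv_div]
    field_simp
  rw [h7] at h6
  linarith

end Pool.Agent.H90.AX
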