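/-
One step of the iteration, under a form bound.
-/
import Pool.Agent.H90.AX.MoA
import Pool.Agent.H72.CC.En1

set_option autoImplicit false

open Set Filter Topology MeasureTheory
open scoped ContDiff

namespace Pool.Agent.H90.AX

open Pool.Agent.H16 Pool.Agent.H87.NS Pool.Agent.H72.CC

private theorem MoB_BL {f : E3 → ℝ} (hf : Continuous f) (hc : HasCompactSupport f) : ∃ K, BL K f := by
  obtain ⟨K, hK⟩ := hf.bounded_above_of_compact_support hc
  have h2 : Integrable (fun x => f x ^ 2) := by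
    refine (hf.pow 2).integrable_of_hasCompactSupport ?_
    have h3 : f ^ 2 = f * f := pow_two f
    rw [h3]
    exact hc.mul_right
  refine ⟨max K (∫ x, f x ^ 2), fun x => ?_, h2, le_max_right _ _⟩
  have h4 := hK x
  rw [Real.norm_eq_abs] at h4
  exact h4.trans (le_max_left _ _)

private theorem MoB_DB {f : E3 → ℝ} (hf : ContDiff ℝ 1 f) (hc : HasCompactSupport f) : ∃ K, DB 1 K f := by
  obtain ⟨K, hK⟩ := MoB_BL hf.continuous hc
  have h1 : ∀ i, ∃ K, BL K (pd i f) := by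
    intro i
    refine MoB_BL (pd_cont hf i) ?_
    have h2 : HasCompactSupport (fun x => fderiv ℝ f x (e i)) := hc.fderiv_apply ℝ (e i)
    exact h2
  choose K' hK' using h1
  have hK0 := BL_nonneg hK
  have hK'0 : ∀ i, 0 ≤ K' i := fun i => BL_nonneg (hK' i)
  have hsum : ∀ i, K' i ≤ ∑ j, K' j := fun i =>
    Finset.single_le_sum (fun j _ => hK'0 j) (Finset.mem_univ i)
  have hs0 : 0 ≤ ∑ j, K' j := Finset.sum_nonneg (fun j _ => hK'0 j)
  refine ⟨K + ∑ j, K' j, BL_mono hK (by linarith), fun i => ?_⟩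
  exact BL_mono (hK' i) (by linarith [hsum i])

/-- the elementary inequality -/
private theorem MoB_el {y : ℝ} (hy : 0 ≤ y) : y ^ 2 ≤ (y ^ 6 + 4 * y) / 5 := by
  have h : 0 ≤ y * ((y - 1) ^ 2 * (y ^ 3 + 2 * y ^ 2 + 3 * y + 4)) := by positivity
  nlinarith

/-- interpolation between the sixth and the first power -/
private theorem MoB_int {v : E3 → ℝ} (hv : ContDiff ℝ ∞ v) (hc : HasCompactSupport v) (h0 : ∀ x, 0 ≤ v x) {N : ℝ}
    (hN : 0 ≤ N) (hvN : ∫ x, v x ≤ N) {ν : ℝ} (hν : 0 < ν) :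
    ∫ x, v x ^ 2 ≤ ν ^ 2 * (SB * ∫ x, gsq v x) + ν⁻¹ ^ 3 * N ^ 2 := by
  have hS := SB_pos
  obtain ⟨K, hK⟩ := MoB_DB (hv.of_le (by simp)) hc
  obtain ⟨h6, hs⟩ := SB_spec (hv.of_le (by simp)) hK
  have hD : 0 ≤ ∫ x, gsq v x := integral_nonneg fun x => gsq_nonneg v x
  have h1 : Integrable v := hv.continuous.integrable_of_hasCompactSupport hc
  have h2 : Integrable (fun x => v x ^ 2) := (DB_BL hK).2.1
  set X : ℝ := SB * ∫ x, gsq v x with hX
  have hX0 : 0 ≤ X := by positivity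
  have hI6 : 0 ≤ ∫ x, v x ^ 6 := integral_nonneg fun x => by positivity
  have h6X : ∫ x, v x ^ 6 ≤ X ^ 3 := by
    have h3 : ((∫ x, v x ^ 6) ^ (1/3 : ℝ)) ^ 3 = ∫ x, v x ^ 6 := by
      rw [← Real.rpow_natCast, ← Real.rpow_mul hI6]
      norm_num
    rw [← h3]
    exact pow_le_pow_left₀ (Real.rpow_nonneg hI6 _) hs 3
  rcases hN.eq_or_lt with h | h
  · have h3 : ∫ x, v x = 0 := le_antisymm (by rw [h]; exact hvN) (integral_nonneg h0)
    rw [integral_eq_zero_iff_of_nonneg h0 h1] at h3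
    have h4 : ∫ x, v x ^ 2 = 0 := by
      rw [integral_eq_zero_iff_of_nonneg (fun x => by positivity) h2]
      filter_upwards [h3] with x hx
      simp only [Pi.zero_apply] at hx ⊢
      rw [hx]
      norm_num
    rw [h4]
    positivity
  · set W : ℝ := ν ^ 2 * X + ν⁻¹ ^ 3 * N ^ 2 with hW
    have hW0 : 0 < W := by positivity
    set c : ℝ := N / W with hc'
    have hc0 : 0 < c := by positivity
    have hp : ∀ x, v x ^ 2 ≤ c ^ 4 / 5 * v x ^ 6 + 4 / (5 * c) * v x := by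
      intro x
      have h3 := MoB_el (mul_nonneg hc0.le (h0 x))
      have h4 : c ^ 4 / 5 * v x ^ 6 + 4 / (5 * c) * v x = c⁻¹ ^ 2 * (((c * v x) ^ 6 + 4 * (c * v x)) / 5) := by
        field_simp
      rw [h4]
      have h5 : v x ^ 2 = c⁻¹ ^ 2 * (c * v x) ^ 2 := by field_simp
      rw [h5]
      exact mul_le_mul_of_nonneg_left h3 (by positivity)
    have h7 : ∫ x, v x ^ 2 ≤ c ^ 4 / 5 * (∫ x, v x ^ 6) + 4 / (5 * c) * ∫ x, v x := by
      rw [← integral_const_mul, ← integral_const_mul, ← integral_add (h6.const_mul _) (h1.const_mul _)]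
      exact integral_mono h2 ((h6.const_mul _).add (h1.const_mul _)) hp
    have h8 : c ^ 4 / 5 * (∫ x, v x ^ 6) ≤ W / 5 := by
      have e1 : c ^ 4 / 5 * (∫ x, v x ^ 6) ≤ c ^ 4 / 5 * X ^ 3 := mul_le_mul_of_nonneg_left h6X (by positivity)
      refine e1.trans ?_
      have e2 : N ^ 4 * X ^ 3 ≤ W ^ 5 := by
        have g1 : X ≤ W / ν ^ 2 := by
          rw [le_div_iff₀ (by positivity), hW]
          linarith only [show 0 ≤ ν⁻¹ ^ 3 * N ^ 2 by positivity, hν, h]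
        have g2 : N ^ 2 ≤ ν ^ 3 * W := by
          have : ν ^ 3 * W = ν ^ 5 * X + N ^ 2 := by
            rw [hW]
            field_simp
          rw [this]
          linarith only [show 0 ≤ ν ^ 5 * X by positivity, hν, hS, hD]
        calc N ^ 4 * X ^ 3 = (N ^ 2) ^ 2 * X ^ 3 := by ring
          _ ≤ (ν ^ 3 * W) ^ 2 * (W / ν ^ 2) ^ 3 := by
              gcongr
          _ = W ^ 5 := by
              field_simp
      have e3 : c ^ 4 / 5 * X ^ 3 = (N ^ 4 * X ^ 3) / (5 * W ^ 4) := by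
        rw [hc']
        field_simp
      rw [e3, div_le_div_iff₀ (by positivity) (by positivity)]
      linarith only [e2]
    have h9 : 4 / (5 * c) * (∫ x, v x) ≤ 4 * W / 5 := by
      have e1 : 4 / (5 * c) * (∫ x, v x) ≤ 4 / (5 * c) * N := mul_le_mul_of_nonneg_left hvN (by positivity)
      refine e1.trans (le_of_eq ?_)
      rw [hc']
      field_simp
    linarith

/-- the comparison -/
private theorem MoB_cmp {f f' B : ℝ → ℝ} {c d : ℝ} (hcd : c ≤ d) (hf : ContinuousOn f (Icc c d))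
    (hd : ∀ t ∈ Ioo c d, HasDerivAt f (f' t) t) (hB : ContinuousOn B (Icc c d)) (hle : ∀ t ∈ Ioo c d, f' t ≤ B t) :
    f d - f c ≤ ∫ t in c..d, B t :=
  intervalIntegral.sub_le_integral_of_hasDeriv_right_of_le hcd hf (fun t ht => (hd t ht).hasDerivWithinAt)
    (hB.integrableOn_Icc) hle


theorem moB : ∃ C : ℝ, 0 < C ∧ ∀ (Γ K P : ℝ → E3 → ℝ) (β : ℝ → ℝ), Crc Γ K P → FT P β → ∀ Λ : ℝ, 1 ≤ Λ →
    ∫ t in (-1 : ℝ)..0, β t ^ 5 ≤ Λ ^ 5 →
    ∀ F : ℝ → ℝ, ContDiff ℝ ∞ F → F 0 = 0 →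
    (∀ t ∈ Icc (-1 : ℝ) 0, ∀ x ∈ Metric.closedBall (0 : E3) (3/4), 0 ≤ F (Γ t x) ∧ 0 ≤ deriv (deriv F) (Γ t x)) →
    ∀ a b : ℝ, 1/8 ≤ a → a < b → b ≤ 3/4 → ∀ n : ℕ, 1 ≤ n → ∀ Y : ℝ, 0 ≤ Y →
    (∀ t ∈ Icc (-b) 0, ∫ x in Metric.ball (0 : E3) b, F (Γ t x) ^ n ≤ Y) →
    ∀ t ∈ Icc (-a) 0, ∫ x in Metric.ball (0 : E3) a, F (Γ t x) ^ (2 * n) ≤ C * (b - a)⁻¹ ^ 20 * Λ ^ 5 * Y ^ 2 := by
  obtain ⟨CA, hCA, hA⟩ := moA
  obtain ⟨CZ, hCZ, hZ⟩ := zc_pow 20 (by norm_num)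
  have hS := SB_pos
  set κ : ℝ := 1 / (4 * (1 + SB)) with hκ
  have hκ0 : 0 < κ := by positivity
  have hκS : 16 * SB * κ ^ 2 ≤ 1 := by
    rw [hκ]
    rw [div_pow, mul_div_assoc', div_le_one (by positivity)]
    nlinarith
  refine ⟨4 * κ⁻¹ ^ 3 + 2 * CA, by positivity, ?_⟩
  intro Γ K P β h hβ Λ hΛ hPL F hF hF0 hpos a b ha hab hb n hn Y hY hYb
  have ha0 : 0 < a := by linarith
  have hb0 : 0 < b := by linarith
  have hd0 : 0 < b - a := by linarith
  have hd1 : b - a ≤ 1 := by linarith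
  set δ : ℝ := b - a with hδ
  have hδi : 1 ≤ δ⁻¹ := (one_le_inv₀ hd0).2 hd1
  obtain ⟨cG, cdG, smG⟩ := crc_cont h
  set F2 : ℝ → ℝ := fun s => F s ^ (2 * n) with hF2
  have hF2s : ContDiff ℝ ∞ F2 := hF.pow _
  have hF20 : F2 0 = 0 := by
    simp only [hF2]
    rw [hF0, zero_pow (by omega)]
  set η : E3 → ℝ := fun x => zc a b x ^ 20 with hη
  have hηs : ContDiff ℝ ∞ η := (zc_smooth a b).pow 20
  have hηc : HasCompactSupport η := (zc_supp ha0 hab (n := 20) (by norm_num)).1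
  have hηr : ∀ x, |rdr η x| ≤ CZ / (b - a) * rsq x := fun x => (hZ a b ha hab (by linarith) x).2.2.2.2
  set m : ℝ → ℝ := fun t => ∫ x, F2 (Γ t x) * η x with hm
  have hmc : ContinuousOn m (Icc (-1) 0) := enT_cont h hF2s hηs hηc
  have hmd : ∀ t ∈ Ioo (-1 : ℝ) 0, HasDerivAt m (En F2 (Γ t) (P t) η) t := fun t ht =>
    en1 h hF2s hF20 hηs hηc hηr ht
  set v : ℝ → E3 → ℝ := fun t x => F (Γ t x) ^ n * zc a b x ^ 10 with hv
  have hsub : Icc (-b) (0 : ℝ) ⊆ Icc (-1) 0 := Icc_subset_Icc (by linarith) le_rfl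
  have hvs : ∀ t ∈ Icc (-1 : ℝ) 0, ContDiff ℝ ∞ (v t) := fun t ht =>
    ((hF.comp (smG t ht)).pow n).mul ((zc_smooth a b).pow 10)
  have hvc : ∀ t, HasCompactSupport (v t) := fun t =>
    (zc_supp ha0 hab (n := 10) (by norm_num)).1.mul_left
  have hF0' : ∀ t ∈ Icc (-1 : ℝ) 0, ∀ x ∈ Metric.closedBall (0 : E3) b, 0 ≤ F (Γ t x) := fun t ht x hx =>
    (hpos t ht x (Metric.closedBall_subset_closedBall hb hx)).1
  have hout : ∀ x : E3, x ∉ Metric.ball (0 : E3) b → zc a b x = 0 := by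
    intro x hx
    refine zc_zero ha0 hab ?_
    rw [mem_ball_zero_iff] at hx
    exact not_lt.1 hx
  have hv0 : ∀ t ∈ Icc (-1 : ℝ) 0, ∀ x, 0 ≤ v t x := by
    intro t ht x
    by_cases hx : x ∈ Metric.ball (0 : E3) b
    · exact mul_nonneg (pow_nonneg (hF0' t ht x (Metric.ball_subset_closedBall hx)) n)
        (pow_nonneg (zc_nonneg a b x) 10)
    · simp only [hv]
      rw [hout x hx]
      norm_num
  have hmv : ∀ t, m t = ∫ x, v t x ^ 2 := by
    intro t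
    refine integral_congr_ae (Eventually.of_forall fun x => ?_)
    simp only [hF2, hη, hv]
    ring
  have hFi : ∀ t ∈ Icc (-1 : ℝ) 0, IntegrableOn (fun x => F (Γ t x) ^ n) (Metric.ball (0 : E3) b) := by
    intro t ht
    have h1 : Continuous (fun x => F (Γ t x) ^ n) := (hF.continuous.comp (smG t ht).continuous).pow n
    exact (h1.continuousOn.integrableOn_compact (isCompact_closedBall (0 : E3) b)).mono_set
      Metric.ball_subset_closedBall
  have hvY : ∀ t ∈ Icc (-b) (0 : ℝ), ∫ x, v t x ≤ Y := by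
    intro t ht
    have ht1 := hsub ht
    have h1 : ∫ x, v t x = ∫ x in Metric.ball (0 : E3) b, v t x := by
      refine (setIntegral_eq_integral_of_forall_compl_eq_zero fun x hx => ?_).symm
      simp only [hv]
      rw [hout x hx]
      norm_num
    rw [h1]
    refine le_trans ?_ (hYb t ht)
    refine setIntegral_mono_on ?_ (hFi t ht1) measurableSet_ball fun x hx => ?_
    · exact ((hvs t ht1).continuous.integrable_of_hasCompactSupport (hvc t)).integrableOn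
    · have h2 := pow_nonneg (hF0' t ht1 x (Metric.ball_subset_closedBall hx)) n
      have h3 : zc a b x ^ 10 ≤ 1 := pow_le_one₀ (zc_nonneg a b x) (zc_le a b x)
      exact mul_le_of_le_one_right h2 h3
  have hY0 : ∀ t ∈ Icc (-1 : ℝ) 0, 0 ≤ ∫ x in Metric.ball (0 : E3) b, F (Γ t x) ^ n := fun t ht =>
    setIntegral_nonneg measurableSet_ball fun x hx =>
      pow_nonneg (hF0' t ht x (Metric.ball_subset_closedBall hx)) n
  -- the function k
  have hA4c : ContinuousOn β (Icc (-1) 0) := hβ.con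
  have hA40 : ∀ t, 0 ≤ β t := hβ.nn
  set k : ℝ → ℝ := fun t => CA * δ⁻¹ ^ 20 * (1 + β t ^ 5) with hk
  have hkc : ContinuousOn k (Icc (-1) 0) := continuousOn_const.mul (continuousOn_const.add (hA4c.pow 5))
  have hk0 : ∀ t, 0 ≤ k t := fun t => by
    have := hA40 t
    simp only [hk]
    positivity
  set D : ℝ → ℝ := fun t => ∫ x, gsq (v t) x with hD
  have hD0 : ∀ t, 0 ≤ D t := fun t => integral_nonneg fun x => gsq_nonneg _ _
  have hEn : ∀ t ∈ Icc (-b) (0 : ℝ), En F2 (Γ t) (P t) η ≤ - (1/4) * D t + k t * Y ^ 2 := by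
    intro t ht
    have ht1 := hsub ht
    have h1 := hA a b ha hab hb F (Γ t) (P t) (β t) n hn hF (smG t ht1) (h.smP t ht1).continuous (hβ.nn t) (hβ.fb t ht1)
      (fun x hx => hpos t ht1 x (Metric.closedBall_subset_closedBall hb hx))
    refine h1.trans ?_
    have h2 : (∫ x in Metric.ball (0 : E3) b, F (Γ t x) ^ n) ^ 2 ≤ Y ^ 2 :=
      pow_le_pow_left₀ (hY0 t ht1) (hYb t ht) 2
    have h3 := mul_le_mul_of_nonneg_left h2 (hk0 t)
    simp only [hk] at h3 ⊢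
    linarith only [h3]
  set B : ℝ → ℝ := fun t => 4 * κ⁻¹ ^ 3 * δ⁻¹ ^ 4 * Y ^ 2 + k t * Y ^ 2 with hB
  have hBc : ContinuousOn B (Icc (-1) 0) := continuousOn_const.add (hkc.mul continuousOn_const)
  have hB0 : ∀ t, 0 ≤ B t := fun t => by
    have := hk0 t
    simp only [hB]
    positivity
  have hBi : ∀ c d : ℝ, -1 ≤ c → c ≤ d → d ≤ 0 → IntervalIntegrable B volume c d := by
    intro c d hc hcd hd
    refine (hBc.mono ?_).intervalIntegrable_of_Icc hcd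
    exact Icc_subset_Icc hc hd
  -- first interval
  set φ : ℝ → ℝ := fun t => ((t + b) / δ) ^ 4 * m t with hφ
  have hφd : ∀ t ∈ Ioo (-b) (-a), HasDerivAt φ (4 * ((t + b) / δ) ^ 3 * δ⁻¹ * m t +
      ((t + b) / δ) ^ 4 * En F2 (Γ t) (P t) η) t := by
    intro t ht
    have h1 := hmd t ⟨by linarith [ht.1], by linarith [ht.2]⟩
    have h2 : HasDerivAt (fun t : ℝ => ((t + b) / δ) ^ 4) (4 * ((t + b) / δ) ^ 3 * δ⁻¹) t := by
      have h3 : HasDerivAt (fun t : ℝ => (t + b) / δ) (1 / δ) t :=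
        ((hasDerivAt_id t).add_const b).div_const δ
      have h4 := h3.pow 4
      rw [one_div] at h4
      exact_mod_cast h4
    exact h2.mul h1
  have hφb : ∀ t ∈ Ioo (-b) (-a), 4 * ((t + b) / δ) ^ 3 * δ⁻¹ * m t +
      ((t + b) / δ) ^ 4 * En F2 (Γ t) (P t) η ≤ B t := by
    intro t ht
    have htb : t ∈ Icc (-b) (0 : ℝ) := ⟨ht.1.le, by linarith [ht.2]⟩
    have ht1 := hsub htb
    set σ : ℝ := (t + b) / δ with hσ
    have hσ0 : 0 < σ := div_pos (by linarith [ht.1]) hd0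
    have hσ1 : σ ≤ 1 := by
      rw [hσ, div_le_one hd0, hδ]
      linarith [ht.2]
    have h1 := MoB_int (hvs t ht1) (hvc t) (hv0 t ht1) hY (hvY t htb) (ν := κ * σ * δ) (by positivity)
    rw [← hmv t] at h1
    have h2 := hEn t htb
    have h3 : 4 * σ ^ 3 * δ⁻¹ * m t ≤ σ ^ 4 * (1/4) * D t + 4 * κ⁻¹ ^ 3 * δ⁻¹ ^ 4 * Y ^ 2 := by
      have e1 := mul_le_mul_of_nonneg_left h1 (show 0 ≤ 4 * σ ^ 3 * δ⁻¹ by positivity)
      refine e1.trans ?_
      have e2 : 4 * σ ^ 3 * δ⁻¹ * ((κ * σ * δ) ^ 2 * (SB * D t) + (κ * σ * δ)⁻¹ ^ 3 * Y ^ 2) =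
          (16 * SB * κ ^ 2) * (σ * δ) * (σ ^ 4 * (1/4) * D t) + 4 * κ⁻¹ ^ 3 * δ⁻¹ ^ 4 * Y ^ 2 := by
        field_simp
        ring
      rw [e2]
      have e3 : (16 * SB * κ ^ 2) * (σ * δ) ≤ 1 := by
        have g1 : σ * δ ≤ 1 := mul_le_one₀ hσ1 hd0.le hd1
        have g2 : 0 ≤ 16 * SB * κ ^ 2 := by positivity
        have g3 : 0 ≤ σ * δ := by positivity
        nlinarith only [hκS, g1, g3]
      have e4 : 0 ≤ σ ^ 4 * (1/4) * D t := by
        have := hD0 t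
        positivity
      nlinarith only [hab, hb, ha0, e3, e4]
    have h4 : σ ^ 4 * En F2 (Γ t) (P t) η ≤ σ ^ 4 * (- (1/4) * D t + k t * Y ^ 2) :=
      mul_le_mul_of_nonneg_left h2 (by positivity)
    have h5 : σ ^ 4 * (k t * Y ^ 2) ≤ k t * Y ^ 2 := by
      have : σ ^ 4 ≤ 1 := pow_le_one₀ hσ0.le hσ1
      have h6 : 0 ≤ k t * Y ^ 2 := mul_nonneg (hk0 t) (by positivity)
      nlinarith only [hab, hb, ha0, this, h6]
    simp only [hB]
    linarith only [h3, h4, h5]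
  have hcmp1 : φ (-a) - φ (-b) ≤ ∫ t in (-b)..(-a), B t := by
    refine MoB_cmp (by linarith) ?_ hφd (hBc.mono (Icc_subset_Icc (by linarith) (by linarith))) hφb
    have h1 : Continuous (fun t : ℝ => ((t + b) / δ) ^ 4) := by fun_prop
    exact h1.continuousOn.mul (hmc.mono (Icc_subset_Icc (by linarith) (by linarith)))
  have hφ1 : φ (-a) = m (-a) := by
    simp only [hφ]
    have : (-a + b) / δ = 1 := by
      rw [hδ, div_eq_one_iff_eq hd0.ne']
      ring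
    rw [this]
    ring
  have hφ2 : φ (-b) = 0 := by
    simp only [hφ]
    have : (-b + b) / δ = 0 := by simp
    rw [this]
    ring
  -- second interval
  intro t ht
  have htb : t ∈ Icc (-b) (0 : ℝ) := ⟨by linarith only [ht.1, hab], ht.2⟩
  have ht1 := hsub htb
  have hcmp2 : m t - m (-a) ≤ ∫ s in (-a)..t, B s := by
    refine MoB_cmp ht.1 (hmc.mono (Icc_subset_Icc (by linarith) ht.2))
      (fun s hs => hmd s ⟨by linarith [hs.1], by linarith [hs.2, ht.2]⟩)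
      (hBc.mono (Icc_subset_Icc (by linarith) ht.2)) ?_
    intro s hs
    have h1 := hEn s ⟨by linarith [hs.1], by linarith [hs.2, ht.2]⟩
    have h2 := hD0 s
    have h3 : 0 ≤ 4 * κ⁻¹ ^ 3 * δ⁻¹ ^ 4 * Y ^ 2 := by positivity
    simp only [hB]
    linarith
  have hsum : m t ≤ ∫ s in (-b)..t, B s := by
    rw [← intervalIntegral.integral_add_adjacent_intervals (b := -a) (hBi _ _ (by linarith) (by linarith) (by linarith))
      (hBi _ _ (by linarith) ht.1 ht.2)]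
    rw [hφ1, hφ2] at hcmp1
    linarith only [hcmp1, hcmp2]
  have hmono : ∫ s in (-b)..t, B s ≤ ∫ s in (-1 : ℝ)..0, B s := by
    refine intervalIntegral.integral_mono_interval (by linarith) (by linarith [ht.1]) ht.2
      (Eventually.of_forall hB0) (hBi _ _ le_rfl (by norm_num) le_rfl)
  have hA5i : IntervalIntegrable (fun s => β s ^ 5) volume (-1) 0 :=
    (hA4c.pow 5).intervalIntegrable_of_Icc (by norm_num)
  have hval : ∫ s in (-1 : ℝ)..0, B s = 4 * κ⁻¹ ^ 3 * δ⁻¹ ^ 4 * Y ^ 2 +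
      CA * δ⁻¹ ^ 20 * (1 + ∫ s in (-1 : ℝ)..0, β s ^ 5) * Y ^ 2 := by
    have e1 : ∀ s, B s = (4 * κ⁻¹ ^ 3 * δ⁻¹ ^ 4 * Y ^ 2 + CA * δ⁻¹ ^ 20 * Y ^ 2) +
        (CA * δ⁻¹ ^ 20 * Y ^ 2) * β s ^ 5 := by
      intro s
      simp only [hB, hk]
      ring
    simp only [e1]
    rw [intervalIntegral.integral_add (by simp) (hA5i.const_mul _), intervalIntegral.integral_const,
      intervalIntegral.integral_const_mul]
    simp only [smul_eq_mul]
    ring
  have hmt : m t ≤ (4 * κ⁻¹ ^ 3 + 2 * CA) * δ⁻¹ ^ 20 * Λ ^ 5 * Y ^ 2 := by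
    refine (hsum.trans hmono).trans ?_
    rw [hval]
    have hΛ5 : 1 ≤ Λ ^ 5 := one_le_pow₀ hΛ
    have g1 : δ⁻¹ ^ 4 ≤ δ⁻¹ ^ 20 := pow_le_pow_right₀ hδi (by norm_num)
    have g2 : 4 * κ⁻¹ ^ 3 * δ⁻¹ ^ 4 * Y ^ 2 ≤ 4 * κ⁻¹ ^ 3 * (δ⁻¹ ^ 20 * Λ ^ 5) * Y ^ 2 := by
      have g3 : δ⁻¹ ^ 4 ≤ δ⁻¹ ^ 20 * Λ ^ 5 := g1.trans (le_mul_of_one_le_right (by positivity) hΛ5)
      gcongr
    have g4 : CA * δ⁻¹ ^ 20 * (1 + ∫ s in (-1 : ℝ)..0, β s ^ 5) * Y ^ 2 ≤
        CA * δ⁻¹ ^ 20 * (2 * Λ ^ 5) * Y ^ 2 := by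
      have g5 : 1 + (∫ s in (-1 : ℝ)..0, β s ^ 5) ≤ 2 * Λ ^ 5 := by linarith
      gcongr
    linarith
  refine le_trans ?_ hmt
  rw [hmv t]
  have h1 : ∫ x in Metric.ball (0 : E3) a, F (Γ t x) ^ (2 * n) = ∫ x in Metric.ball (0 : E3) a, v t x ^ 2 := by
    refine setIntegral_congr_fun measurableSet_ball fun x hx => ?_
    simp only [hv]
    rw [zc_one ha0 hab (by rw [mem_ball_zero_iff] at hx; exact hx.le)]
    ring
  rw [h1]
  refine setIntegral_le_integral ?_ (Eventually.of_forall fun x => by positivity)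
  obtain ⟨K', hK'⟩ := MoB_BL (hvs t ht1).continuous (hvc t)
  exact hK'.2.1

end Pool.Agent.H90.AX
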