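/-
Osc0. The circulation stays away from its bound, normalised (assembly), with the form bound FT.
-/
import Pool.Agent.H90.AX.MoC
import Pool.Agent.H72.CC.LoB
import Pool.Agent.H72.CC.OdeL
import Pool.Agent.H90.AX.InB

set_option autoImplicit false

open Set Filter Topology MeasureTheory
open scoped ContDiff

namespace Pool.Agent.H90.AX

open Pool.Agent.H16 Pool.Agent.H87.NS Pool.Agent.H72.CC

/-- a power against the fifth power -/
theorem osc0_lin {A Λ : ℝ} (hA : 0 ≤ A) (hΛ : 1 ≤ Λ) : A ≤ Λ + A ^ 5 / Λ ^ 4 := by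
  have hp : 0 < Λ ^ 4 := by positivity
  rcases le_or_gt A Λ with h | h
  · have : 0 ≤ A ^ 5 / Λ ^ 4 := by positivity
    linarith
  · have h2 : A ≤ A ^ 5 / Λ ^ 4 := by
      rw [le_div_iff₀ hp]
      have : Λ ^ 4 ≤ A ^ 4 := pow_le_pow_left₀ (by linarith) h.le 4
      calc A * Λ ^ 4 ≤ A * A ^ 4 := by gcongr
        _ = A ^ 5 := by ring
    linarith

theorem osc0 : ∃ C : ℝ, 0 < C ∧ ∀ (Γ K P : ℝ → E3 → ℝ) (B : ℝ → ℝ), Crc Γ K P → FT P B → ∀ Λ : ℝ, 1 ≤ Λ →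
    ∫ t in (-1 : ℝ)..0, B t ^ 5 ≤ Λ ^ 5 →
    (∀ t ∈ Icc (-1 : ℝ) 0, ∀ x ∈ Metric.closedBall (0 : E3) (3/4), |Γ t x| < 1) →
    ∀ t ∈ Icc (-(1/4) : ℝ) 0, ∀ x ∈ Metric.ball (0 : E3) (1/4), Γ t x ≤ 1 - Real.exp (- (C * Λ ^ 23)) := by
  obtain ⟨C1, hC1, H1⟩ := loA
  obtain ⟨C2, hC2, H2⟩ := loB
  obtain ⟨C3, hC3, H3⟩ := moC
  obtain ⟨c4, hc4, H4⟩ := inB
  refine ⟨C3 * (1 / 2 + 3 * C1 + 2 * C2 / c4 ^ 2) + 1, by positivity, ?_⟩
  intro Γ K P B h hT Λ hΛ hA hG t ht x hx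
  have hΛ0 : 0 < Λ := by linarith
  -- the maximum of |Γ|
  obtain ⟨cG, -, -⟩ := crc_cont h
  have hsub : Icc (-1 : ℝ) 0 ×ˢ Metric.closedBall (0 : E3) (3/4) ⊆ Icc (-1 : ℝ) 0 ×ˢ (univ : Set E3) :=
    prod_mono subset_rfl (subset_univ _)
  have hcpt : IsCompact (Icc (-1 : ℝ) 0 ×ˢ Metric.closedBall (0 : E3) (3/4)) :=
    isCompact_Icc.prod (isCompact_closedBall _ _)
  have hne : (Icc (-1 : ℝ) 0 ×ˢ Metric.closedBall (0 : E3) (3/4)).Nonempty :=
    ⟨(0, 0), ⟨by norm_num, by norm_num⟩, by simp only [Metric.mem_closedBall, dist_self]; norm_num⟩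
  obtain ⟨q, hq, hqm⟩ := hcpt.exists_isMaxOn hne ((cG.mono hsub).abs)
  set b := |Γ q.1 q.2| with hb
  have hb1 : b < 1 := hG q.1 hq.1 q.2 hq.2
  have hb0 : 0 ≤ b := abs_nonneg _
  have hbd : ∀ s ∈ Icc (-1 : ℝ) 0, ∀ y ∈ Metric.closedBall (0 : E3) (3/4), |Γ s y| ≤ b := fun s hs y hy =>
    hqm (show (s, y) ∈ _ from ⟨hs, hy⟩)
  obtain ⟨F, hF, hF0, hFb⟩ := lg hb1 hb0
  -- the cut-off
  have hes : ContDiff ℝ ∞ (fun x => et x ^ 2) := (zc_smooth (1/2) (3/4)).pow 2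
  obtain ⟨hec, hets⟩ := zc_supp (a := 1/2) (b := 3/4) (by norm_num) (by norm_num) (n := 2) (by norm_num)
  obtain ⟨Cz, hCz, hz⟩ := zc_pow 2 le_rfl
  have hr : ∀ x, |rdr (fun x => et x ^ 2) x| ≤ Cz / (3/4 - 1/2) * rsq x := fun x =>
    (hz (1/2) (3/4) (by norm_num) (by norm_num) (by norm_num) x).2.2.2.2
  have hez : ∀ x : E3, x ∉ Metric.closedBall (0 : E3) (3/4) → et x = 0 := fun x hx => by
    refine zc_zero (by norm_num) (by norm_num) ?_
    simp only [Metric.mem_closedBall, dist_zero_right, not_le] at hx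
    exact hx.le
  -- quantities
  set μ : ℝ → ℝ := fun s => ∫ y, F (Γ s y) * et y ^ 2 with hμ
  set H : ℝ → ℝ := fun s => ∫ y, (1 - Γ s y) * et y ^ 2 with hH
  set k : ℝ → ℝ := fun s => 1/2 + C1 * (1 + B s) with hk
  have cA : ContinuousOn B (Icc (-1) 0) := hT.con
  have cμ : ContinuousOn μ (Icc (-1) 0) := enT_cont h hF hes hec
  have cH : ContinuousOn H (Icc (-1) 0) :=
    enT_cont (F := fun s => 1 - s) h (by fun_prop) hes hec
  have ck : ContinuousOn k (Icc (-1) 0) :=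
    continuousOn_const.add (continuousOn_const.mul (continuousOn_const.add cA))
  have hk0 : ∀ s ∈ Icc (-1 : ℝ) 0, 0 ≤ k s := fun s _ => by
    have := hT.nn s
    positivity
  have hd : ∀ s ∈ Ioo (-1 : ℝ) 0, HasDerivAt μ (En F (Γ s) (P s) (fun x => et x ^ 2)) s := fun s hs =>
    en1 h hF hF0 hes hec hr hs
  have hle : ∀ s ∈ Ioo (-1 : ℝ) 0, En F (Γ s) (P s) (fun x => et x ^ 2) ≤ - (1 / (2 * C2)) * (μ s ^ 2 * H s ^ 2) + k s := by
    intro s hs
    have hs' : s ∈ Icc (-1 : ℝ) 0 := ⟨hs.1.le, hs.2.le⟩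
    have hGs : ContDiff ℝ ∞ (Γ s) := (crc_cont h).2.2 s hs'
    have e1 := H1 F (Γ s) (P s) (B s) hF hGs (h.smP s hs').continuous (hT.nn s) (hT.fb s hs')
      (fun y hy => ⟨(hFb _ (hbd s hs' y hy)).2.1, (hFb _ (hbd s hs' y hy)).2.2.2⟩)
    have e2 := H2 F (Γ s) hF hGs (fun y hy => ⟨hG s hs' y hy, (hFb _ (hbd s hs' y hy)).1⟩)
    have e3 : μ s ^ 2 * H s ^ 2 / C2 ≤ 1 + ∫ x, gsq (fun y => F (Γ s y)) x * et x ^ 2 := by
      rw [div_le_iff₀ hC2]
      calc μ s ^ 2 * H s ^ 2 ≤ _ := e2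
        _ = _ := by ring
    have e4 : - (1 / (2 * C2)) * (μ s ^ 2 * H s ^ 2) = - (1/2) * (μ s ^ 2 * H s ^ 2 / C2) := by
      field_simp
    rw [e4]
    simp only [hk]
    linarith
  have hint := H4 Γ K P B h hT Λ hΛ hA hG
  have hHb : 0 < c4 / Λ ^ 9 := by positivity
  have hode := odeL (c := 1 / (2 * C2)) (by positivity) cμ cH ck hk0 hd hle hHb hint
  -- the integral of k
  have hkI : ∫ s in (-1 : ℝ)..0, k s ≤ 1/2 + C1 + C1 * (2 * Λ) := by
    have hc5 : ContinuousOn (fun s => B s ^ 5) (Icc (-1) 0) := cA.pow 5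
    have i1 : ∫ s in (-1 : ℝ)..0, B s ≤ ∫ s in (-1 : ℝ)..0, (Λ + B s ^ 5 / Λ ^ 4) := by
      refine intervalIntegral.integral_mono_on (by norm_num) ?_ ?_ ?_
      · exact cA.intervalIntegrable_of_Icc (by norm_num)
      · exact (continuousOn_const.add (hc5.div_const _)).intervalIntegrable_of_Icc (by norm_num)
      · intro s _
        exact osc0_lin (hT.nn s) hΛ
    have i2 : ∫ s in (-1 : ℝ)..0, (Λ + B s ^ 5 / Λ ^ 4) = Λ + (∫ s in (-1 : ℝ)..0, B s ^ 5) / Λ ^ 4 := by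
      rw [intervalIntegral.integral_add _ ((hc5.div_const _).intervalIntegrable_of_Icc (by norm_num)),
        intervalIntegral.integral_const, intervalIntegral.integral_div]
      · simp
      · simp
    have i3 : (∫ s in (-1 : ℝ)..0, B s ^ 5) / Λ ^ 4 ≤ Λ := by
      rw [div_le_iff₀ (by positivity)]
      calc _ ≤ Λ ^ 5 := hA
        _ = Λ * Λ ^ 4 := by ring
    have i4 : ∫ s in (-1 : ℝ)..0, k s = 1/2 + C1 + C1 * ∫ s in (-1 : ℝ)..0, B s := by
      have : k = fun s => (1/2 + C1) + C1 * B s := by funext s; simp only [hk]; ring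
      rw [this]
      have hi : IntervalIntegrable (fun s => C1 * B s) volume (-1) 0 :=
        (continuousOn_const.mul cA).intervalIntegrable_of_Icc (by norm_num)
      rw [intervalIntegral.integral_add intervalIntegrable_const hi,
        intervalIntegral.integral_const, intervalIntegral.integral_const_mul]
      simp
    rw [i4]
    have : ∫ s in (-1 : ℝ)..0, B s ≤ 2 * Λ := by linarith
    nlinarith only [hC1, i1, i2, i3]
  have hpow : ∀ n : ℕ, 1 ≤ Λ ^ n := fun n => one_le_pow₀ hΛ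
  have hΛ4 : Λ ≤ Λ ^ 18 := by
    calc Λ = Λ * 1 := by ring
      _ ≤ Λ * Λ ^ 17 := by gcongr; exact hpow 17
      _ = Λ ^ 18 := by ring
  set M := (1 / 2 + 3 * C1 + 2 * C2 / c4 ^ 2) * Λ ^ 18 with hM
  have hM0 : 0 < M := by positivity
  have hμM : ∀ s ∈ Icc (-(1/2) : ℝ) 0, μ s ≤ M := by
    intro s hs
    have e1 := hode s hs
    have e2 : 1 / (1 / (2 * C2) * (c4 / Λ ^ 9) ^ 2) = 2 * C2 / c4 ^ 2 * Λ ^ 18 := by
      field_simp
    rw [e2] at e1
    have e3 : 1/2 + C1 + C1 * (2 * Λ) ≤ (1/2 + 3 * C1) * Λ ^ 18 := by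
      have a1 := hpow 18
      nlinarith only [mul_le_mul_of_nonneg_left hΛ4 hC1.le, hC1, hΛ, hΛ4]
    rw [hM, add_mul]
    linarith only [hkI, e1, e3]
  have hFint : ∀ s ∈ Icc (-(1/2) : ℝ) 0, ∫ x in Metric.ball (0 : E3) (1/2), F (Γ s x) ≤ M := by
    intro s hs
    have hs' : s ∈ Icc (-1 : ℝ) 0 := ⟨by linarith [hs.1], hs.2⟩
    refine le_trans ?_ (hμM s hs)
    have e1 : ∫ x in Metric.ball (0 : E3) (1/2), F (Γ s x) = ∫ x in Metric.ball (0 : E3) (1/2), F (Γ s x) * et x ^ 2 := by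
      refine setIntegral_congr_fun Metric.isOpen_ball.measurableSet fun x hx => ?_
      have : et x = 1 := zc_one (by norm_num) (by norm_num) (by
        simp only [Metric.mem_ball, dist_zero_right] at hx; exact hx.le)
      simp [this]
    rw [e1]
    refine setIntegral_le_integral ?_ (Eventually.of_forall fun x => ?_)
    · refine Continuous.integrable_of_hasCompactSupport ?_ ?_
      · exact (hF.continuous.comp ((crc_cont h).2.2 s hs').continuous).mul hes.continuous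
      · exact hec.mul_left
    · show 0 ≤ F (Γ s x) * et x ^ 2
      by_cases hx : x ∈ Metric.closedBall (0 : E3) (3/4)
      · exact mul_nonneg (hFb _ (hbd s hs' x hx)).2.1 (sq_nonneg _)
      · rw [hez x hx]; simp
  have hfin := H3 Γ K P B h hT Λ hΛ hA F hF hF0
    (fun s hs y hy => ⟨(hFb _ (hbd s hs y hy)).2.1, (hFb _ (hbd s hs y hy)).2.2.1⟩) M hM0 hFint t ht x hx
  have ht' : t ∈ Icc (-1 : ℝ) 0 := ⟨by linarith [ht.1], ht.2⟩
  have hx' : x ∈ Metric.closedBall (0 : E3) (3/4) := by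
    simp only [Metric.mem_ball, Metric.mem_closedBall, dist_zero_right] at hx ⊢
    linarith
  have hlt := hG t ht' x hx'
  rw [(hFb _ (hbd t ht' x hx')).1] at hfin
  have hpos : 0 < 1 - Γ t x := by linarith [le_abs_self (Γ t x)]
  have hlog : - Real.log (1 - Γ t x) ≤ (C3 * (1 / 2 + 3 * C1 + 2 * C2 / c4 ^ 2) + 1) * Λ ^ 23 := by
    have e1 : C3 * Λ ^ 5 * M = C3 * (1 / 2 + 3 * C1 + 2 * C2 / c4 ^ 2) * Λ ^ 23 := by rw [hM]; ring
    rw [e1] at hfin
    have := hpow 23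
    have h3 : Γ t x ≤ 1 := by linarith
    rw [add_mul]
    linarith only [hfin, hpos, this]
  have : Real.exp (-((C3 * (1 / 2 + 3 * C1 + 2 * C2 / c4 ^ 2) + 1) * Λ ^ 23)) ≤ 1 - Γ t x := by
    rw [← Real.exp_log hpos]
    exact Real.exp_le_exp.2 (by linarith)
  linarith

end Pool.Agent.H90.AX
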