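/-
Osc. The oscillation lemma, with the form bound FT.
-/
import Pool.Agent.H72.CC.Osc
import Pool.Agent.H90.AX.Osc0

set_option autoImplicit false

open Set Filter Topology MeasureTheory
open scoped ContDiff

namespace Pool.Agent.H90.AX

open Pool.Agent.H16 Pool.Agent.H87.NS Pool.Agent.H72.CC

theorem osc : ∃ C : ℝ, 0 < C ∧ ∀ (Γ K P : ℝ → E3 → ℝ) (B : ℝ → ℝ), Crc Γ K P → FT P B → ∀ Λ : ℝ, 1 ≤ Λ →
    ∫ t in (-1 : ℝ)..0, B t ^ 5 ≤ Λ ^ 5 →
    ∀ g : ℝ, (∀ t ∈ Icc (-1 : ℝ) 0, ∀ x ∈ Metric.ball (0 : E3) 1, |Γ t x| ≤ g) →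
    ∀ t ∈ Icc (-(1/16) : ℝ) 0, ∀ x ∈ Metric.ball (0 : E3) (1/4), |Γ t x| ≤ (1 - Real.exp (- (C * Λ ^ 23))) * g := by
  obtain ⟨C, hC, H⟩ := osc0
  refine ⟨C, hC, fun Γ K P B h hT Λ hΛ hI g hg t ht x hx => ?_⟩
  have hg0 : 0 ≤ g := (abs_nonneg _).trans
    (hg 0 ⟨by norm_num, le_refl _⟩ 0 (Metric.mem_ball_self one_pos))
  have key : ∀ g' : ℝ, g < g' → |Γ t x| ≤ (1 - Real.exp (- (C * Λ ^ 23))) * g' := by
    intro g' hg'
    have hp : 0 < g' := lt_of_le_of_lt hg0 hg'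
    have ht' : t ∈ Icc (-(1/4) : ℝ) 0 := ⟨by linarith [ht.1], ht.2⟩
    have hcb : ∀ c : ℝ, |c| = 1 / g' → ∀ t ∈ Icc (-1 : ℝ) 0,
        ∀ x ∈ Metric.closedBall (0 : E3) (3/4), |c * Γ t x| < 1 := by
      intro c hc s hs y hy
      have hy' : y ∈ Metric.ball (0 : E3) 1 := by
        rw [Metric.mem_closedBall] at hy
        rw [Metric.mem_ball]; linarith
      have := hg s hs y hy'
      rw [abs_mul, hc, one_div, inv_mul_lt_iff₀ hp]
      linarith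
    have cl : ∀ c : ℝ, |c| = 1 / g' → c * Γ t x ≤ 1 - Real.exp (- (C * Λ ^ 23)) := by
      intro c hc
      have := H _ _ P B (osc_scale h c) hT Λ hΛ hI (hcb c hc) t ht' x hx
      simpa using this
    have h1 := cl (1 / g') (by rw [abs_of_pos (by positivity)])
    have h2 := cl (-(1 / g')) (by rw [abs_neg, abs_of_pos (by positivity)])
    have h1' : Γ t x ≤ (1 - Real.exp (- (C * Λ ^ 23))) * g' := by
      rw [one_div, inv_mul_le_iff₀ hp] at h1; linarith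
    have h2' : - Γ t x ≤ (1 - Real.exp (- (C * Λ ^ 23))) * g' := by
      have : (1 / g') * (- Γ t x) ≤ 1 - Real.exp (- (C * Λ ^ 23)) := by linarith
      rw [one_div, inv_mul_le_iff₀ hp] at this; linarith
    exact abs_le'.2 ⟨h1', h2'⟩
  set a := (1 - Real.exp (- (C * Λ ^ 23))) with ha
  have htend : Tendsto (fun g' : ℝ => a * g') (𝓝[>] g) (𝓝 (a * g)) :=
    ((continuous_const.mul continuous_id).tendsto g).mono_left nhdsWithin_le_nhds
  refine ge_of_tendsto htend ?_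
  filter_upwards [self_mem_nhdsWithin] with g' hg'
  exact key g' hg'

end Pool.Agent.H90.AX
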