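/-
ROW Psi (MP_09540e_AX). The flux and the stream function. PROOF of flx_eq. `sP v x = avk 1 (fun y => v y 2) x = ∫ s in 0..1, s * v (sq s x) 2` (Defs of H72/CC and H87/NS). By axial symmetry (AxF; as in VRep / circ_eq: rotate `sq s x` onto `hpt (s * rad x) (x 2)`; the third component is invariant)
`v (sq s x) 2 = v (hpt (s * rad x) (x 2)) 2` (case rad x = 0: both points are equal). Substitution `s' = s * rad x` (intervalIntegral.mul_integral_comp_mul_right or integral_comp_mul_right).
-/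
import Pool.Agent.H90.AX.Defs2
import Pool.Agent.H94.WL.Cy

set_option autoImplicit false

open Set Filter Topology MeasureTheory
open scoped ContDiff

namespace Pool.Agent.H90.AX

open Pool.Agent.H16 Pool.Agent.H87.NS Pool.Agent.H72.CC Pool.Agent.H94.WL

theorem Psi_rad_sq {t : ℝ} (ht : 0 ≤ t) (x : E3) : rad (sq t x) = t * rad x := by
  show √((t * x 0) ^ 2 + (t * x 1) ^ 2) = t * √(x 0 ^ 2 + x 1 ^ 2)
  rw [show (t * x 0) ^ 2 + (t * x 1) ^ 2 = t ^ 2 * (x 0 ^ 2 + x 1 ^ 2) by ring, Real.sqrt_mul (sq_nonneg t),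
    Real.sqrt_sq ht]

theorem Psi_sq {v : E3 → E3} (hv : AxF v) {t : ℝ} (ht : 0 ≤ t) (x : E3) :
    v (sq t x) 2 = v (hpt (t * rad x) (x 2)) 2 := by
  have h := (v_cyl hv (sq t x)).1
  rw [Psi_rad_sq ht x] at h
  exact h.symm

theorem flx_eq {v : E3 → E3} (hv : AxF v) (x : E3) : flx v (rad x) (x 2) = rad x ^ 2 * sP v x := by
  have h1 : sP v x = ∫ t in (0:ℝ)..1, t * v (hpt (t * rad x) (x 2)) 2 := by
    unfold sP avk
    refine intervalIntegral.integral_congr fun t ht => ?_
    rw [uIcc_of_le zero_le_one] at ht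
    simp only []
    rw [pow_one, Psi_sq hv ht.1 x]
  have h2 : rad x * ∫ t in (0:ℝ)..1, (fun s => s * v (hpt s (x 2)) 2) (t * rad x) = flx v (rad x) (x 2) := by
    have h3 := intervalIntegral.mul_integral_comp_mul_right (a := 0) (b := 1) (f := fun s : ℝ => s * v (hpt s (x 2)) 2) (rad x)
    rw [zero_mul, one_mul] at h3
    exact h3
  rw [h1, ← h2, ← intervalIntegral.integral_const_mul, ← intervalIntegral.integral_const_mul]
  refine intervalIntegral.integral_congr fun t _ => ?_
  simp only []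
  ring

end Pool.Agent.H90.AX
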