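/-
One step at a good scale.
-/
import Pool.Agent.H90.AX.Osc
import Pool.Agent.H90.AX.Psi
import Pool.Agent.H90.AX.Cor
import Pool.Agent.H72.CC.MainA

set_option autoImplicit false

open Set Filter Topology MeasureTheory
open scoped ContDiff

namespace Pool.Agent.H90.AX

open Pool.Agent.H16 Pool.Agent.H87.NS Pool.Agent.H72.CC

theorem Stp_rsq (ρ z : ℝ) (y : E3) : rsq (axp z + ρ • y) = ρ ^ 2 * rsq y := by
  unfold rsq
  have h0 : (axp z + ρ • y) 0 = ρ * y 0 := by simp [axp]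
  have h1 : (axp z + ρ • y) 1 = ρ * y 1 := by simp [axp]
  rw [h0, h1]
  ring

theorem Stp_AV {v : E3 → E3} (hv : AxF v) {ρ z M : ℝ} (hρ : 0 < ρ) (hM : 0 ≤ M)
    (h : ∀ r ∈ Ioc 0 ρ, ∫ y in (z - ρ)..(z + ρ), flx v r y ^ 2 ≤ M * ρ * r ^ 2) :
    AV (fun y => ρ * sP v (axp z + ρ • y)) M := by
  intro y hy
  have hr0 : 0 ≤ rsq y := Hol_rsq_nonneg y
  rcases hr0.eq_or_lt with h0 | h0
  · rw [← h0, zero_mul]
    exact hM
  obtain ⟨R, hR⟩ : ∃ R : ℝ, R = ρ * √(rsq y) := ⟨_, rfl⟩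
  have hs0 : 0 < √(rsq y) := Real.sqrt_pos.2 h0
  have hs1 : √(rsq y) ≤ 1 := by
    rw [Real.sqrt_le_one]
    exact hy.le
  have hR0 : 0 < R := by rw [hR]; positivity
  have hRρ : R ≤ ρ := by rw [hR]; nlinarith
  have hR2 : R ^ 2 = ρ ^ 2 * rsq y := by rw [hR, mul_pow, Real.sq_sqrt hr0]
  have key : ∀ r : ℝ, rsq y * (ρ * sP v (axp z + ρ • (y + (r - y 2) • e 2))) ^ 2 = flx v R (z + ρ * r) ^ 2 / R ^ 2 := by
    intro r
    obtain ⟨X, hX⟩ : ∃ X : E3, X = axp z + ρ • (y + (r - y 2) • e 2) := ⟨_, rfl⟩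
    have hX2 : X 2 = z + ρ * r := by
      rw [hX]
      simp [axp, e]
      ring
    have hXr : rsq X = R ^ 2 := by
      rw [hX, Stp_rsq, Cor_rsq, hR2]
    have hrad : rad X = R := by
      have h1 : rad X ^ 2 = R ^ 2 := by rw [rad_sq', hXr]
      exact (pow_left_inj₀ (rad_nonneg X) hR0.le two_ne_zero).1 h1
    have hfl := flx_eq hv X
    rw [hrad, hX2] at hfl
    rw [← hX, hfl]
    have h2 : ρ ^ 2 * rsq y = R ^ 2 := hR2.symm
    have h3 : R ^ 2 ≠ 0 := by positivity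
    rw [eq_div_iff h3]
    calc rsq y * (ρ * sP v X) ^ 2 * R ^ 2 = (ρ ^ 2 * rsq y) * (sP v X ^ 2 * R ^ 2) := by ring
      _ = R ^ 2 * (sP v X ^ 2 * R ^ 2) := by rw [h2]
      _ = (R ^ 2 * sP v X) ^ 2 := by ring
  have e1 : rsq y * ∫ r in (-1 : ℝ)..1, (fun y => ρ * sP v (axp z + ρ • y)) (y + (r - y 2) • e 2) ^ 2 =
      ∫ r in (-1 : ℝ)..1, flx v R (z + ρ * r) ^ 2 / R ^ 2 := by
    rw [← intervalIntegral.integral_const_mul]
    congr 1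
    funext r
    exact key r
  rw [e1, intervalIntegral.integral_div, intervalIntegral.integral_comp_add_mul (fun y => flx v R y ^ 2) hρ.ne' z]
  have e2 : z + ρ * (-1) = z - ρ := by ring
  have e3 : z + ρ * 1 = z + ρ := by ring
  rw [e2, e3, smul_eq_mul, div_le_iff₀ (by positivity)]
  have h4 := h R ⟨hR0, hRρ⟩
  rw [inv_mul_le_iff₀ hρ]
  calc _ ≤ M * ρ * R ^ 2 := h4
    _ = ρ * (M * R ^ 2) := by ring

theorem stp : ∃ C₁ : ℝ, 0 < C₁ ∧ ∀ (T : ℝ) (u : ℝ → E3 → E3) (p : ℝ → E3 → ℝ), IsHInfAxisymNS T u p →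
    ∀ t₀ t ρ z K g : ℝ, 0 ≤ t₀ → t < T → 0 < ρ → ρ ^ 2 < t - t₀ → 1 ≤ K → Good t₀ u t z ρ K →
    (∀ t' ∈ Icc (t - ρ ^ 2) t, ∀ x ∈ Metric.ball (axp z) ρ, |circ (u t') x| ≤ g) →
    ∀ t' ∈ Icc (t - ρ ^ 2 / 16) t, ∀ x ∈ Metric.ball (axp z) (ρ / 4),
      |circ (u t') x| ≤ (1 - Real.exp (-(C₁ * K ^ 23))) * g := by
  obtain ⟨C₁, hC₁, H1⟩ := osc
  refine ⟨C₁, hC₁, ?_⟩
  intro T u p h t₀ t ρ z K g ht₀ ht hρ hρt hK hgood hg
  obtain ⟨m, hmc, hm0, hm, hm5⟩ := hgood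
  have hρ2 : 0 < ρ ^ 2 := by positivity
  have hcrc := ns_crc h.ns ht hρ (by linarith) z
  have hmap : ∀ s ∈ Icc (-1 : ℝ) 0, t + ρ ^ 2 * s ∈ Icc (t - ρ ^ 2) t := fun s hs =>
    ⟨by nlinarith [hs.1], by nlinarith [hs.2]⟩
  have hFT : FT (fun s y => ρ * sP (u (t + ρ ^ 2 * s)) (axp z + ρ • y)) (fun s => m (t + ρ ^ 2 * s)) := by
    refine ⟨?_, fun s => hm0 _, fun s hs => ?_⟩
    · refine hmc.comp (by fun_prop) hmap
    · have h1 := hmap s hs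
      have h2 : t + ρ ^ 2 * s ∈ Ico 0 T := ⟨by linarith [h1.1], by linarith [h1.2]⟩
      refine cor (hcrc.smP s hs).continuous (hm0 _) ?_
      refine Stp_AV (axF_of h.ns h2) hρ (hm0 _) fun r hr => ?_
      exact hm _ h1 (by linarith [h1.1]) r hr
  have hint : ∫ s in (-1 : ℝ)..0, m (t + ρ ^ 2 * s) ^ 5 ≤ K ^ 5 := by
    rw [intervalIntegral.integral_comp_add_mul (fun s => m s ^ 5) hρ2.ne' t]
    have e2 : t + ρ ^ 2 * (-1) = t - ρ ^ 2 := by ring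
    have e3 : t + ρ ^ 2 * 0 = t := by ring
    rw [e2, e3, smul_eq_mul, inv_mul_le_iff₀ hρ2]
    linarith
  have h2 := H1 _ _ _ _ hcrc hFT K hK hint g (by
    intro s hs y hy
    refine hg _ (hmap s hs) _ ?_
    rw [Metric.mem_ball, dist_eq_norm, add_sub_cancel_left, norm_smul, Real.norm_of_nonneg hρ.le]
    rw [mem_ball_zero_iff] at hy
    nlinarith)
  intro t' ht' x hx
  have e4 : t - ρ ^ 2 * (1/16) = t - ρ ^ 2 / 16 := by ring
  have e5 : (1/4) * ρ = ρ / 4 := by ring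
  refine StepA_sc (T := T) (u := u) (t := t) (z := z) (τ := 1/16) (r := 1/4) hρ
    (P := fun s => |s| ≤ (1 - Real.exp (-(C₁ * K ^ 23))) * g) (by norm_num) h2 t' (by rw [e4]; exact ht') x
    (by rw [e5]; exact hx)

end Pool.Agent.H90.AX
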