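/-
The iteration over the good scales.
-/
import Pool.Agent.H90.AX.Stp
import Pool.Agent.H94.WL.So
import Pool.Agent.H16.TU.Xf

set_option autoImplicit false

open Set Filter Topology MeasureTheory
open scoped ContDiff

namespace Pool.Agent.H90.AX

open Pool.Agent.H16 Pool.Agent.H87.NS Pool.Agent.H72.CC

/-- the number of elements of `S` in `[n₁, n)` -/
def cnt (S : Finset ℕ) (n₁ n : ℕ) : ℕ := (S.filter (fun j => n₁ ≤ j ∧ j < n)).card

theorem cnt_zero (S : Finset ℕ) (n₁ : ℕ) : cnt S n₁ n₁ = 0 := by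
  unfold cnt
  rw [Finset.card_eq_zero, Finset.filter_eq_empty_iff]
  intro j _ h
  omega

theorem cnt_succ_le (S : Finset ℕ) {n₁ n : ℕ} (h : n ∉ S) : cnt S n₁ (n + 1) = cnt S n₁ n := by
  unfold cnt
  congr 1
  refine Finset.filter_congr fun j hj => ?_
  constructor
  · rintro ⟨h1, h2⟩
    refine ⟨h1, ?_⟩
    rcases Nat.lt_succ_iff_lt_or_eq.1 h2 with h3 | h3
    · exact h3
    · exact absurd (h3 ▸ hj) h
  · rintro ⟨h1, h2⟩
    exact ⟨h1, by omega⟩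

theorem cnt_succ (S : Finset ℕ) {n₁ n : ℕ} (h : n ∈ S) (hn : n₁ ≤ n) : cnt S n₁ (n + 1) = cnt S n₁ n + 1 := by
  unfold cnt
  have e : S.filter (fun j => n₁ ≤ j ∧ j < n + 1) = insert n (S.filter (fun j => n₁ ≤ j ∧ j < n)) := by
    ext j
    rw [Finset.mem_insert, Finset.mem_filter, Finset.mem_filter]
    constructor
    · rintro ⟨h1, h2, h3⟩
      rcases Nat.lt_succ_iff_lt_or_eq.1 h3 with h4 | h4
      · exact Or.inr ⟨h1, h2, h4⟩
      · exact Or.inl h4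
    · rintro (h1 | ⟨h1, h2, h3⟩)
      · rw [h1]
        exact ⟨h, hn, by omega⟩
      · exact ⟨h1, h2, by omega⟩
  rw [e, Finset.card_insert_of_notMem]
  rw [Finset.mem_filter]
  omega

theorem cnt_ge {S : Finset ℕ} {n₁ N : ℕ} (hS : S ⊆ Finset.range (N + 1)) : S.card ≤ cnt S n₁ (N + 1) + n₁ := by
  have h1 : S ⊆ (S.filter (fun j => n₁ ≤ j ∧ j < N + 1)) ∪ Finset.range n₁ := by
    intro j hj
    rw [Finset.mem_union, Finset.mem_filter, Finset.mem_range]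
    have := Finset.mem_range.1 (hS hj)
    by_cases h : n₁ ≤ j
    · exact Or.inl ⟨hj, h, this⟩
    · exact Or.inr (by omega)
  refine (Finset.card_le_card h1).trans ((Finset.card_union_le _ _).trans ?_)
  rw [Finset.card_range]
  exact le_rfl

theorem Main_pow {θ q : ℝ} (hθ : θ = 1 - Real.exp (-q)) (hq : 0 ≤ q) (c : ℕ) :
    θ ^ c ≤ Real.exp (-(c * Real.exp (-q))) := by
  have h1 : θ ≤ Real.exp (-Real.exp (-q)) := by
    have := Real.add_one_le_exp (-Real.exp (-q))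
    rw [hθ]
    linarith
  have h0 : 0 ≤ θ := by
    have : Real.exp (-q) ≤ 1 := Real.exp_le_one_iff.2 (by linarith)
    rw [hθ]
    linarith
  calc θ ^ c ≤ Real.exp (-Real.exp (-q)) ^ c := pow_le_pow_left₀ h0 h1 c
    _ = Real.exp (-(c * Real.exp (-q))) := by
        rw [← Real.exp_nat_mul]
        congr 1
        ring

/-- the step for an abstract condition -/
def Stp (Gd : ℝ → (ℝ → E3 → E3) → ℝ → ℝ → ℝ → ℝ → Prop) : Prop :=
  ∃ C₁ : ℝ, 0 < C₁ ∧ ∀ (T : ℝ) (u : ℝ → E3 → E3) (p : ℝ → E3 → ℝ), IsHInfAxisymNS T u p →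
    ∀ t₀ t ρ z K g : ℝ, 0 ≤ t₀ → t < T → 0 < ρ → ρ ^ 2 < t - t₀ → 1 ≤ K → Gd t₀ u t z ρ K →
    (∀ t' ∈ Icc (t - ρ ^ 2) t, ∀ x ∈ Metric.ball (axp z) ρ, |circ (u t') x| ≤ g) →
    ∀ t' ∈ Icc (t - ρ ^ 2 / 16) t, ∀ x ∈ Metric.ball (axp z) (ρ / 4),
      |circ (u t') x| ≤ (1 - Real.exp (-(C₁ * K ^ 23))) * g

/-- the conclusion for an abstract condition -/
def Crit (Gd : ℝ → (ℝ → E3 → E3) → ℝ → ℝ → ℝ → ℝ → Prop) (α : ℝ) : Prop :=
  ∃ A : ℝ, 0 < A ∧ ∀ (T t₀ : ℝ) (u : ℝ → E3 → E3) (p : ℝ → E3 → ℝ),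
    IsHInfAxisymNS T u p → 0 ≤ t₀ → t₀ < T →
    (∃ N₀ : ℕ, ∀ N : ℕ, N₀ ≤ N → ∀ z : ℝ, ∀ t ∈ Ioo t₀ T, ∃ K : ℝ, 1 ≤ K ∧ ∃ S : Finset ℕ, S ⊆ Finset.range (N + 1) ∧
      Real.exp (A * K ^ 23) * Real.log N ≤ S.card ∧ ∀ n ∈ S, Gd t₀ u t z ((1/4) ^ n) K) →
    ∃ C r₁ : ℝ, 0 < r₁ ∧ r₁ < 1 ∧ ∀ t ∈ Ico 0 T, ∀ x : E3, 0 < rad x → rad x < r₁ →
      |circ (u t) x| ≤ C * |Real.log (rad x)| ^ (-α)

theorem mainG {Gd : ℝ → (ℝ → E3 → E3) → ℝ → ℝ → ℝ → ℝ → Prop} (hGd : Stp Gd) (α : ℝ) (hα : 0 < α) : Crit Gd α := by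
  obtain ⟨C₁, hC₁, HS⟩ := hGd
  refine ⟨C₁ + α, by positivity, ?_⟩
  intro T t₀ u p h ht₀ ht₀T hyp
  obtain ⟨N₀, hyp⟩ := hyp
  obtain ⟨b, M, hb, hM1, hM⟩ := H94.WL.near h
  have hM0 : 0 < M := by linarith
  obtain ⟨t₁, ht₁⟩ : ∃ t₁ : ℝ, t₁ = (t₀ + T) / 2 := ⟨_, rfl⟩
  have ht₁0 : t₀ < t₁ := by rw [ht₁]; linarith
  have ht₁T : t₁ < T := by rw [ht₁]; linarith
  obtain ⟨d, hd⟩ : ∃ d : ℝ, d = t₁ - t₀ := ⟨_, rfl⟩
  have hd0 : 0 < d := by rw [hd]; linarith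
  obtain ⟨n₁, hn₁⟩ := exists_pow_lt_of_lt_one (show 0 < min b (min 1 d) by positivity) (show (1/4 : ℝ) < 1 by norm_num)
  have hn₁b : (1/4 : ℝ) ^ n₁ < b := lt_of_lt_of_le hn₁ (min_le_left _ _)
  have hn₁1 : (1/4 : ℝ) ^ n₁ < 1 := lt_of_lt_of_le hn₁ ((min_le_right _ _).trans (min_le_left _ _))
  have hn₁d : (1/4 : ℝ) ^ n₁ < d := lt_of_lt_of_le hn₁ ((min_le_right _ _).trans (min_le_right _ _))
  have hpos : ∀ n : ℕ, (0:ℝ) < (1/4) ^ n := fun n => by positivity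
  have hle : ∀ n : ℕ, n₁ ≤ n → (1/4 : ℝ) ^ n ≤ (1/4) ^ n₁ := fun n hn =>
    pow_le_pow_of_le_one (by norm_num) (by norm_num) hn
  have hsq : ∀ n : ℕ, n₁ ≤ n → ((1/4 : ℝ) ^ n) ^ 2 < d := fun n hn => by
    have h1 := hle n hn
    have h2 := hpos n
    nlinarith only [hn₁1, hn₁d, h1, h2]
  -- the iteration
  have hiter : ∀ z t K : ℝ, t₁ ≤ t → t < T → 1 ≤ K → ∀ S : Finset ℕ, (∀ n ∈ S, Gd t₀ u t z ((1/4) ^ n) K) →
      ∀ n : ℕ, n₁ ≤ n → ∀ t' ∈ Icc (t - ((1/4) ^ n) ^ 2) t, ∀ x ∈ Metric.ball (axp z) ((1/4) ^ n),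
      |circ (u t') x| ≤ (1 - Real.exp (-(C₁ * K ^ 23))) ^ cnt S n₁ n * M := by
    intro z t K ht htT hK S hS n hn
    induction n, hn using Nat.le_induction with
    | base =>
      intro t' ht' x hx
      rw [cnt_zero, pow_zero, one_mul]
      have hx1 : rad x ≤ b := by
        have h2 : rad x ≤ ‖x - axp z‖ := StepA_rad x z
        rw [Metric.mem_ball, dist_eq_norm] at hx
        linarith
      refine hM t' ⟨?_, lt_of_le_of_lt ht'.2 htT⟩ x hx1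
      have h1 := ht'.1
      have h2 := hsq n₁ le_rfl
      linarith
    | succ n hn ih =>
      have e1 : ((1/4 : ℝ) ^ (n + 1)) ^ 2 = ((1/4) ^ n) ^ 2 / 16 := by ring
      have e2 : (1/4 : ℝ) ^ (n + 1) = (1/4) ^ n / 4 := by ring
      by_cases hnS : n ∈ S
      · have e3 : (1 - Real.exp (-(C₁ * K ^ 23))) ^ (cnt S n₁ n + 1) * M =
            (1 - Real.exp (-(C₁ * K ^ 23))) * ((1 - Real.exp (-(C₁ * K ^ 23))) ^ cnt S n₁ n * M) := by ring
        rw [cnt_succ S hnS hn, e3, e1, e2]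
        exact HS T u p h t₀ t ((1/4) ^ n) z K _ ht₀ htT (hpos n) (by linarith [hsq n hn]) hK (hS n hnS) ih
      · rw [cnt_succ_le S hnS]
        intro t' ht' x hx
        rw [e1] at ht'
        rw [e2] at hx
        refine ih t' ⟨?_, ht'.2⟩ x ?_
        · have := ht'.1
          have h3 : 0 ≤ ((1/4 : ℝ) ^ n) ^ 2 := by positivity
          linarith
        · rw [Metric.mem_ball] at hx ⊢
          have := hpos n
          linarith
  -- late times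
  obtain ⟨L, hL⟩ : ∃ L : ℝ, L = 4 * Real.log 4 := ⟨_, rfl⟩
  have hl4 : 0 < Real.log 4 := Real.log_pos (by norm_num)
  have hL0 : 0 < L := by rw [hL]; positivity
  obtain ⟨k₀, hk₀⟩ : ∃ k₀ : ℕ, k₀ = max N₀ n₁ + 2 := ⟨_, rfl⟩
  have hlate : ∀ t ∈ Ico t₁ T, ∀ x : E3, 0 < rad x → rad x < (1/4) ^ k₀ / 16 →
      |circ (u t) x| ≤ M * Real.exp n₁ * L ^ α * |Real.log (rad x)| ^ (-α) := by
    intro t ht x hx hxr
    have hx1 : rad x < 1 := by
      have : (1/4 : ℝ) ^ k₀ ≤ 1 := pow_le_one₀ (by norm_num) (by norm_num)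
      linarith
    obtain ⟨k, hk1, hk2⟩ := H16.TU.Xf_k hx hx1
    have hkk : k₀ < k := by
      by_contra hc
      rw [not_lt] at hc
      have h1 : (1/4 : ℝ) ^ k₀ ≤ (1/4) ^ k := pow_le_pow_of_le_one (by norm_num) (by norm_num) hc
      linarith
    obtain ⟨N, rfl⟩ : ∃ N : ℕ, k = N + 1 := ⟨k - 1, by omega⟩
    have hN0 : N₀ ≤ N := by
      have := le_max_left N₀ n₁
      omega
    have hn1N : n₁ ≤ N + 1 := by
      have := le_max_right N₀ n₁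
      omega
    have hN1 : 1 ≤ N := by omega
    have hNr : (1:ℝ) ≤ N := by exact_mod_cast hN1
    obtain ⟨K, hK, S, hSr, hSc, hSg⟩ := hyp N hN0 (x 2) t ⟨by linarith [ht.1], ht.2⟩
    have h1 := hiter (x 2) t K ht.1 ht.2 hK S hSg (N + 1) hn1N t
      ⟨by linarith [sq_nonneg ((1/4 : ℝ) ^ (N + 1))], le_rfl⟩ x (by
        rw [Metric.mem_ball, dist_eq_norm, Crit_axp]; exact hk1)
    have hK23 : 1 ≤ K ^ 23 := one_le_pow₀ hK
    have hq0 : 0 ≤ C₁ * K ^ 23 := by positivity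
    have h2 := Main_pow (θ := 1 - Real.exp (-(C₁ * K ^ 23))) rfl hq0 (cnt S n₁ (N + 1))
    -- the count
    have h3 : (S.card : ℝ) ≤ cnt S n₁ (N + 1) + n₁ := by
      exact_mod_cast cnt_ge hSr
    have hlogN : 0 ≤ Real.log N := Real.log_nonneg hNr
    have hE : 0 < Real.exp (-(C₁ * K ^ 23)) := Real.exp_pos _
    have hE1 : Real.exp (-(C₁ * K ^ 23)) ≤ 1 := Real.exp_le_one_iff.2 (by linarith)
    have h4 : α * Real.log N - n₁ ≤ cnt S n₁ (N + 1) * Real.exp (-(C₁ * K ^ 23)) := by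
      have g1 : Real.exp ((C₁ + α) * K ^ 23) * Real.log N - n₁ ≤ cnt S n₁ (N + 1) := by linarith
      have g2 := mul_le_mul_of_nonneg_right g1 hE.le
      refine le_trans ?_ g2
      have g3 : (Real.exp ((C₁ + α) * K ^ 23) * Real.log N - n₁) * Real.exp (-(C₁ * K ^ 23)) =
          Real.exp (α * K ^ 23) * Real.log N - n₁ * Real.exp (-(C₁ * K ^ 23)) := by
        have g4 : Real.exp ((C₁ + α) * K ^ 23) * Real.exp (-(C₁ * K ^ 23)) = Real.exp (α * K ^ 23) := by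
          rw [← Real.exp_add]
          congr 1
          ring
        rw [← g4]
        ring
      rw [g3]
      have g5 : α ≤ Real.exp (α * K ^ 23) := by
        have := Real.add_one_le_exp (α * K ^ 23)
        nlinarith only [hα, hx, hx1, hK23, this]
      have g6 := mul_le_mul_of_nonneg_right g5 hlogN
      have g7 : (n₁ : ℝ) * Real.exp (-(C₁ * K ^ 23)) ≤ n₁ := mul_le_of_le_one_right (Nat.cast_nonneg _) hE1
      linarith only [g6, g7]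
    have h5 : Real.exp (-(cnt S n₁ (N + 1) * Real.exp (-(C₁ * K ^ 23)))) ≤ Real.exp n₁ * (N : ℝ) ^ (-α) := by
      have g1 : (N : ℝ) ^ (-α) = Real.exp (-(α * Real.log N)) := by
        rw [Real.rpow_def_of_pos (by linarith only [hx, hx1, hNr])]
        congr 1
        ring
      rw [g1, ← Real.exp_add]
      exact Real.exp_le_exp.2 (by linarith)
    have hlr : Real.log (rad x) < 0 := Real.log_neg hx hx1
    have h6 : |Real.log (rad x)| ≤ L * N := by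
      rw [abs_of_neg hlr]
      have g1 : (1/4 : ℝ) ^ (N + 3) ≤ rad x := by
        have : (1/4 : ℝ) ^ (N + 3) = (1/4) ^ (N + 1) / 16 := by ring
        rw [this]
        linarith
      have g2 := Real.log_le_log (hpos _) g1
      rw [Real.log_pow, one_div, Real.log_inv] at g2
      push_cast at g2
      rw [hL]
      nlinarith only [hl4, hNr, g2]
    have h7 : (N : ℝ) ^ (-α) ≤ L ^ α * |Real.log (rad x)| ^ (-α) := by
      have g1 : 0 < |Real.log (rad x)| := abs_pos.2 hlr.ne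
      have g2 : |Real.log (rad x)| / L ≤ N := by
        rw [div_le_iff₀ hL0]
        linarith only [h6]
      have g3 : (N : ℝ) ^ (-α) ≤ (|Real.log (rad x)| / L) ^ (-α) :=
        Real.rpow_le_rpow_of_nonpos (by positivity) g2 (by linarith)
      refine g3.trans (le_of_eq ?_)
      rw [Real.div_rpow g1.le hL0.le, Real.rpow_neg hL0.le, div_inv_eq_mul, mul_comm]
    calc |circ (u t) x| ≤ (1 - Real.exp (-(C₁ * K ^ 23))) ^ cnt S n₁ (N + 1) * M := h1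
      _ ≤ (Real.exp n₁ * (L ^ α * |Real.log (rad x)| ^ (-α))) * M := by
          refine mul_le_mul_of_nonneg_right (h2.trans (h5.trans ?_)) hM0.le
          exact mul_le_mul_of_nonneg_left h7 (Real.exp_pos _).le
      _ = _ := by ring
  -- early times
  obtain ⟨K', hK'⟩ := svwDB h ht₁T
  obtain ⟨r₂, hr₂0, hr₂1, hr₂⟩ := MainA_sq (K := K') α
  refine ⟨M * Real.exp n₁ * L ^ α + 1, min ((1/4) ^ k₀ / 16) r₂, by positivity, lt_of_le_of_lt (min_le_right _ _) hr₂1, ?_⟩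
  intro t ht x hx hxr
  have hLα : 0 ≤ M * Real.exp n₁ * L ^ α := by positivity
  have hlp : 0 ≤ |Real.log (rad x)| ^ (-α) := Real.rpow_nonneg (abs_nonneg _) _
  rcases le_or_gt t₁ t with hta | hta
  · have h1 := hlate t ⟨hta, ht.2⟩ x hx (lt_of_lt_of_le hxr (min_le_left _ _))
    rw [add_mul, one_mul]
    linarith
  · have hv := axF_of h.ns ht
    have h1 : |sV (u t) x| ≤ K' := (DB_BL (hK' t ⟨ht.1, hta.le⟩).1).1 x
    have h2 := hr₂ (rad x) hx (lt_of_lt_of_le hxr (min_le_right _ _))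
    rw [circ_eq hv, abs_mul, ← rad_sq', abs_of_nonneg (by positivity), add_mul, one_mul]
    calc rad x ^ 2 * |sV (u t) x| ≤ rad x ^ 2 * K' := by gcongr
      _ = K' * rad x ^ 2 := mul_comm _ _
      _ ≤ |Real.log (rad x)| ^ (-α) := h2
      _ ≤ _ := by
        have := mul_nonneg hLα hlp
        linarith

theorem main (α : ℝ) (hα : 0 < α) : ∃ A : ℝ, 0 < A ∧ ∀ (T t₀ : ℝ) (u : ℝ → E3 → E3) (p : ℝ → E3 → ℝ),
    IsHInfAxisymNS T u p → 0 ≤ t₀ → t₀ < T →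
    (∃ N₀ : ℕ, ∀ N : ℕ, N₀ ≤ N → ∀ z : ℝ, ∀ t ∈ Ioo t₀ T, ∃ K : ℝ, 1 ≤ K ∧ ∃ S : Finset ℕ, S ⊆ Finset.range (N + 1) ∧
      Real.exp (A * K ^ 23) * Real.log N ≤ S.card ∧ ∀ n ∈ S, Good t₀ u t z ((1/4) ^ n) K) →
    ∃ C r₁ : ℝ, 0 < r₁ ∧ r₁ < 1 ∧ ∀ t ∈ Ico 0 T, ∀ x : E3, 0 < rad x → rad x < r₁ →
      |circ (u t) x| ≤ C * |Real.log (rad x)| ^ (-α) :=
  mainG stp α hα

end Pool.Agent.H90.AX
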