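/-
The criterion under a form bound; the flux condition is a special case.
-/
import Pool.Agent.H90.AX.Main

set_option autoImplicit false

open Set Filter Topology MeasureTheory
open scoped ContDiff

namespace Pool.Agent.H90.AX

open Pool.Agent.H16 Pool.Agent.H87.NS Pool.Agent.H72.CC

/-- The scale `a` satisfies the form bound with the constant `K`. -/
def FGood (t₀ : ℝ) (u : ℝ → E3 → E3) (t z a K : ℝ) : Prop :=
  ∃ m : ℝ → ℝ, ContinuousOn m (Icc (t - a ^ 2) t) ∧ (∀ s, 0 ≤ m s) ∧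
    (∀ s ∈ Icc (t - a ^ 2) t, t₀ < s → ∀ f : E3 → ℝ, ContDiff ℝ 1 f → (∀ x, 0 ≤ f x) → (∀ x, a ≤ ‖x - axp z‖ → f x = 0) →
      ∫ x, (flx (u s) (rad x) (x 2) / rad x) ^ 2 * f x ≤ m s * a * ∫ x, ‖fderiv ℝ f x‖) ∧
    ∫ s in (t - a ^ 2)..t, m s ^ 5 ≤ K ^ 5 * a ^ 2

theorem Fm_cov (g : E3 → ℝ) {ρ : ℝ} (hρ : 0 < ρ) (z : ℝ) : ∫ y, g (axp z + ρ • y) = ρ⁻¹ ^ 3 * ∫ x, g x := by
  have h1 := Measure.integral_comp_smul_of_nonneg (volume : Measure E3) (fun x => g (axp z + x)) ρ (hR := hρ.le)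
  have hfr : Module.finrank ℝ E3 = 3 := by simp
  have h2 : ∫ x, g (axp z + x) = ∫ x, g x := integral_add_left_eq_self g (axp z)
  rw [hfr, h2, smul_eq_mul] at h1
  rw [h1, inv_pow]

theorem Fm_norm {f : E3 → ℝ} (x : E3) : ‖fderiv ℝ f x‖ ≤ √(gsq f x) := by
  refine ContinuousLinearMap.opNorm_le_bound _ (Real.sqrt_nonneg _) fun v => ?_
  have hv : v = ∑ i, v i • e i := by
    ext j
    fin_cases j <;> simp [e, Fin.sum_univ_three]
  have h1 : fderiv ℝ f x v = ∑ i, v i * pd i f x := by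
    conv_lhs => rw [hv]
    rw [map_sum]
    refine Finset.sum_congr rfl fun i _ => ?_
    rw [map_smul, smul_eq_mul]
    rfl
  rw [h1, Real.norm_eq_abs]
  refine abs_le_of_sq_le_sq ?_ (by positivity)
  rw [mul_pow, Real.sq_sqrt (gsq_nonneg f x)]
  have h2 : (∑ i, v i * pd i f x) ^ 2 ≤ (∑ i, v i ^ 2) * ∑ i, pd i f x ^ 2 := Finset.sum_mul_sq_le_sq_mul_sq _ _ _
  have h3 : ‖v‖ ^ 2 = ∑ i, v i ^ 2 := by
    rw [EuclideanSpace.norm_sq_eq]
    simp [sq_abs]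
  rw [h3]
  unfold gsq
  rw [mul_comm (∑ i, pd i f x ^ 2)]
  exact h2

/-- the weight -/
theorem Fm_wt {v : E3 → E3} (hv : AxF v) (x : E3) : (flx v (rad x) (x 2) / rad x) ^ 2 = rsq x * sP v x ^ 2 := by
  have h1 := flx_eq hv x
  have h2 : rsq x = rad x ^ 2 := (rad_sq' x).symm
  rw [h1, h2]
  rcases (rad_nonneg x).eq_or_lt with h0 | h0
  · rw [← h0]
    norm_num
  · field_simp

theorem Fm_map {ρ : ℝ} (hρ : 0 < ρ) (z : ℝ) (x : E3) : axp z + ρ • (ρ⁻¹ • (x - axp z)) = x := by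
  rw [smul_smul, mul_inv_cancel₀ hρ.ne', one_smul, add_sub_cancel]

theorem Fm_map' {ρ : ℝ} (hρ : 0 < ρ) (z : ℝ) (y : E3) : ρ⁻¹ • (axp z + ρ • y - axp z) = y := by
  rw [add_sub_cancel_left, smul_smul, inv_mul_cancel₀ hρ.ne', one_smul]

theorem Fm_supp {f : E3 → ℝ} {z a : ℝ} (h : ∀ x, a ≤ ‖x - axp z‖ → f x = 0) : HasCompactSupport f := by
  refine HasCompactSupport.intro (isCompact_closedBall (axp z) a) fun x hx => h x ?_
  rw [Metric.mem_closedBall, not_le, dist_eq_norm] at hx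
  exact hx.le

/-- the derivative of a rescaled function -/
theorem Fm_der {f : E3 → ℝ} (hf : ContDiff ℝ 1 f) {ρ : ℝ} (hρ : 0 < ρ) (z : ℝ) (y : E3) :
    ‖fderiv ℝ (fun y => f (axp z + ρ • y)) y‖ = ρ * ‖fderiv ℝ f (axp z + ρ • y)‖ := by
  have h1 : HasFDerivAt (fun y : E3 => axp z + ρ • y) (ρ • ContinuousLinearMap.id ℝ E3) y :=
    ((hasFDerivAt_id y).const_smul ρ).const_add (axp z)
  have h2 := ((hf.differentiable (by norm_num)) (axp z + ρ • y)).hasFDerivAt.comp y h1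
  have h3 : fderiv ℝ (fun y => f (axp z + ρ • y)) y = (fderiv ℝ f (axp z + ρ • y)).comp (ρ • ContinuousLinearMap.id ℝ E3) :=
    h2.fderiv
  rw [h3]
  have h4 : (fderiv ℝ f (axp z + ρ • y)).comp (ρ • ContinuousLinearMap.id ℝ E3) = ρ • fderiv ℝ f (axp z + ρ • y) := by
    ext v
    simp
  rw [h4, norm_smul, Real.norm_of_nonneg hρ.le]

theorem Fm_FB {v : E3 → E3} (hv : AxF v) {ρ z M : ℝ} (hρ : 0 < ρ) (hM : 0 ≤ M)
    (h : ∀ f : E3 → ℝ, ContDiff ℝ 1 f → (∀ x, 0 ≤ f x) → (∀ x, ρ ≤ ‖x - axp z‖ → f x = 0) →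
      ∫ x, (flx v (rad x) (x 2) / rad x) ^ 2 * f x ≤ M * ρ * ∫ x, ‖fderiv ℝ f x‖) :
    FB (fun y => ρ * sP v (axp z + ρ • y)) M := by
  intro g hg hgc hg1 hg0
  obtain ⟨f, hf⟩ : ∃ f : E3 → ℝ, f = fun x => g (ρ⁻¹ • (x - axp z)) := ⟨_, rfl⟩
  have hgf : ∀ y, f (axp z + ρ • y) = g y := fun y => by
    rw [hf]
    simp only
    rw [Fm_map' hρ z y]
  have hfs : ContDiff ℝ 1 f := by
    rw [hf]
    have h2 : ContDiff ℝ 1 (fun x : E3 => ρ⁻¹ • (x - axp z)) := by fun_prop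
    exact hg.comp h2
  have hf1 : ∀ x, ρ ≤ ‖x - axp z‖ → f x = 0 := by
    intro x hx
    rw [hf]
    refine hg1 _ ?_
    rw [norm_smul, norm_inv, Real.norm_of_nonneg hρ.le]
    rw [← div_eq_inv_mul, le_div_iff₀ hρ, one_mul]
    exact hx
  have h1 := h f hfs (fun x => by rw [hf]; exact hg0 _) hf1
  have e1 : ∫ y, rsq y * (ρ * sP v (axp z + ρ • y)) ^ 2 * g y =
      ρ⁻¹ ^ 3 * ∫ x, (flx v (rad x) (x 2) / rad x) ^ 2 * f x := by
    rw [← Fm_cov (fun x => (flx v (rad x) (x 2) / rad x) ^ 2 * f x) hρ z]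
    congr 1
    funext y
    rw [Fm_wt hv, hgf, Stp_rsq]
    ring
  have e2 : ∫ y, ‖fderiv ℝ g y‖ = ρ * (ρ⁻¹ ^ 3 * ∫ x, ‖fderiv ℝ f x‖) := by
    rw [← Fm_cov (fun x => ‖fderiv ℝ f x‖) hρ z, ← integral_const_mul]
    congr 1
    funext y
    rw [← Fm_der hfs hρ z y]
    congr 2
    funext y
    exact (hgf y).symm
  have e3 : ∫ y, ‖fderiv ℝ g y‖ ≤ ∫ y, √(gsq g y) := by
    have hd : Continuous fun y => fderiv ℝ g y := hg.continuous_fderiv (by norm_num)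
    have hs0 : HasCompactSupport (fderiv ℝ g) := hgc.fderiv ℝ
    refine integral_mono (hd.norm.integrable_of_hasCompactSupport hs0.norm) ?_ fun y => Fm_norm y
    refine Continuous.integrable_of_hasCompactSupport ?_ ?_
    · refine Continuous.sqrt ?_
      unfold gsq
      exact continuous_finsetSum _ fun i _ => (pd_cont hg i).pow 2
    · refine hs0.mono' ?_
      intro y hy
      by_contra hc
      apply hy
      have h4 : fderiv ℝ g y = 0 := image_eq_zero_of_notMem_tsupport hc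
      have h5 : ∀ i, pd i g y = 0 := fun i => by
        unfold pd
        rw [h4]
        rfl
      simp [gsq, h5]
  have h2 := mul_le_mul_of_nonneg_left h1 (show 0 ≤ ρ⁻¹ ^ 3 by positivity)
  rw [← e1] at h2
  have e4 : ρ⁻¹ ^ 3 * (M * ρ * ∫ x, ‖fderiv ℝ f x‖) = M * ∫ y, ‖fderiv ℝ g y‖ := by
    rw [e2]
    ring
  rw [e4] at h2
  exact h2.trans (mul_le_mul_of_nonneg_left e3 hM)

theorem stpF : Stp FGood := by
  obtain ⟨C₁, hC₁, H1⟩ := osc
  refine ⟨C₁, hC₁, ?_⟩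
  intro T u p h t₀ t ρ z K g ht₀ ht hρ hρt hK hgood hg
  obtain ⟨m, hmc, hm0, hm, hm5⟩ := hgood
  have hρ2 : 0 < ρ ^ 2 := by positivity
  have hcrc := ns_crc h.ns ht hρ (by linarith) z
  have hmap : ∀ s ∈ Icc (-1 : ℝ) 0, t + ρ ^ 2 * s ∈ Icc (t - ρ ^ 2) t := fun s hs =>
    ⟨by nlinarith [hs.1], by nlinarith [hs.2]⟩
  have hFT : FT (fun s y => ρ * sP (u (t + ρ ^ 2 * s)) (axp z + ρ • y)) (fun s => m (t + ρ ^ 2 * s)) := by
    refine ⟨?_, fun s => hm0 _, fun s hs => ?_⟩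
    · refine hmc.comp (by fun_prop) hmap
    · have h1 := hmap s hs
      have h2 : t + ρ ^ 2 * s ∈ Ico 0 T := ⟨by linarith [h1.1], by linarith [h1.2]⟩
      exact Fm_FB (axF_of h.ns h2) hρ (hm0 _) (hm _ h1 (by linarith [h1.1]))
  have hint : ∫ s in (-1 : ℝ)..0, m (t + ρ ^ 2 * s) ^ 5 ≤ K ^ 5 := by
    rw [intervalIntegral.integral_comp_add_mul (fun s => m s ^ 5) hρ2.ne' t]
    have e2 : t + ρ ^ 2 * (-1) = t - ρ ^ 2 := by ring
    have e3 : t + ρ ^ 2 * 0 = t := by ring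
    rw [e2, e3, smul_eq_mul, inv_mul_le_iff₀ hρ2]
    linarith
  have h2 := H1 _ _ _ _ hcrc hFT K hK hint g (by
    intro s hs y hy
    refine hg _ (hmap s hs) _ ?_
    rw [Metric.mem_ball, dist_eq_norm, add_sub_cancel_left, norm_smul, Real.norm_of_nonneg hρ.le]
    rw [mem_ball_zero_iff] at hy
    nlinarith)
  intro t' ht' x hx
  have e4 : t - ρ ^ 2 * (1/16) = t - ρ ^ 2 / 16 := by ring
  have e5 : (1/4) * ρ = ρ / 4 := by ring
  refine StepA_sc (T := T) (u := u) (t := t) (z := z) (τ := 1/16) (r := 1/4) hρ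
    (P := fun s => |s| ≤ (1 - Real.exp (-(C₁ * K ^ 23))) * g) (by norm_num) h2 t' (by rw [e4]; exact ht') x
    (by rw [e5]; exact hx)

theorem mainF (α : ℝ) (hα : 0 < α) : Crit FGood α := mainG stpF α hα

/-- The flux condition implies the form bound. -/
theorem Good.form {t₀ t z a K T : ℝ} {u : ℝ → E3 → E3} {p : ℝ → E3 → ℝ} (h : IsAxisymNS T u p) (ht₀ : 0 ≤ t₀) (ht : t < T)
    (ha : 0 < a) (H : Good t₀ u t z a K) : FGood t₀ u t z a K := by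
  obtain ⟨m, hmc, hm0, hm, hm5⟩ := H
  refine ⟨m, hmc, hm0, fun s hs hs0 f hf hf0 hf1 => ?_, hm5⟩
  have hsT : s ∈ Ico 0 T := ⟨by linarith, by linarith [hs.2]⟩
  have hv := axF_of h hsT
  have hAV := Stp_AV hv ha (hm0 s) (fun r hr => hm s hs hs0 r hr)
  have hP : Continuous (fun y => a * sP (u s) (axp z + a • y)) := by
    have h1 := (sP_smooth hv).continuous
    fun_prop
  obtain ⟨g, hg⟩ : ∃ g : E3 → ℝ, g = fun y => f (axp z + a • y) := ⟨_, rfl⟩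
  have hgs : ContDiff ℝ 1 g := by
    rw [hg]
    have h2 : ContDiff ℝ 1 (fun y : E3 => axp z + a • y) := by fun_prop
    exact hf.comp h2
  have hg1 : ∀ y, 1 ≤ ‖y‖ → g y = 0 := by
    intro y hy
    rw [hg]
    refine hf1 _ ?_
    rw [add_sub_cancel_left, norm_smul, Real.norm_of_nonneg ha.le]
    nlinarith
  have hgc : HasCompactSupport g := by
    refine HasCompactSupport.intro (isCompact_closedBall (0 : E3) 1) fun y hy => hg1 y ?_
    rw [mem_closedBall_zero_iff, not_le] at hy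
    exact hy.le
  have h1 := cor0 hP (hm0 s) hAV hgs hgc hg1 (fun y => by rw [hg]; exact hf0 _)
  have e1 : ∫ y, rsq y * (a * sP (u s) (axp z + a • y)) ^ 2 * g y =
      a⁻¹ ^ 3 * ∫ x, (flx (u s) (rad x) (x 2) / rad x) ^ 2 * f x := by
    rw [← Fm_cov (fun x => (flx (u s) (rad x) (x 2) / rad x) ^ 2 * f x) ha z]
    congr 1
    funext y
    rw [Fm_wt hv, Stp_rsq, hg]
    ring
  have e2 : ∫ y, ‖fderiv ℝ g y‖ = a * (a⁻¹ ^ 3 * ∫ x, ‖fderiv ℝ f x‖) := by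
    rw [← Fm_cov (fun x => ‖fderiv ℝ f x‖) ha z, ← integral_const_mul]
    congr 1
    funext y
    rw [← Fm_der hf ha z y, hg]
  have e3 : ∫ y, |pd 2 g y| ≤ ∫ y, ‖fderiv ℝ g y‖ := by
    have hd : Continuous fun y => fderiv ℝ g y := hgs.continuous_fderiv (by norm_num)
    have hs0 : HasCompactSupport (fderiv ℝ g) := hgc.fderiv ℝ
    have hs2 : HasCompactSupport (pd 2 g) := by
      have h2 : HasCompactSupport (fun x => fderiv ℝ g x (e 2)) := hgc.fderiv_apply ℝ (e 2)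
      exact h2
    have hi : Integrable (pd 2 g) := (pd_cont hgs 2).integrable_of_hasCompactSupport hs2
    refine integral_mono hi.abs (hd.norm.integrable_of_hasCompactSupport hs0.norm) fun y => ?_
    have h3 := (fderiv ℝ g y).le_opNorm (e 2)
    have h4 : ‖e 2‖ = 1 := by simp [e]
    rw [h4, mul_one] at h3
    exact h3
  rw [e1] at h1
  have h2 := h1.trans (mul_le_mul_of_nonneg_left e3 (hm0 s))
  rw [e2] at h2
  have h5 := mul_le_mul_of_nonneg_left h2 (show 0 ≤ a ^ 3 by positivity)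
  have e5 : a ^ 3 * (a⁻¹ ^ 3 * ∫ x, (flx (u s) (rad x) (x 2) / rad x) ^ 2 * f x) =
      ∫ x, (flx (u s) (rad x) (x 2) / rad x) ^ 2 * f x := by
    rw [← mul_assoc, ← mul_pow, mul_inv_cancel₀ ha.ne', one_pow, one_mul]
  have e6 : a ^ 3 * (m s * (a * (a⁻¹ ^ 3 * ∫ x, ‖fderiv ℝ f x‖))) = m s * a * ∫ x, ‖fderiv ℝ f x‖ := by
    have : a ^ 3 * (m s * (a * (a⁻¹ ^ 3 * ∫ x, ‖fderiv ℝ f x‖))) = (a * a⁻¹) ^ 3 * (m s * a * ∫ x, ‖fderiv ℝ f x‖) := by ring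
    rw [this, mul_inv_cancel₀ ha.ne', one_pow, one_mul]
  rw [e5, e6] at h5
  exact h5

end Pool.Agent.H90.AX
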