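/-
ROW Uz (MP_09540e_AX). Examples. `flx v r y = ∫ s in 0..r, s v_z(s,y)`. PROOF of uz_sq: Cauchy-Schwarz `flx v r y ^2 ≤ (∫_0^r s) (∫_0^r s v_z²) = (r²/2) ∫_0^r s v_z(s,y)² ds`, and `∫_{z-a}^{z+a} ∫_0^r s v_z(s,y)² ds dy = (1/(2π)) ∫_{rad x < r, |x 2 - z| < a} v_z²` (cyl, H72/CC/Cyl.lean; axial symmetry:
`v x 2 = v (hpt (rad x) (x 2)) 2`), so `∫_{z-a}^{z+a} flx² ≤ (r²/(4π)) ∫_{rad x < a, |x 2 - z| < a} v_z²` for `0 < r ≤ a`.
PROOF of uz_pt: `|flx v r y| ≤ ∫_0^r s (C/s) = C r`.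
-/
import Pool.Agent.H90.AX.Defs2
import Pool.Agent.H94.WL.Cy
import Pool.Agent.H72.CC.RingA

set_option autoImplicit false

open Set Filter Topology MeasureTheory
open scoped ContDiff

namespace Pool.Agent.H90.AX

open Pool.Agent.H16 Pool.Agent.H87.NS Pool.Agent.H72.CC Pool.Agent.H94.WL

theorem Uz_hpt_cont : Continuous (fun q : ℝ × ℝ => hpt q.1 q.2) := by
  unfold hpt
  fun_prop

theorem Uz_g_cont {v : E3 → E3} (hv : AxF v) : Continuous (fun q : ℝ × ℝ => v (hpt q.1 q.2) 2) :=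
  (Psi_cont_coord 2).comp (hv.smooth.continuous.comp Uz_hpt_cont)

/-- Cauchy-Schwarz for the flux -/
theorem Uz_cs {v : E3 → E3} (hv : AxF v) {r : ℝ} (hr : 0 < r) (y : ℝ) :
    flx v r y ^ 2 ≤ r ^ 2 / 2 * ∫ s in (0:ℝ)..r, s * v (hpt s y) 2 ^ 2 := by
  have hg : Continuous (fun s : ℝ => v (hpt s y) 2) := (Uz_g_cont hv).comp (continuous_id.prodMk continuous_const)
  obtain ⟨J, hJ⟩ : ∃ J : ℝ, J = ∫ s in (0:ℝ)..r, s * v (hpt s y) 2 ^ 2 := ⟨_, rfl⟩
  obtain ⟨f, hf⟩ : ∃ f : ℝ, f = flx v r y := ⟨_, rfl⟩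
  have i1 : IntervalIntegrable (fun s : ℝ => s * v (hpt s y) 2) volume 0 r :=
    (continuous_id.mul hg).intervalIntegrable _ _
  have i2 : IntervalIntegrable (fun s : ℝ => s * v (hpt s y) 2 ^ 2) volume 0 r :=
    (continuous_id.mul (hg.pow 2)).intervalIntegrable _ _
  have i3 : IntervalIntegrable (fun s : ℝ => s) volume 0 r := continuous_id.intervalIntegrable _ _
  -- the quadratic form in a parameter
  have key : ∀ t : ℝ, 0 ≤ J - 2 * t * f + t ^ 2 * (r ^ 2 / 2) := by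
    intro t
    have h1 : 0 ≤ ∫ s in (0:ℝ)..r, s * (v (hpt s y) 2 - t) ^ 2 :=
      intervalIntegral.integral_nonneg hr.le fun s hs => mul_nonneg hs.1 (sq_nonneg _)
    have h2 : ∫ s in (0:ℝ)..r, s * (v (hpt s y) 2 - t) ^ 2 =
        (∫ s in (0:ℝ)..r, s * v (hpt s y) 2 ^ 2) - (∫ s in (0:ℝ)..r, 2 * t * (s * v (hpt s y) 2)) +
          ∫ s in (0:ℝ)..r, t ^ 2 * s := by
      rw [← intervalIntegral.integral_sub i2 (i1.const_mul _), ← intervalIntegral.integral_add
        (i2.sub (i1.const_mul _)) (i3.const_mul _)]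
      refine intervalIntegral.integral_congr fun s _ => ?_
      simp only []
      ring
    rw [h2, intervalIntegral.integral_const_mul, intervalIntegral.integral_const_mul, integral_id, ← hJ] at h1
    have h3 : ∫ s in (0:ℝ)..r, s * v (hpt s y) 2 = f := by rw [hf]; rfl
    rw [h3] at h1
    linarith
  rw [← hf, ← hJ]
  have hr2 : 0 < r ^ 2 / 2 := by positivity
  have h := key (f / (r ^ 2 / 2))
  have h1 : J - 2 * (f / (r ^ 2 / 2)) * f + (f / (r ^ 2 / 2)) ^ 2 * (r ^ 2 / 2) = J - f ^ 2 / (r ^ 2 / 2) := by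
    field_simp
    ring
  rw [h1] at h
  have h2 : f ^ 2 / (r ^ 2 / 2) ≤ J := by linarith
  rw [div_le_iff₀ hr2] at h2
  linarith

theorem Uz_flx_cont {v : E3 → E3} (hv : AxF v) (r : ℝ) : Continuous (fun y => flx v r y) := by
  unfold flx
  refine intervalIntegral.continuous_parametric_intervalIntegral_of_continuous' ?_ 0 r
  exact continuous_snd.mul ((Uz_g_cont hv).comp (continuous_snd.prodMk continuous_fst))

theorem Uz_null (c : ℝ) : ∀ᵐ x : E3, rad x ≠ c := by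
  have hs : MeasurableSet {p : ℝ × ℝ | p.1 = c} := measurableSet_eq_fun measurable_fst measurable_const
  have hf : Measurable ({p : ℝ × ℝ | p.1 = c}.indicator (fun _ => (1 : ENNReal))) := measurable_const.indicator hs
  have h := cyl hf
  have h1 : ∫⁻ r in Ioi (0 : ℝ), ∫⁻ z : ℝ, ENNReal.ofReal r * ({p : ℝ × ℝ | p.1 = c}.indicator (fun _ => (1 : ENNReal))) (r, z) = 0 := by
    have h2 : ∀ᵐ r : ℝ ∂(volume.restrict (Ioi (0:ℝ))), ∫⁻ z : ℝ, ENNReal.ofReal r * ({p : ℝ × ℝ | p.1 = c}.indicator (fun _ => (1 : ENNReal))) (r, z) = 0 := by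
      refine ae_restrict_of_ae ?_
      filter_upwards [Measure.ae_ne volume c] with r hr
      have h3 : ∀ z : ℝ, ENNReal.ofReal r * ({p : ℝ × ℝ | p.1 = c}.indicator (fun _ => (1 : ENNReal))) (r, z) = 0 := by
        intro z
        rw [indicator_of_notMem (show (r, z) ∉ {p : ℝ × ℝ | p.1 = c} from hr), mul_zero]
      simp [h3]
    rw [lintegral_congr_ae h2]
    simp
  rw [h1, mul_zero] at h
  have hm : Measurable (fun x : E3 => ({p : ℝ × ℝ | p.1 = c}.indicator (fun _ => (1 : ENNReal))) (rad x, x 2)) :=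
    hf.comp Cy_pc.measurable
  have h4 := (lintegral_eq_zero_iff hm).1 h
  filter_upwards [h4] with x hx hc
  rw [indicator_of_mem (show (rad x, x 2) ∈ {p : ℝ × ℝ | p.1 = c} from hc)] at hx
  exact one_ne_zero hx

theorem uz_sq {v : E3 → E3} (hv : AxF v) {a r z : ℝ} (hr : 0 < r) (hra : r ≤ a) :
    ∫ y in (z - a)..(z + a), flx v r y ^ 2 ≤
      r ^ 2 / (4 * Real.pi) * ∫ x in {x : E3 | rad x < a ∧ |x 2 - z| < a}, v x 2 ^ 2 := by
  have ha : 0 < a := hr.trans_le hra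
  have hle : z - a ≤ z + a := by linarith
  have hGc : Continuous (fun q : ℝ × ℝ => v (mk q) 2 ^ 2) := by
    have : (fun q : ℝ × ℝ => v (mk q) 2 ^ 2) = fun q : ℝ × ℝ => v (hpt q.1 q.2) 2 ^ 2 := rfl
    rw [this]
    exact (Uz_g_cont hv).pow 2
  have hFc : Continuous (fun q : ℝ × ℝ => q.1 * v (mk q) 2 ^ 2) := continuous_fst.mul hGc
  -- step 1
  have hic : Continuous (fun y : ℝ => ∫ s in (0:ℝ)..r, s * v (hpt s y) 2 ^ 2) := by
    refine intervalIntegral.continuous_parametric_intervalIntegral_of_continuous' ?_ 0 r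
    exact continuous_snd.mul (((Uz_g_cont hv).comp (continuous_snd.prodMk continuous_fst)).pow 2)
  have s1 : ∫ y in (z - a)..(z + a), flx v r y ^ 2 ≤
      r ^ 2 / 2 * ∫ y in (z - a)..(z + a), ∫ s in (0:ℝ)..r, s * v (hpt s y) 2 ^ 2 := by
    rw [← intervalIntegral.integral_const_mul]
    exact intervalIntegral.integral_mono_on hle (((Uz_flx_cont hv r).pow 2).intervalIntegrable _ _)
      ((continuous_const.mul hic).intervalIntegrable _ _) fun y _ => Uz_cs hv hr y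
  -- step 2
  have s2 : ∫ y in (z - a)..(z + a), ∫ s in (0:ℝ)..r, s * v (hpt s y) 2 ^ 2 =
      ∫ q in Icc 0 r ×ˢ Icc (z - a) (z + a), q.1 * v (mk q) 2 ^ 2 := by
    have hi : IntegrableOn (fun q : ℝ × ℝ => q.1 * v (mk q) 2 ^ 2) (Icc 0 r ×ˢ Icc (z - a) (z + a)) (volume.prod volume) := by
      rw [← Measure.volume_eq_prod]
      exact hFc.continuousOn.integrableOn_compact (isCompact_Icc.prod isCompact_Icc)
    rw [Measure.volume_eq_prod, setIntegral_prod _ hi]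
    rw [intervalIntegral.integral_of_le hle, ← integral_Icc_eq_integral_Ioc]
    have e1 : ∀ y : ℝ, ∫ s in (0:ℝ)..r, s * v (hpt s y) 2 ^ 2 = ∫ s in Icc (0:ℝ) r, s * v (hpt s y) 2 ^ 2 := by
      intro y
      rw [intervalIntegral.integral_of_le hr.le, ← integral_Icc_eq_integral_Ioc]
    simp only [e1]
    have hi2 : Integrable (fun q : ℝ × ℝ => q.2 * v (hpt q.2 q.1) 2 ^ 2)
        ((volume.restrict (Icc (z - a) (z + a))).prod (volume.restrict (Icc (0:ℝ) r))) := by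
      rw [Measure.prod_restrict, ← Measure.volume_eq_prod]
      have hc : Continuous (fun q : ℝ × ℝ => q.2 * v (hpt q.2 q.1) 2 ^ 2) :=
        continuous_snd.mul (((Uz_g_cont hv).comp (continuous_snd.prodMk continuous_fst)).pow 2)
      exact hc.continuousOn.integrableOn_compact (isCompact_Icc.prod isCompact_Icc)
    have h := integral_integral_swap (f := fun y s : ℝ => s * v (hpt s y) 2 ^ 2) hi2
    exact h
  -- step 3
  have s3 := box hGc (fun q => sq_nonneg _) (r₁ := 0) (r₂ := r) le_rfl hr.le hle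
  have s4 : ∫ x in {x : E3 | rad x ∈ Icc 0 r ∧ x 2 ∈ Icc (z - a) (z + a)}, v (mk (rad x, x 2)) 2 ^ 2 ≤
      ∫ x in {x : E3 | rad x < a ∧ |x 2 - z| < a}, v x 2 ^ 2 := by
    have e1 : ∀ x : E3, v (mk (rad x, x 2)) 2 ^ 2 = v x 2 ^ 2 := by
      intro x
      rw [(v_cyl hv x).1]
    simp only [e1]
    have hvc : Continuous (fun x : E3 => v x 2 ^ 2) := ((Psi_cont_coord 2).comp hv.smooth.continuous).pow 2
    have hsub : {x : E3 | rad x < a ∧ |x 2 - z| < a} ⊆ {x : E3 | rad x ∈ Icc 0 a ∧ x 2 ∈ Icc (z - a) (z + a)} := by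
      intro x hx
      have h1 := abs_lt.1 hx.2
      exact ⟨⟨Cy_rad0 x, hx.1.le⟩, by linarith [h1.1], by linarith [h1.2]⟩
    have hint : IntegrableOn (fun x : E3 => v x 2 ^ 2) {x : E3 | rad x < a ∧ |x 2 - z| < a} :=
      (hvc.continuousOn.integrableOn_compact (Cy_compact 0 a (z - a) (z + a))).mono_set hsub
    refine setIntegral_mono_set hint (Eventually.of_forall fun x => sq_nonneg _) ?_
    filter_upwards [Uz_null a, RingA_hyp 2 (z - a), RingA_hyp 2 (z + a)] with x h1 h2 h3 hx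
    refine ⟨lt_of_le_of_ne (hx.1.2.trans hra) h1, abs_lt.2 ⟨?_, ?_⟩⟩
    · have := lt_of_le_of_ne hx.2.1 (Ne.symm h2)
      linarith
    · have := lt_of_le_of_ne hx.2.2 h3
      linarith
  calc ∫ y in (z - a)..(z + a), flx v r y ^ 2 ≤
      r ^ 2 / 2 * ∫ y in (z - a)..(z + a), ∫ s in (0:ℝ)..r, s * v (hpt s y) 2 ^ 2 := s1
    _ = r ^ 2 / 2 * ((2 * Real.pi)⁻¹ * ∫ x in {x : E3 | rad x ∈ Icc 0 r ∧ x 2 ∈ Icc (z - a) (z + a)}, v (mk (rad x, x 2)) 2 ^ 2) := by
        rw [s2, s3]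
    _ ≤ r ^ 2 / 2 * ((2 * Real.pi)⁻¹ * ∫ x in {x : E3 | rad x < a ∧ |x 2 - z| < a}, v x 2 ^ 2) := by
        refine mul_le_mul_of_nonneg_left (mul_le_mul_of_nonneg_left s4 (by positivity)) (by positivity)
    _ = _ := by
        have := Real.pi_ne_zero
        field_simp
        ring

theorem uz_pt {v : E3 → E3} (_ : AxF v) {C a r z : ℝ} (hr : 0 < r) (hra : r ≤ a) (h : ∀ x, rad x < a → rad x * |v x 2| ≤ C) :
    ∫ y in (z - a)..(z + a), flx v r y ^ 2 ≤ 2 * C ^ 2 * a * r ^ 2 := by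
  have ha : 0 < a := hr.trans_le hra
  have hrad : ∀ s y : ℝ, 0 ≤ s → rad (hpt s y) = s := by
    intro s y hs
    unfold rad hpt
    simp [Real.sqrt_sq hs]
  have hC : 0 ≤ C := by
    have h1 := h (hpt 0 0) (by rw [hrad 0 0 le_rfl]; exact ha)
    rw [hrad 0 0 le_rfl, zero_mul] at h1
    exact h1
  have h1 : ∀ y : ℝ, |flx v r y| ≤ C * r := by
    intro y
    unfold flx
    have h2 : ‖∫ s in (0:ℝ)..r, s * v (hpt s y) 2‖ ≤ C * |r - 0| := by
      refine intervalIntegral.norm_integral_le_of_norm_le_const_ae ?_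
      filter_upwards [Measure.ae_ne volume a] with s hs hs2
      rw [uIoc_of_le hr.le] at hs2
      have h3 : s < a := lt_of_le_of_ne (hs2.2.trans hra) hs
      have h4 := h (hpt s y) (by rw [hrad s y hs2.1.le]; exact h3)
      rw [hrad s y hs2.1.le] at h4
      rw [Real.norm_eq_abs, abs_mul, abs_of_pos hs2.1]
      exact h4
    rw [sub_zero, abs_of_pos hr, Real.norm_eq_abs] at h2
    exact h2
  have h5 : ‖∫ y in (z - a)..(z + a), flx v r y ^ 2‖ ≤ (C * r) ^ 2 * |z + a - (z - a)| := by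
    refine intervalIntegral.norm_integral_le_of_norm_le_const fun y _ => ?_
    rw [Real.norm_eq_abs, abs_pow]
    exact pow_le_pow_left₀ (abs_nonneg _) (h1 y) 2
  have h6 : |z + a - (z - a)| = 2 * a := by
    rw [show z + a - (z - a) = 2 * a by ring]
    exact abs_of_pos (by positivity)
  rw [h6] at h5
  have h7 := (le_abs_self _).trans h5
  refine h7.trans (le_of_eq ?_)
  ring

end Pool.Agent.H90.AX
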