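/-
The criterion with a bound at all scales.
-/
import Pool.Agent.H90.AX.Main
import Pool.Agent.H90.AX.Uz

set_option autoImplicit false

open Set Filter Topology MeasureTheory
open scoped ContDiff

namespace Pool.Agent.H90.AX

open Pool.Agent.H16 Pool.Agent.H87.NS Pool.Agent.H72.CC

theorem flx_cont {v : E3 → E3} (hv : Continuous v) (r : ℝ) : Continuous (fun y => flx v r y) := by
  unfold flx hpt
  have h1 : Continuous (fun q : ℝ × ℝ => q.2 * v (!₂[q.2, 0, q.1]) 2) := by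
    have h2 : Continuous (fun q : ℝ × ℝ => (!₂[q.2, 0, q.1] : E3)) := by
      refine (PiLp.continuous_toLp 2 _).comp (continuous_pi fun i => ?_)
      fin_cases i
      · exact continuous_snd
      · exact continuous_const
      · exact continuous_fst
    have h3 : Continuous (fun q : ℝ × ℝ => v (!₂[q.2, 0, q.1])) := hv.comp h2
    fun_prop
  exact intervalIntegral.continuous_parametric_intervalIntegral_of_continuous' h1 0 r

/-- covering by intervals of length `2r` -/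
theorem Res_cov {f : ℝ → ℝ} (hf : Continuous f) (h0 : ∀ y, 0 ≤ f y) {r a C z : ℝ} (hr : 0 < r) (hra : r ≤ a)
    (h : ∀ z : ℝ, ∫ y in (z - r)..(z + r), f y ≤ C * r ^ 3) : ∫ y in (z - a)..(z + a), f y ≤ 2 * C * a * r ^ 2 := by
  have hC : 0 ≤ C := by
    have h1 : 0 ≤ ∫ y in (z - r)..(z + r), f y := intervalIntegral.integral_nonneg (by linarith) fun y _ => h0 y
    have h2 := h1.trans (h z)
    have h3 : 0 < r ^ 3 := by positivity
    exact nonneg_of_mul_nonneg_left h2 h3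
  have hi : ∀ c d : ℝ, IntervalIntegrable f volume c d := fun c d => hf.intervalIntegrable _ _
  obtain ⟨k, hk⟩ : ∃ k : ℕ, k = ⌈a / r⌉₊ := ⟨_, rfl⟩
  have hk1 : a / r ≤ k := by rw [hk]; exact Nat.le_ceil _
  have hk2 : (k : ℝ) < a / r + 1 := by rw [hk]; exact Nat.ceil_lt_add_one (div_nonneg (hr.le.trans hra) hr.le)
  have hk3 : a ≤ k * r := by rwa [div_le_iff₀ hr] at hk1
  have hk4 : (k : ℝ) * r < a + r := by
    have := mul_lt_mul_of_pos_right hk2 hr
    rw [add_mul, div_mul_cancel₀ _ hr.ne'] at this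
    linarith
  have hsum : ∑ j ∈ Finset.range k, ∫ y in (z - a + 2 * r * j)..(z - a + 2 * r * (j + 1 : ℕ)), f y =
      ∫ y in (z - a + 2 * r * (0 : ℕ))..(z - a + 2 * r * k), f y :=
    intervalIntegral.sum_integral_adjacent_intervals (a := fun j : ℕ => z - a + 2 * r * j) fun j _ => hi _ _
  have hterm : ∀ j ∈ Finset.range k, ∫ y in (z - a + 2 * r * j)..(z - a + 2 * r * (j + 1 : ℕ)), f y ≤ C * r ^ 3 := by
    intro j _
    have h1 := h (z - a + 2 * r * j + r)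
    have e1 : z - a + 2 * r * j + r - r = z - a + 2 * r * j := by ring
    have e2 : z - a + 2 * r * j + r + r = z - a + 2 * r * (j + 1 : ℕ) := by
      push_cast
      ring
    rw [e1, e2] at h1
    exact h1
  have hle := Finset.sum_le_sum hterm
  rw [hsum, Finset.sum_const, Finset.card_range, nsmul_eq_mul] at hle
  have hmono : ∫ y in (z - a)..(z + a), f y ≤ ∫ y in (z - a + 2 * r * (0 : ℕ))..(z - a + 2 * r * k), f y := by
    have e1 : z - a + 2 * r * ((0 : ℕ) : ℝ) = z - a := by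
      push_cast
      ring
    rw [e1]
    refine intervalIntegral.integral_mono_interval le_rfl (by linarith) (by nlinarith) (Eventually.of_forall h0) (hi _ _)
  have h5 : (k : ℝ) * (C * r ^ 3) ≤ 2 * C * a * r ^ 2 := by
    have e1 : (k : ℝ) * (C * r ^ 3) = (k * r) * (C * r ^ 2) := by ring
    have h6 : 0 ≤ C * r ^ 2 := by positivity
    rw [e1]
    nlinarith
  linarith

/-- logarithms are small -/
theorem Res_log (M : ℝ) (n₀ : ℕ) : ∃ N₀ : ℕ, ∀ N : ℕ, N₀ ≤ N → M * Real.log N + n₀ ≤ N := by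
  have h1 : Tendsto (fun x : ℝ => Real.log x / x) atTop (𝓝 0) := by
    have := Real.isLittleO_log_id_atTop.tendsto_div_nhds_zero
    simpa using this
  have h2 : Tendsto (fun x : ℝ => |M| * (Real.log x / x) + n₀ * x⁻¹) atTop (𝓝 (|M| * 0 + n₀ * 0)) :=
    (h1.const_mul _).add (tendsto_inv_atTop_zero.const_mul _)
  rw [mul_zero, mul_zero, add_zero] at h2
  have h3 : ∀ᶠ x : ℝ in atTop, |M| * (Real.log x / x) + n₀ * x⁻¹ < 1 := h2.eventually (gt_mem_nhds one_pos)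
  obtain ⟨X, hX⟩ := eventually_atTop.1 h3
  obtain ⟨N₀, hN₀⟩ := exists_nat_ge (max X 1)
  refine ⟨N₀, fun N hN => ?_⟩
  have hNr : max X 1 ≤ (N : ℝ) := hN₀.trans (by exact_mod_cast hN)
  have hN1 : (1:ℝ) ≤ N := (le_max_right _ _).trans hNr
  have hNX : X ≤ (N : ℝ) := (le_max_left _ _).trans hNr
  have hN0 : (0:ℝ) < N := by linarith
  have h4 := hX N hNX
  have h5 := mul_lt_mul_of_pos_right h4 hN0
  have e1 : (|M| * (Real.log N / N) + n₀ * (N : ℝ)⁻¹) * N = |M| * Real.log N + n₀ := by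
    field_simp
  rw [e1, one_mul] at h5
  have h6 : M * Real.log N ≤ |M| * Real.log N := mul_le_mul_of_nonneg_right (le_abs_self M) (Real.log_nonneg hN1)
  linarith

/-- The criterion, with the mean square of the flux at all scales. -/
theorem flux {T t₀ : ℝ} {u : ℝ → E3 → E3} {p : ℝ → E3 → ℝ} (h : IsHInfAxisymNS T u p) (h0 : 0 ≤ t₀) (h1 : t₀ < T)
    {C r₀ : ℝ} (hr₀ : 0 < r₀)
    (hF : ∀ t ∈ Ioo t₀ T, ∀ z : ℝ, ∀ r ∈ Ioo 0 r₀, ∫ y in (z - r)..(z + r), flx (u t) r y ^ 2 ≤ C * r ^ 3)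
    {α : ℝ} (hα : 0 < α) :
    ∃ C' r₁ : ℝ, 0 < r₁ ∧ r₁ < 1 ∧ ∀ t ∈ Ico 0 T, ∀ x : E3, 0 < rad x → rad x < r₁ →
      |circ (u t) x| ≤ C' * |Real.log (rad x)| ^ (-α) := by
  obtain ⟨A, hA, HA⟩ := main α hα
  refine HA T t₀ u p h h0 h1 ?_
  obtain ⟨K, hK⟩ : ∃ K : ℝ, K = max 1 (2 * |C|) := ⟨_, rfl⟩
  have hK1 : 1 ≤ K := by rw [hK]; exact le_max_left _ _
  have hKC : 2 * |C| ≤ K := by rw [hK]; exact le_max_right _ _
  obtain ⟨n₀, hn₀⟩ := exists_pow_lt_of_lt_one hr₀ (show (1/4 : ℝ) < 1 by norm_num)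
  obtain ⟨N₀, hN₀⟩ := Res_log (Real.exp (A * K ^ 23)) n₀
  refine ⟨N₀, fun N hN z t ht => ⟨K, hK1, (Finset.range (N + 1)).filter (fun n => n₀ ≤ n), Finset.filter_subset _ _, ?_, ?_⟩⟩
  · have h2 : (Finset.range (N + 1)).card ≤ ((Finset.range (N + 1)).filter (fun n => n₀ ≤ n)).card + n₀ := by
      have h3 : Finset.range (N + 1) ⊆ ((Finset.range (N + 1)).filter (fun n => n₀ ≤ n)) ∪ Finset.range n₀ := by
        intro j hj
        rw [Finset.mem_union, Finset.mem_filter]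
        by_cases h : n₀ ≤ j
        · exact Or.inl ⟨hj, h⟩
        · exact Or.inr (Finset.mem_range.2 (by omega))
      refine (Finset.card_le_card h3).trans ((Finset.card_union_le _ _).trans ?_)
      rw [Finset.card_range]
    rw [Finset.card_range] at h2
    have h3 := hN₀ N hN
    have h4 : ((N + 1 : ℕ) : ℝ) ≤ (((Finset.range (N + 1)).filter (fun n => n₀ ≤ n)).card : ℝ) + n₀ := by
      exact_mod_cast h2
    push_cast at h4
    linarith
  · intro n hn
    rw [Finset.mem_filter] at hn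
    obtain ⟨a, ha⟩ : ∃ a : ℝ, a = (1/4) ^ n := ⟨_, rfl⟩
    have ha0 : 0 < a := by rw [ha]; positivity
    have har : a < r₀ := by
      rw [ha]
      exact lt_of_le_of_lt (pow_le_pow_of_le_one (by norm_num) (by norm_num) hn.2) hn₀
    rw [← ha]
    refine ⟨fun _ => 2 * |C|, continuousOn_const, fun _ => by positivity, fun s hs hs0 r hr => ?_, ?_⟩
    · have hsT : s ∈ Ico 0 T := ⟨by linarith, by linarith [hs.2, ht.2]⟩
      have hc : Continuous (u s) := (axF_of h.ns hsT).smooth.continuous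
      have h2 := Res_cov (f := fun y => flx (u s) r y ^ 2) ((flx_cont hc r).pow 2) (fun y => sq_nonneg _)
        (r := r) (a := a) (C := C) (z := z) hr.1 hr.2
        (fun z => hF s ⟨hs0, hsT.2⟩ z r ⟨hr.1, lt_of_le_of_lt hr.2 har⟩)
      refine h2.trans ?_
      have h3 := le_abs_self C
      have h4 : 0 ≤ a * r ^ 2 := by positivity
      nlinarith
    · rw [intervalIntegral.integral_const, smul_eq_mul]
      have h2 : (2 * |C|) ^ 5 ≤ K ^ 5 := pow_le_pow_left₀ (by positivity) hKC 5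
      have e1 : t - (t - a ^ 2) = a ^ 2 := by ring
      rw [e1, mul_comm]
      exact mul_le_mul_of_nonneg_right h2 (by positivity)

/-- The scaled energy of the axial velocity alone. -/
theorem scaledEnergy {T t₀ : ℝ} {u : ℝ → E3 → E3} {p : ℝ → E3 → ℝ} (h : IsHInfAxisymNS T u p) (h0 : 0 ≤ t₀) (h1 : t₀ < T)
    {C r₀ : ℝ} (hr₀ : 0 < r₀)
    (hF : ∀ t ∈ Ioo t₀ T, ∀ z : ℝ, ∀ a ∈ Ioo 0 r₀, ∫ x in {x : E3 | rad x < a ∧ |x 2 - z| < a}, u t x 2 ^ 2 ≤ C * a)
    {α : ℝ} (hα : 0 < α) :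
    ∃ C' r₁ : ℝ, 0 < r₁ ∧ r₁ < 1 ∧ ∀ t ∈ Ico 0 T, ∀ x : E3, 0 < rad x → rad x < r₁ →
      |circ (u t) x| ≤ C' * |Real.log (rad x)| ^ (-α) := by
  refine flux h h0 h1 (C := C / (4 * Real.pi)) hr₀ (fun t ht z r hr => ?_) hα
  have hm : t ∈ Ico 0 T := ⟨by linarith [ht.1], ht.2⟩
  have h2 := uz_sq (axF_of h.ns hm) (a := r) (r := r) (z := z) hr.1 le_rfl
  refine h2.trans ?_
  have h3 := mul_le_mul_of_nonneg_left (hF t ht z r hr) (show 0 ≤ r ^ 2 / (4 * Real.pi) by positivity)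
  refine h3.trans (le_of_eq ?_)
  ring

/-- The axial velocity alone of type I in the distance to the axis. -/
theorem axialTypeOne {T t₀ : ℝ} {u : ℝ → E3 → E3} {p : ℝ → E3 → ℝ} (h : IsHInfAxisymNS T u p) (h0 : 0 ≤ t₀) (h1 : t₀ < T)
    {C r₀ : ℝ} (hr₀ : 0 < r₀) (hF : ∀ t ∈ Ioo t₀ T, ∀ x : E3, rad x < r₀ → rad x * |u t x 2| ≤ C)
    {α : ℝ} (hα : 0 < α) :
    ∃ C' r₁ : ℝ, 0 < r₁ ∧ r₁ < 1 ∧ ∀ t ∈ Ico 0 T, ∀ x : E3, 0 < rad x → rad x < r₁ →
      |circ (u t) x| ≤ C' * |Real.log (rad x)| ^ (-α) := by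
  refine flux h h0 h1 (C := 2 * C ^ 2) hr₀ (fun t ht z r hr => ?_) hα
  have hm : t ∈ Ico 0 T := ⟨by linarith [ht.1], ht.2⟩
  have h2 := uz_pt (axF_of h.ns hm) (C := C) (a := r) (r := r) (z := z) hr.1 le_rfl
    (fun x hx => hF t ht x (hx.trans hr.2))
  refine h2.trans (le_of_eq ?_)
  ring

end Pool.Agent.H90.AX
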