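/-
The criterion with a slowly growing bound at all scales.
-/
import Pool.Agent.H90.AX.Res

set_option autoImplicit false

open Set Filter Topology MeasureTheory
open scoped ContDiff

namespace Pool.Agent.H90.AX

open Pool.Agent.H16 Pool.Agent.H87.NS Pool.Agent.H72.CC

theorem Lg_lim (M : ℝ) (n₀ : ℕ) : ∃ N₀ : ℕ, ∀ N : ℕ, N₀ ≤ N → M * (√(4 * N) * Real.log N) + n₀ ≤ N := by
  have h1 : Tendsto (fun x : ℝ => Real.log x / x ^ (1/2 : ℝ)) atTop (𝓝 0) :=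
    (isLittleO_log_rpow_atTop (by norm_num : (0:ℝ) < 1/2)).tendsto_div_nhds_zero
  have h2 : Tendsto (fun x : ℝ => (|M| * 2) * (Real.log x / x ^ (1/2 : ℝ)) + n₀ * x⁻¹) atTop (𝓝 ((|M| * 2) * 0 + n₀ * 0)) :=
    (h1.const_mul _).add (tendsto_inv_atTop_zero.const_mul _)
  rw [mul_zero, mul_zero, add_zero] at h2
  have h3 := h2.eventually (gt_mem_nhds one_pos)
  obtain ⟨X, hX⟩ := eventually_atTop.1 h3
  obtain ⟨N₀, hN₀⟩ := exists_nat_ge (max X 1)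
  refine ⟨N₀, fun N hN => ?_⟩
  have hNr : max X 1 ≤ (N : ℝ) := hN₀.trans (by exact_mod_cast hN)
  have hN1 : (1:ℝ) ≤ N := (le_max_right _ _).trans hNr
  have hNX : X ≤ (N : ℝ) := (le_max_left _ _).trans hNr
  have hN0 : (0:ℝ) < N := by linarith
  have h4 := hX N hNX
  have h5 := mul_lt_mul_of_pos_right h4 hN0
  have hs : (N : ℝ) ^ (1/2 : ℝ) = √N := by rw [Real.sqrt_eq_rpow]
  have hs0 : 0 < √(N : ℝ) := Real.sqrt_pos.2 hN0
  have hss : √(N : ℝ) * √(N : ℝ) = N := Real.mul_self_sqrt hN0.le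
  have e1 : ((|M| * 2) * (Real.log N / (N : ℝ) ^ (1/2 : ℝ)) + n₀ * (N : ℝ)⁻¹) * N = |M| * (2 * √N * Real.log N) + n₀ := by
    rw [hs]
    have e2 : Real.log N / √(N : ℝ) * N = √N * Real.log N := by
      rw [div_mul_eq_mul_div, div_eq_iff hs0.ne']
      calc Real.log N * N = Real.log N * (√N * √N) := by rw [hss]
        _ = _ := by ring
    have e3 : (n₀ : ℝ) * (N : ℝ)⁻¹ * N = n₀ := by field_simp
    rw [add_mul, e3, mul_assoc, e2]
    ring
  rw [e1, one_mul] at h5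
  have e4 : √(4 * (N : ℝ)) = 2 * √N := by
    rw [Real.sqrt_mul (by norm_num), show (4 : ℝ) = 2 ^ 2 by norm_num, Real.sqrt_sq (by norm_num)]
  rw [e4]
  have hl : 0 ≤ Real.log N := Real.log_nonneg hN1
  have h6 : M * (2 * √N * Real.log N) ≤ |M| * (2 * √N * Real.log N) :=
    mul_le_mul_of_nonneg_right (le_abs_self M) (by positivity)
  linarith

theorem logFlux (α : ℝ) (hα : 0 < α) : ∃ c : ℝ, 0 < c ∧ ∀ (T t₀ : ℝ) (u : ℝ → E3 → E3) (p : ℝ → E3 → ℝ),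
    IsHInfAxisymNS T u p → 0 ≤ t₀ → t₀ < T → ∀ r₀ : ℝ, 0 < r₀ →
    (∀ t ∈ Ioo t₀ T, ∀ z : ℝ, ∀ a ∈ Ioo 0 r₀, ∀ r ∈ Ioc 0 a,
      ∫ y in (z - a)..(z + a), flx (u t) r y ^ 2 ≤ c * Real.log (2 + |Real.log a|) ^ (1/23 : ℝ) * a * r ^ 2) →
    ∃ C r₁ : ℝ, 0 < r₁ ∧ r₁ < 1 ∧ ∀ t ∈ Ico 0 T, ∀ x : E3, 0 < rad x → rad x < r₁ →
      |circ (u t) x| ≤ C * |Real.log (rad x)| ^ (-α) := by
  obtain ⟨A, hA, HA⟩ := main α hα
  obtain ⟨c, hc⟩ : ∃ c : ℝ, c = (1 / (2 * A)) ^ (1/23 : ℝ) := ⟨_, rfl⟩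
  have hc0 : 0 < c := by rw [hc]; positivity
  have hc23 : A * c ^ 23 = 1/2 := by
    have e1 : c ^ 23 = 1 / (2 * A) := by
      rw [hc, ← Real.rpow_natCast, ← Real.rpow_mul (by positivity)]
      norm_num
    rw [e1]
    field_simp
  refine ⟨c, hc0, fun T t₀ u p h h0 h1 r₀ hr₀ hF => HA T t₀ u p h h0 h1 ?_⟩
  obtain ⟨n₀, hn₀⟩ := exists_pow_lt_of_lt_one hr₀ (show (1/4 : ℝ) < 1 by norm_num)
  obtain ⟨N₀, hN₀⟩ := Lg_lim (Real.exp A) n₀
  have hl4 : 0 < Real.log 4 := Real.log_pos (by norm_num)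
  have hl42 : Real.log 4 < 2 := by
    have e1 : Real.log 4 = 2 * Real.log 2 := by
      have : (4 : ℝ) = 2 ^ 2 := by norm_num
      rw [this, Real.log_pow]
      push_cast
      ring
    rw [e1]
    linarith [Real.log_two_lt_d9]
  refine ⟨max N₀ 1, fun N hN z t ht => ?_⟩
  have hN0 : N₀ ≤ N := (le_max_left _ _).trans hN
  have hN1 : 1 ≤ N := (le_max_right _ _).trans hN
  have hNr : (1:ℝ) ≤ N := by exact_mod_cast hN1
  obtain ⟨ℓ, hℓ⟩ : ∃ ℓ : ℝ, ℓ = Real.log (4 * N) := ⟨_, rfl⟩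
  have hℓ1 : 0 ≤ ℓ := by rw [hℓ]; exact Real.log_nonneg (by linarith)
  obtain ⟨K, hK⟩ : ∃ K : ℝ, K = max 1 (c * ℓ ^ (1/23 : ℝ)) := ⟨_, rfl⟩
  have hK1 : 1 ≤ K := by rw [hK]; exact le_max_left _ _
  have hKc : c * ℓ ^ (1/23 : ℝ) ≤ K := by rw [hK]; exact le_max_right _ _
  have hK23 : A * K ^ 23 ≤ A + 1/2 * ℓ := by
    have e1 : A * (c * ℓ ^ (1/23 : ℝ)) ^ 23 = 1/2 * ℓ := by
      have e2 : (ℓ ^ (1/23 : ℝ)) ^ 23 = ℓ := by
        rw [← Real.rpow_natCast, ← Real.rpow_mul hℓ1]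
        norm_num
      rw [mul_pow, e2, ← mul_assoc, hc23]
    rcases max_choice 1 (c * ℓ ^ (1/23 : ℝ)) with h2 | h2
    · rw [hK, h2]
      linarith
    · rw [hK, h2, e1]
      linarith
  refine ⟨K, hK1, (Finset.range (N + 1)).filter (fun n => n₀ ≤ n), Finset.filter_subset _ _, ?_, ?_⟩
  · have h2 : (Finset.range (N + 1)).card ≤ ((Finset.range (N + 1)).filter (fun n => n₀ ≤ n)).card + n₀ := by
      have h3 : Finset.range (N + 1) ⊆ ((Finset.range (N + 1)).filter (fun n => n₀ ≤ n)) ∪ Finset.range n₀ := by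
        intro j hj
        rw [Finset.mem_union, Finset.mem_filter]
        by_cases h : n₀ ≤ j
        · exact Or.inl ⟨hj, h⟩
        · exact Or.inr (Finset.mem_range.2 (by omega))
      refine (Finset.card_le_card h3).trans ((Finset.card_union_le _ _).trans ?_)
      rw [Finset.card_range]
    rw [Finset.card_range] at h2
    have h3 := hN₀ N hN0
    have h4 : ((N + 1 : ℕ) : ℝ) ≤ (((Finset.range (N + 1)).filter (fun n => n₀ ≤ n)).card : ℝ) + n₀ := by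
      exact_mod_cast h2
    push_cast at h4
    have h5 : Real.exp (A * K ^ 23) ≤ Real.exp A * √(4 * N) := by
      have e1 : √(4 * (N : ℝ)) = Real.exp (1/2 * ℓ) := by
        rw [hℓ, Real.sqrt_eq_rpow, Real.rpow_def_of_pos (by linarith)]
        congr 1
        ring
      rw [e1, ← Real.exp_add]
      exact Real.exp_le_exp.2 hK23
    have h6 := mul_le_mul_of_nonneg_right h5 (Real.log_nonneg hNr)
    rw [mul_assoc] at h6
    linarith
  · intro n hn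
    rw [Finset.mem_filter, Finset.mem_range] at hn
    obtain ⟨a, ha⟩ : ∃ a : ℝ, a = (1/4) ^ n := ⟨_, rfl⟩
    have ha0 : 0 < a := by rw [ha]; positivity
    have har : a < r₀ := by
      rw [ha]
      exact lt_of_le_of_lt (pow_le_pow_of_le_one (by norm_num) (by norm_num) hn.2) hn₀
    have hla : Real.log (2 + |Real.log a|) ≤ ℓ := by
      have e1 : |Real.log a| = n * Real.log 4 := by
        rw [ha, Real.log_pow, one_div, Real.log_inv, mul_neg, abs_neg, abs_of_nonneg (by positivity)]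
      have hnN : (n : ℝ) ≤ N := by
        have : n ≤ N := by omega
        exact_mod_cast this
      rw [e1, hℓ]
      refine Real.log_le_log (by positivity) ?_
      nlinarith
    have hla0 : 0 ≤ Real.log (2 + |Real.log a|) := Real.log_nonneg (by linarith [abs_nonneg (Real.log a)])
    obtain ⟨m, hm⟩ : ∃ m : ℝ, m = c * Real.log (2 + |Real.log a|) ^ (1/23 : ℝ) := ⟨_, rfl⟩
    have hm0 : 0 ≤ m := by rw [hm]; positivity
    have hmK : m ≤ K := by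
      refine le_trans ?_ hKc
      rw [hm]
      exact mul_le_mul_of_nonneg_left (Real.rpow_le_rpow hla0 hla (by norm_num)) hc0.le
    rw [← ha]
    refine ⟨fun _ => m, continuousOn_const, fun _ => hm0, fun s hs hs0 r hr => ?_, ?_⟩
    · rw [hm]
      exact hF s ⟨hs0, by linarith [hs.2, ht.2]⟩ z a ⟨ha0, har⟩ r hr
    · rw [intervalIntegral.integral_const, smul_eq_mul]
      have h2 : m ^ 5 ≤ K ^ 5 := pow_le_pow_left₀ hm0 hmK 5
      have e1 : t - (t - a ^ 2) = a ^ 2 := by ring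
      rw [e1, mul_comm]
      exact mul_le_mul_of_nonneg_right h2 (by positivity)

/-- The scaled energy of the axial velocity alone, with slow growth. -/
theorem logEnergy (α : ℝ) (hα : 0 < α) : ∃ c : ℝ, 0 < c ∧ ∀ (T t₀ : ℝ) (u : ℝ → E3 → E3) (p : ℝ → E3 → ℝ),
    IsHInfAxisymNS T u p → 0 ≤ t₀ → t₀ < T → ∀ r₀ : ℝ, 0 < r₀ →
    (∀ t ∈ Ioo t₀ T, ∀ z : ℝ, ∀ a ∈ Ioo 0 r₀,
      ∫ x in {x : E3 | rad x < a ∧ |x 2 - z| < a}, u t x 2 ^ 2 ≤ c * Real.log (2 + |Real.log a|) ^ (1/23 : ℝ) * a) →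
    ∃ C r₁ : ℝ, 0 < r₁ ∧ r₁ < 1 ∧ ∀ t ∈ Ico 0 T, ∀ x : E3, 0 < rad x → rad x < r₁ →
      |circ (u t) x| ≤ C * |Real.log (rad x)| ^ (-α) := by
  obtain ⟨c, hc, H⟩ := logFlux α hα
  refine ⟨c * (4 * Real.pi), by positivity, fun T t₀ u p h h0 h1 r₀ hr₀ hF => H T t₀ u p h h0 h1 r₀ hr₀ ?_⟩
  intro t ht z a ha r hr
  have hm : t ∈ Ico 0 T := ⟨by linarith [ht.1], ht.2⟩
  have h2 := uz_sq (axF_of h.ns hm) (a := a) (r := r) (z := z) hr.1 hr.2
  refine h2.trans ?_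
  have h3 := mul_le_mul_of_nonneg_left (hF t ht z a ha) (show 0 ≤ r ^ 2 / (4 * Real.pi) by positivity)
  refine h3.trans (le_of_eq ?_)
  have := Real.pi_pos
  field_simp

end Pool.Agent.H90.AX
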