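/-
The axial velocity alone in weak `L³`.
-/
import Pool.Agent.H90.AX.Res
import Pool.Agent.H94.WL.Cy

set_option autoImplicit false

open Set Filter Topology MeasureTheory
open scoped ContDiff

namespace Pool.Agent.H90.AX

open Pool.Agent.H16 Pool.Agent.H87.NS Pool.Agent.H72.CC

/-- Functions in weak `L³` over sets of finite measure. -/
theorem Wk_layer {f : E3 → ℝ} (hf : Continuous f) {A : Set E3} {a C : ℝ} (ha : 0 < a) (hC : 0 ≤ C)
    (hvol : volume A ≤ ENNReal.ofReal (7 * a ^ 3))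
    (H : ∀ lam : ℝ, 0 < lam → volume {x : E3 | lam < |f x|} ≤ ENNReal.ofReal (C / lam ^ 3)) :
    ∫ x in A, f x ^ 2 ≤ (14 + 2 * C) * a := by
  set L : ℝ := a⁻¹ with hL
  have hL0 : 0 < L := by positivity
  have e0 : ∀ x, f x ^ 2 = |f x| ^ (2 : ℝ) := fun x => by
    rw [Real.rpow_two, sq_abs]
  simp only [e0]
  have hc : Continuous (fun x => |f x| ^ (2 : ℝ)) := hf.abs.rpow_const fun x => Or.inr (by norm_num)
  rw [integral_eq_lintegral_of_nonneg_ae (Eventually.of_forall fun x => by positivity) hc.aestronglyMeasurable]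
  refine ENNReal.toReal_le_of_le_ofReal (by positivity) ?_
  rw [lintegral_rpow_eq_lintegral_meas_lt_mul (volume.restrict A) (Eventually.of_forall fun x => abs_nonneg (f x))
    hf.abs.aemeasurable (by norm_num : (0:ℝ) < 2)]
  have h1 : ∀ t : ℝ, (volume.restrict A) {x | t < |f x|} ≤ ENNReal.ofReal (7 * a ^ 3) := fun t =>
    (measure_mono (subset_univ _)).trans (by rw [Measure.restrict_apply_univ]; exact hvol)
  have h2 : ∀ t : ℝ, 0 < t → (volume.restrict A) {x | t < |f x|} ≤ ENNReal.ofReal (C / t ^ 3) := fun t ht =>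
    (Measure.restrict_apply_le _ _).trans (H t ht)
  have h3 : ∫⁻ t in Ioi 0, (volume.restrict A) {x | t < |f x|} * ENNReal.ofReal (t ^ (2 - 1 : ℝ)) ≤
      ENNReal.ofReal (7 * a) + ENNReal.ofReal (C * a) := by
    rw [← Ioc_union_Ioi_eq_Ioi hL0.le]
    refine (lintegral_union_le _ _ _).trans (add_le_add ?_ ?_)
    · refine (setLIntegral_mono' measurableSet_Ioc
        (g := fun _ => ENNReal.ofReal (7 * a ^ 3) * ENNReal.ofReal (L ^ (2 - 1 : ℝ))) fun t ht => ?_).trans ?_
      · exact mul_le_mul' (h1 t) (ENNReal.ofReal_le_ofReal (Real.rpow_le_rpow ht.1.le ht.2 (by norm_num)))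
      · rw [setLIntegral_const, Real.volume_Ioc, sub_zero, ← ENNReal.ofReal_mul (by positivity),
          ← ENNReal.ofReal_mul (by positivity)]
        refine ENNReal.ofReal_le_ofReal (le_of_eq ?_)
        have e1 : (2 - 1 : ℝ) = 1 := by norm_num
        rw [e1, Real.rpow_one, hL]
        field_simp
    · have h4 : ∀ t ∈ Ioi L, (volume.restrict A) {x | t < |f x|} * ENNReal.ofReal (t ^ (2 - 1 : ℝ)) ≤
          ENNReal.ofReal (C * t ^ (-2 : ℝ)) := by
        intro t ht
        have ht0 : 0 < t := hL0.trans ht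
        refine (mul_le_mul' (h2 t ht0) le_rfl).trans (le_of_eq ?_)
        rw [← ENNReal.ofReal_mul (by positivity)]
        congr 1
        rw [div_eq_mul_inv, mul_assoc]
        congr 1
        rw [← Real.rpow_natCast, ← Real.rpow_neg ht0.le, ← Real.rpow_add ht0]
        norm_num
      refine (setLIntegral_mono' measurableSet_Ioi h4).trans (le_of_eq ?_)
      have h5 := (integrableOn_Ioi_rpow_of_lt (by norm_num : (-2 : ℝ) < -1) hL0).const_mul C
      rw [← ofReal_integral_eq_lintegral_ofReal h5 ?_]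
      · rw [integral_const_mul, integral_Ioi_rpow_of_lt (by norm_num) hL0]
        congr 1
        have e1 : (-2 + 1 : ℝ) = -1 := by norm_num
        rw [e1, hL, Real.rpow_neg_one, inv_inv]
        ring
      · rw [EventuallyLE, ae_restrict_iff' measurableSet_Ioi]
        exact Eventually.of_forall fun t ht => mul_nonneg hC (Real.rpow_nonneg (hL0.trans ht).le _)
  refine (mul_le_mul' le_rfl h3).trans ?_
  rw [← ENNReal.ofReal_add (by positivity) (by positivity), ← ENNReal.ofReal_mul (by norm_num)]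
  refine ENNReal.ofReal_le_ofReal (le_of_eq ?_)
  ring

/-- The axial velocity alone in weak `L³`, of any size. -/
theorem weakL3 {T t₀ : ℝ} {u : ℝ → E3 → E3} {p : ℝ → E3 → ℝ} (h : IsHInfAxisymNS T u p) (h0 : 0 ≤ t₀) (h1 : t₀ < T)
    {C : ℝ} (hF : ∀ t ∈ Ioo t₀ T, ∀ lam : ℝ, 0 < lam →
      volume {x : E3 | lam < |u t x 2|} ≤ ENNReal.ofReal (C / lam ^ 3)) {α : ℝ} (hα : 0 < α) :
    ∃ C' r₁ : ℝ, 0 < r₁ ∧ r₁ < 1 ∧ ∀ t ∈ Ico 0 T, ∀ x : E3, 0 < rad x → rad x < r₁ →
      |circ (u t) x| ≤ C' * |Real.log (rad x)| ^ (-α) := by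
  refine scaledEnergy h h0 h1 (C := 14 + 2 * |C|) one_pos (fun t ht z a ha => ?_) hα
  have hm : t ∈ Ico 0 T := ⟨by linarith [ht.1], ht.2⟩
  have hc : Continuous (fun x => u t x 2) := by
    have := (axF_of h.ns hm).smooth.continuous
    fun_prop
  have ha0 : 0 < a := ha.1
  refine Wk_layer hc ha0 (abs_nonneg C) ?_ fun lam hlam => ?_
  · have h5 : volume {x : E3 | rad x < a ∧ |x 2 - z| < a} = ENNReal.ofReal (2 * Real.pi * a ^ 2 * a) :=
      Pool.Agent.H94.WL.cy_vol ha0 ha0 z
    rw [h5]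
    refine ENNReal.ofReal_le_ofReal ?_
    have h6 := Real.pi_lt_d2
    have h7 : 0 < a ^ 3 := by positivity
    nlinarith
  · refine (hF t ht lam hlam).trans (ENNReal.ofReal_le_ofReal ?_)
    have := le_abs_self C
    gcongr

end Pool.Agent.H90.AX
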